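import Pool.Agent.H598.AS.Total
import Pool.Agent.H598.TK.Top
import Pool.Agent.H598.DG.Local

/-!
# Counting in terms of plain polynomials; the asymptotic formula in Waring's problem
-/

namespace Pool.Agent.H598.AS

open Finset Polynomial Pool.Agent.H598.FQ
open scoped Classical

variable {F : Type*} [Field F] [Fintype F]

/-- Tuples of residues as plain tuples of polynomials. -/
lemma NG_eq {k s : ℕ} (a : Fin s → F[X]) (m : F[X]) {G : F[X]} (hG : G.Monic) :
    Nat.card {z : Fin s → F[X] // (∀ i, (z i).degree < G.degree) ∧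
      G ∣ ∑ i, a i * z i ^ k - m} = NG k a m G := by
  unfold NG
  rw [← Fintype.card_subtype, ← Nat.card_eq_fintype_card]
  apply Nat.card_congr
  have hdeg : G.degree = (G.natDegree : WithBot ℕ) := degree_eq_natDegree hG.ne_zero
  exact
    { toFun := fun z => ⟨fun i => ⟨z.1 i, by
        rw [mem_degreeLT, ← hdeg]; exact z.2.1 i⟩, z.2.2⟩
      invFun := fun z => ⟨fun i => (z.1 i : F[X]), fun i => by
        rw [hdeg, ← mem_degreeLT]; exact (z.1 i).2, z.2⟩
      left_inv := fun z => rfl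
      right_inv := fun z => rfl }

/-- Solutions as plain tuples of polynomials. -/
lemma Sol_eq {k s : ℕ} (a : Fin s → F[X]) (m : F[X]) (W : ℕ) :
    Nat.card {x : Fin s → F[X] // (∀ i, (x i).natDegree ≤ dP k W (a i)) ∧
      (∃ i, (x i).coeff (dP k W (a i)) ≠ 0 ∧ (a i).natDegree % k = W % k) ∧
      ∑ i, a i * x i ^ k = m} = (Sol k a m W).card := by
  unfold Sol
  rw [← Fintype.card_subtype, ← Nat.card_eq_fintype_card]
  apply Nat.card_congr
  exact
    { toFun := fun z => ⟨fun i => ⟨z.1 i, mem_V_succ_iff.2 (z.2.1 i)⟩, z.2.2⟩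
      invFun := fun z => ⟨fun i => (z.1 i : F[X]), fun i => mem_V_succ_iff.1 (z.1 i).2, z.2⟩
      left_inv := fun z => rfl
      right_inv := fun z => rfl }

lemma Lc_eq {k s : ℕ} (a : Fin s → F[X]) (W : ℕ) (v : F) :
    Nat.card {c : Fin s → F // (∃ i, c i ≠ 0 ∧ (a i).natDegree % k = W % k) ∧
      ∑ i, (if (a i).natDegree % k = W % k then (a i).leadingCoeff * c i ^ k else 0) = v}
      = (Lc k a W v).card := by
  unfold Lc
  rw [← Fintype.card_subtype, ← Nat.card_eq_fintype_card]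

omit [Fintype F] in
lemma dP_one {k : ℕ} (hk : 0 < k) (P : ℕ) : dP k (k * P) (1 : F[X]) = P := by
  unfold dP
  rw [natDegree_one, Nat.sub_zero, Nat.mul_div_cancel_left _ hk]

/-- The number of `x` with all degrees at most `P`, one of them equal to `P`. -/
lemma count_one {k s : ℕ} (hk : 0 < k) {P : ℕ} (hP : 1 ≤ P) (m : F[X]) :
    Nat.card {x : Fin s → F[X] // (∀ i, (x i).natDegree ≤ P) ∧ (∃ i, (x i).natDegree = P) ∧
      ∑ i, x i ^ k = m} = (Sol k (fun _ : Fin s => (1 : F[X])) m (k * P)).card := by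
  rw [← Sol_eq]
  apply Nat.card_congr
  apply Equiv.subtypeEquivRight
  intro x
  simp only [dP_one hk, one_mul, natDegree_one, Nat.zero_mod, Nat.mul_mod_right, and_true]
  constructor
  · rintro ⟨h1, ⟨i, hi⟩, h3⟩
    refine ⟨h1, ⟨i, ?_⟩, h3⟩
    intro h0
    have h4 : x i = 0 := by
      rw [← leadingCoeff_eq_zero, leadingCoeff, hi, h0]
    rw [h4, natDegree_zero] at hi
    omega
  · rintro ⟨h1, ⟨i, hi⟩, h3⟩
    exact ⟨h1, ⟨i, le_antisymm (h1 i) (le_natDegree_of_ne_zero hi)⟩, h3⟩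

lemma kappa_one {k s : ℕ} (P : ℕ) (v : F) :
    Nat.card {c : Fin s → F // (∃ i, c i ≠ 0) ∧ ∑ i, c i ^ k = v}
      = (Lc k (fun _ : Fin s => (1 : F[X])) (k * P) v).card := by
  rw [← Lc_eq]
  apply Nat.card_congr
  apply Equiv.subtypeEquivRight
  intro c
  simp only [one_mul, natDegree_one, Nat.zero_mod, Nat.mul_mod_right, and_true, if_true,
    leadingCoeff_one]

omit [Fintype F] in
/-- In the strict range the maximal degree is attained. -/
lemma strict_top {k s : ℕ} {P : ℕ} {m : F[X]} (hm : k * P < m.natDegree + k)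
    (hP : 1 ≤ P) {x : Fin s → F[X]} (hx : ∀ i, (x i).natDegree ≤ P) (hs : ∑ i, x i ^ k = m) :
    ∃ i, (x i).natDegree = P := by
  by_contra hcon
  push Not at hcon
  have h1 : ∀ i, (x i).natDegree ≤ P - 1 := by
    intro i
    have := hx i
    have := hcon i
    omega
  have h2 : m.natDegree ≤ k * (P - 1) := by
    rw [← hs]
    apply natDegree_sum_le_of_forall_le
    intro i _
    exact le_trans natDegree_pow_le (Nat.mul_le_mul_left _ (h1 i))
  have h3 : k * (P - 1) + k = k * P := by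
    obtain ⟨p, rfl⟩ := Nat.exists_eq_add_of_le' hP
    rw [Nat.add_sub_cancel]; ring
  omega

/-- **The asymptotic formula in Waring's problem.** -/
theorem waring_asymp {k : ℕ} (hk : 2 ≤ k)
    (hch : ∀ i : ℕ, 1 ≤ i → i ≤ k → ((i : ℕ) : F) ≠ 0)
    (hq : (8 * k) ^ (k * 2 ^ k) ≤ Fintype.card F) {s : ℕ} (hs : 2 * k + 1 ≤ s) :
    ∃ S : F[X] → ℝ, (∀ m, 14 / 15 ≤ S m ∧ S m ≤ 16 / 15) ∧
      (∀ ε : ℝ, 0 < ε → ∃ H : F[X], H.Monic ∧ ∀ G : F[X], G.Monic → H ∣ G → ∀ m : F[X],
        |(Nat.card {z : Fin s → F[X] // (∀ i, (z i).degree < G.degree) ∧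
            G ∣ ∑ i, z i ^ k - m} : ℝ)
          / (Fintype.card F : ℝ) ^ ((s - 1) * G.natDegree) - S m| ≤ ε) ∧
      (∀ ε : ℝ, 0 < ε → ∃ P₀ : ℕ, ∀ P, P₀ ≤ P → ∀ m : F[X], m.natDegree ≤ k * P →
        |(Nat.card {x : Fin s → F[X] // (∀ i, (x i).natDegree ≤ P) ∧
            (∃ i, (x i).natDegree = P) ∧ ∑ i, x i ^ k = m} : ℝ)
          / (Fintype.card F : ℝ) ^ ((s - k) * P)
          - (Nat.card {c : Fin s → F // (∃ i, c i ≠ 0) ∧ ∑ i, c i ^ k = m.coeff (k * P)} : ℝ)
            * S m| ≤ ε) := by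
  obtain ⟨ψ, hψ⟩ : ∃ ψ : AddChar F ℂ, ψ ≠ 1 := by
    obtain ⟨ψ, hψ⟩ := (AddChar.exists_apply_ne_zero (α := F) (a := 1)).2 one_ne_zero
    exact ⟨ψ, fun h => hψ (by rw [h]; rfl)⟩
  have hbig := big_of_le hk hq
  have ha : ∀ i : Fin s, (fun _ : Fin s => (1 : F[X])) i ≠ 0 := fun _ => one_ne_zero
  have hCa : Ca F (fun _ : Fin s => (1 : F[X])) = 1 :=
    Ca_const (by omega) (fun _ => natDegree_one)
  have hq1 : (1 : ℝ) ≤ Fintype.card F := by exact_mod_cast Fintype.card_pos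
  have hq0 : (0 : ℝ) < Fintype.card F := by linarith
  refine ⟨fun m => Sr ψ k (fun _ : Fin s => (1 : F[X])) m, ?_, ?_, ?_⟩
  · intro m
    have h1 := SSer_one hψ hk hch hbig hs ha m
    rw [hCa] at h1
    have h2 := Complex.abs_re_le_norm (SSer ψ k (fun _ : Fin s => (1 : F[X])) m - 1)
    rw [Complex.sub_re, Complex.one_re] at h2
    have h3 := abs_le.1 (le_trans h2 h1)
    unfold Sr
    constructor <;> linarith [h3.1, h3.2]
  · intro ε hε
    obtain ⟨D, hD⟩ : ∃ D : ℕ, 2 / ε < 16 ^ D := by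
      obtain ⟨D, hD⟩ := pow_unbounded_of_one_lt (2 / ε) (show (1 : ℝ) < 16 by norm_num)
      exact ⟨D, hD⟩
    obtain ⟨H, hH, hHd⟩ := exists_modulus F D
    refine ⟨H, hH, fun G hG hHG m => ?_⟩
    have h1 := dens_close hψ hk hch hbig hs ha m hG (D := D)
      (fun g hg hgd => dvd_trans (hHd g hg hgd) hHG)
    rw [hCa] at h1
    have h2 := Complex.abs_re_le_norm ((NG k (fun _ : Fin s => (1 : F[X])) m G : ℂ)
      * (Fintype.card F : ℂ) ^ G.natDegree
        / ((Fintype.card F : ℂ) ^ G.natDegree) ^ s - SSer ψ k (fun _ : Fin s => (1 : F[X])) m)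
    rw [Complex.sub_re] at h2
    have h3 : ((NG k (fun _ : Fin s => (1 : F[X])) m G : ℂ)
      * (Fintype.card F : ℂ) ^ G.natDegree / ((Fintype.card F : ℂ) ^ G.natDegree) ^ s).re
      = (NG k (fun _ : Fin s => (1 : F[X])) m G : ℝ)
        / (Fintype.card F : ℝ) ^ ((s - 1) * G.natDegree) := by
      have e : ((NG k (fun _ : Fin s => (1 : F[X])) m G : ℂ)
        * (Fintype.card F : ℂ) ^ G.natDegree / ((Fintype.card F : ℂ) ^ G.natDegree) ^ s)
        = (((NG k (fun _ : Fin s => (1 : F[X])) m G : ℝ)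
          * (Fintype.card F : ℝ) ^ G.natDegree / ((Fintype.card F : ℝ) ^ G.natDegree) ^ s
          : ℝ) : ℂ) := by push_cast; rfl
      rw [e, Complex.ofReal_re]
      have e2 : ((Fintype.card F : ℝ) ^ G.natDegree) ^ s
          = (Fintype.card F : ℝ) ^ ((s - 1) * G.natDegree) * (Fintype.card F : ℝ) ^ G.natDegree := by
        rw [← pow_mul, ← pow_add]
        congr 1
        obtain ⟨t, rfl⟩ : ∃ t, s = t + 1 := ⟨s - 1, by omega⟩
        rw [Nat.add_sub_cancel]; ring
      rw [e2]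
      have : (Fintype.card F : ℝ) ^ G.natDegree ≠ 0 := by positivity
      rw [mul_div_mul_right _ _ this]
    rw [h3] at h2
    have h4 := NG_eq (k := k) (fun _ : Fin s => (1 : F[X])) m hG
    simp only [one_mul] at h4
    rw [h4]
    refine le_trans h2 (le_trans h1 ?_)
    have h5 : (0 : ℝ) < 16 ^ D := by positivity
    rw [div_lt_iff₀ hε] at hD
    have h6 : 2 * (1 / (15 * (16 : ℝ) ^ D)) = 2 / 15 / 16 ^ D := by field_simp
    rw [h6, div_le_iff₀ h5]
    nlinarith
  · intro ε hε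
    obtain ⟨t, rfl⟩ : ∃ t, s = t + 1 := ⟨s - 1, by omega⟩
    obtain ⟨W₀, hW₀⟩ := total hψ hk hch hbig (t := t) (by omega)
      (fun _ : Fin (t + 1) => (1 : F[X])) ha
      (ε := ε / (Fintype.card F : ℝ) ^ (t + 1)) (by positivity)
    refine ⟨W₀ + 1, fun P hP m hm => ?_⟩
    have hW : W₀ ≤ k * P := by nlinarith
    have h1 := hW₀ (k * P) hW m (mem_V_succ_iff.2 hm)
    rw [count_one (by omega) (by omega) m, kappa_one P (m.coeff (k * P))]
    have hprod : ∏ i : Fin (t + 1), (Fintype.card F : ℝ) ^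
        (dP k (k * P) ((fun _ : Fin (t + 1) => (1 : F[X])) i))
        = (Fintype.card F : ℝ) ^ ((t + 1 - k) * P) * (Fintype.card F : ℝ) ^ (k * P) := by
      rw [Finset.prod_congr rfl (fun i _ => by rw [dP_one (by omega) P]), Finset.prod_const,
        Finset.card_univ, Fintype.card_fin, ← pow_mul, ← pow_add]
      congr 1
      obtain ⟨r, hr⟩ : ∃ r, t + 1 = r + k := ⟨t + 1 - k, by omega⟩
      rw [hr, Nat.add_sub_cancel]; ring
    rw [hprod] at h1
    have hne : (Fintype.card F : ℝ) ^ (k * P) ≠ 0 := by positivity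
    rw [mul_div_mul_right _ _ hne] at h1
    refine le_trans h1 ?_
    have h2 : ((Lc k (fun _ : Fin (t + 1) => (1 : F[X])) (k * P) (m.coeff (k * P))).card : ℝ)
        ≤ (Fintype.card F : ℝ) ^ (t + 1) := by
      have h3 : (Lc k (fun _ : Fin (t + 1) => (1 : F[X])) (k * P) (m.coeff (k * P))).card
          ≤ Fintype.card F ^ (t + 1) := by
        refine le_trans (Finset.card_le_univ _) ?_
        rw [Fintype.card_fun, Fintype.card_fin]
      exact_mod_cast h3
    have h4 : (0 : ℝ) < (Fintype.card F : ℝ) ^ (t + 1) := by positivity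
    calc _ ≤ (Fintype.card F : ℝ) ^ (t + 1) * (ε / (Fintype.card F : ℝ) ^ (t + 1)) :=
          mul_le_mul_of_nonneg_right h2 (by positivity)
      _ = ε := by field_simp

end Pool.Agent.H598.AS
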