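import Pool.Agent.H598.AS.Cyl

/-!
# Zeros of exact height
-/

namespace Pool.Agent.H598.AS

open Finset Polynomial Pool.Agent.H598.FQ
open Pool.Agent.H598.DG (GG GG_mul GG_sub_mem)
open Pool.Agent.H598.TK (EE Hyp QQ Inf Yd card_Yd)
open Filter Topology
open scoped Classical

section
variable (F : Type*) [Field F] [Fintype F]

/-- The polynomials of degree less than `n`. -/
noncomputable def VF (n : ℕ) : Finset F[X] :=
  Finset.univ.image (fun v : degreeLT F n => (v : F[X]))

/-- The tuples of polynomials of degree less than `n`. -/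
noncomputable def TF (s n : ℕ) : Finset (Fin s → F[X]) := Fintype.piFinset (fun _ => VF F n)

/-- The tuples of maximal degree exactly `r`. -/
noncomputable def BP (s r : ℕ) : Finset (Fin s → F[X]) :=
  (TF F s (r + 1)).filter (fun b => ∃ i, (b i).coeff r ≠ 0)

end

variable {F : Type*} [Field F] [Fintype F]

lemma mem_VF {n : ℕ} {p : F[X]} : p ∈ VF F n ↔ p ∈ degreeLT F n := by
  unfold VF
  rw [Finset.mem_image]
  constructor
  · rintro ⟨v, -, rfl⟩; exact v.2
  · intro h; exact ⟨⟨p, h⟩, Finset.mem_univ _, rfl⟩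

lemma card_VF (n : ℕ) : (VF F n).card = Fintype.card F ^ n := by
  unfold VF
  rw [Finset.card_image_of_injective _ Subtype.coe_injective, Finset.card_univ, card_V]

lemma mem_TF {s n : ℕ} {x : Fin s → F[X]} : x ∈ TF F s n ↔ ∀ i, x i ∈ degreeLT F n := by
  unfold TF
  rw [Fintype.mem_piFinset]
  exact forall_congr' (fun i => mem_VF)

lemma mem_BP {s r : ℕ} {x : Fin s → F[X]} : x ∈ BP F s r ↔
    (∀ i, x i ∈ degreeLT F (r + 1)) ∧ ∃ i, (x i).coeff r ≠ 0 := by
  unfold BP
  rw [Finset.mem_filter, mem_TF]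

/-- Counting functions on `degreeLT` tuples and on plain tuples. -/
lemma card_TF_filter {s n : ℕ} (Φ : (Fin s → F[X]) → Prop) [DecidablePred Φ] :
    ((TF F s n).filter Φ).card
      = (Finset.univ.filter (fun y : (Fin s → degreeLT F n) => Φ (fun i => (y i : F[X])))).card := by
  symm
  apply Finset.card_bij (fun y _ => fun i => (y i : F[X]))
  · intro y hy
    rw [Finset.mem_filter, mem_TF]
    exact ⟨fun i => (y i).2, (Finset.mem_filter.1 hy).2⟩
  · intro y _ y' _ h
    funext i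
    exact Subtype.ext (congrFun h i)
  · intro x hx
    rw [Finset.mem_filter, mem_TF] at hx
    exact ⟨fun i => ⟨x i, hx.1 i⟩, Finset.mem_filter.2 ⟨Finset.mem_univ _, hx.2⟩, rfl⟩

omit [Fintype F] in
lemma split_uniq {n : ℕ} (b : F[X]) {y : F[X]} (hy : y ∈ degreeLT F n) :
    (b * X ^ n + y) /ₘ X ^ n = b ∧ (b * X ^ n + y) %ₘ X ^ n = y := by
  apply div_modByMonic_unique b y (monic_X_pow n)
  refine ⟨by ring, ?_⟩
  rw [degree_X_pow]
  exact mem_degreeLT.1 hy

omit [Fintype F] in
lemma split_eq (n : ℕ) (x : F[X]) : (x /ₘ X ^ n) * X ^ n + x %ₘ X ^ n = x := by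
  rw [add_comm, mul_comm]
  exact modByMonic_add_div x _

/-- Splitting off the lower coefficients. -/
lemma split_card {s r n : ℕ} (Φ : (Fin s → F[X]) → Prop) [DecidablePred Φ] :
    ((BP F s (r + n)).filter Φ).card
      = ∑ b ∈ BP F s r, ((TF F s n).filter (fun y => Φ (fun i => b i * X ^ n + y i))).card := by
  have hmod : ∀ x : F[X], x %ₘ X ^ n ∈ degreeLT F n := fun x =>
    mod_mem (monic_X_pow n) (natDegree_X_pow n) x
  have hcoeff : ∀ x : F[X], x.coeff (r + n) = (x /ₘ X ^ n).coeff r := by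
    intro x
    conv_lhs => rw [← split_eq n x]
    rw [coeff_add, coeff_mul_X_pow, mem_V_iff.1 (hmod x) _ (Nat.le_add_left _ _), add_zero]
  have hdeg : ∀ x : F[X], x ∈ degreeLT F (r + n + 1) → x /ₘ X ^ n ∈ degreeLT F (r + 1) := by
    intro x hx
    rw [mem_V_succ_iff] at *
    rw [natDegree_divByMonic _ (monic_X_pow n), natDegree_X_pow]
    omega
  rw [Finset.card_eq_sum_card_fiberwise (f := fun x : Fin s → F[X] => fun i => x i /ₘ X ^ n)
    (t := BP F s r)]
  · apply Finset.sum_congr rfl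
    intro b hb
    rw [mem_BP] at hb
    refine Finset.card_bij' (fun x _ => fun i => x i %ₘ X ^ n)
      (fun y _ => fun i => b i * X ^ n + y i) ?_ ?_ ?_ ?_
    · intro x hx
      rw [Finset.mem_filter, Finset.mem_filter, mem_BP] at hx
      rw [Finset.mem_filter, mem_TF]
      refine ⟨fun i => hmod _, ?_⟩
      have e : (fun i => b i * X ^ n + x i %ₘ X ^ n) = x := by
        funext i
        rw [← congrFun hx.2 i]
        exact split_eq n (x i)
      rw [e]
      exact hx.1.2
    · intro y hy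
      rw [Finset.mem_filter, mem_TF] at hy
      rw [Finset.mem_filter, Finset.mem_filter, mem_BP]
      refine ⟨⟨⟨fun i => ?_, ?_⟩, hy.2⟩, ?_⟩
      · apply Submodule.add_mem
        · rw [mem_V_succ_iff]
          refine le_trans natDegree_mul_le ?_
          rw [natDegree_X_pow]
          have := mem_V_succ_iff.1 (hb.1 i)
          omega
        · exact V_mono (by omega) (hy.1 i)
      · obtain ⟨i, hi⟩ := hb.2
        refine ⟨i, ?_⟩
        rw [hcoeff, (split_uniq (b i) (hy.1 i)).1]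
        exact hi
      · funext i
        exact (split_uniq (b i) (hy.1 i)).1
    · intro x hx
      rw [Finset.mem_filter, Finset.mem_filter, mem_BP] at hx
      funext i
      rw [← congrFun hx.2 i]
      exact split_eq n (x i)
    · intro y hy
      rw [Finset.mem_filter, mem_TF] at hy
      funext i
      exact (split_uniq (b i) (hy.1 i)).2
  · intro x hx
    rw [Finset.mem_coe, Finset.mem_filter, mem_BP] at hx
    rw [Finset.mem_coe, mem_BP]
    refine ⟨fun i => hdeg _ (hx.1.1 i), ?_⟩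
    obtain ⟨i, hi⟩ := hx.1.2
    refine ⟨i, ?_⟩
    rwa [hcoeff] at hi

omit [Fintype F] in
lemma mem_mul_X {f : F[X]} {j w : ℕ} : f * X ^ j ∈ degreeLT F (j + w) ↔ f ∈ degreeLT F w := by
  rw [mem_V_iff, mem_V_iff]
  constructor
  · intro h l hl
    have := h (l + j) (by omega)
    rwa [coeff_mul_X_pow] at this
  · intro h l hl
    obtain ⟨l', rfl⟩ : ∃ l', l = l' + j := ⟨l - j, by omega⟩
    rw [coeff_mul_X_pow]
    exact h l' (by omega)

omit [Fintype F] in
/-- The terms depending on the lower coefficients. -/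
lemma diff_mem {k : ℕ} (hk : 2 ≤ k) {s : ℕ} {a b : Fin s → F[X]} {w n : ℕ}
    (hw : ∀ i, (a i).natDegree + (k - 1) * (b i).natDegree ≤ w)
    {y : Fin s → F[X]} (hy : ∀ i, y i ∈ degreeLT F n) :
    ∑ i, a i * (b i * X ^ n + y i) ^ k - (∑ i, a i * b i ^ k) * X ^ (k * n)
      ∈ degreeLT F (k * n + w) := by
  have hkk : k * n = (k - 1) * n + n := by
    obtain ⟨k', rfl⟩ : ∃ k', k = k' + 1 := ⟨k - 1, by omega⟩
    simp only [Nat.add_sub_cancel]
    ring
  rw [Finset.sum_mul, ← Finset.sum_sub_distrib]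
  refine Submodule.sum_mem _ (fun i _ => ?_)
  have hx : ∀ y ∈ degreeLT F n, (b i * X ^ n + 1 * y).natDegree ≤ n + (b i).natDegree := by
    intro y hy
    rw [one_mul]
    apply natDegree_add_le_of_degree_le
    · refine le_trans natDegree_mul_le ?_
      rw [natDegree_X_pow, add_comm]
    · refine le_trans (mem_V_succ_iff.1 (V_mono (Nat.le_succ _) hy)) (Nat.le_add_right _ _)
  have h0 : (0 : F[X]) ∈ degreeLT F n := Submodule.zero_mem _
  have h2 := GG_sub_mem (k := k) (a := a i) (b := b i * X ^ n) (one_ne_zero (α := F[X]))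
    (le_refl (a i).natDegree) (hx _ (hy i)) (hx _ h0) (d := n)
    (by rw [sub_zero]; exact hy i)
  have h3 : GG k (a i) (b i * X ^ n) 1 0 = 0 := by unfold GG; ring
  have h4 := GG_mul k (a i) (b i * X ^ n) 1 (y i)
  rw [one_mul, one_mul] at h4
  rw [h3, sub_zero, h4] at h2
  have e : a i * (b i * X ^ n + y i) ^ k - a i * b i ^ k * X ^ (k * n)
      = a i * ((b i * X ^ n + y i) ^ k - (b i * X ^ n) ^ k) := by
    rw [mul_pow (b i), ← pow_mul, mul_comm n k]
    ring
  rw [e]
  apply V_mono _ h2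
  have := hw i
  rw [mul_add]
  omega

/-- The size of the derivative. -/
noncomputable def wB (k : ℕ) {s : ℕ} (a b : Fin s → F[X]) : ℕ :=
  Finset.univ.sup (fun i => (a i).natDegree + (k - 1) * (b i).natDegree)

omit [Fintype F] in
lemma le_wB (k : ℕ) {s : ℕ} (a b : Fin s → F[X]) (i : Fin s) :
    (a i).natDegree + (k - 1) * (b i).natDegree ≤ wB k a b :=
  Finset.le_sup (f := fun i => (a i).natDegree + (k - 1) * (b i).natDegree) (Finset.mem_univ i)

lemma wB_ge {k s r : ℕ} {a b : Fin s → F[X]} (hb : b ∈ BP F s r) : (k - 1) * r ≤ wB k a b := by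
  obtain ⟨i, hi⟩ := (mem_BP.1 hb).2
  have h1 := le_natDegree_of_ne_zero hi
  have h2 := le_wB k a b i
  have h3 := Nat.mul_le_mul_left (k - 1) h1
  omega

lemma wB_le {k s r A : ℕ} {a b : Fin s → F[X]} (hA : ∀ i, (a i).natDegree ≤ A)
    (hb : b ∈ BP F s r) : wB k a b ≤ A + (k - 1) * r := by
  unfold wB
  apply Finset.sup_le
  intro i _
  have h1 := mem_V_succ_iff.1 ((mem_BP.1 hb).1 i)
  have h3 := Nat.mul_le_mul_left (k - 1) h1
  have := hA i
  omega

lemma exists_wB {k t r : ℕ} (hk : 2 ≤ k) {a b : Fin (t + 1) → F[X]}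
    (hA : ∀ i, (a i).natDegree < r) (hb : b ∈ BP F (t + 1) r) :
    ∃ i₀, b i₀ ≠ 0 ∧ (a i₀).natDegree + (k - 1) * (b i₀).natDegree = wB k a b := by
  obtain ⟨i₀, -, h⟩ := Finset.exists_mem_eq_sup (Finset.univ : Finset (Fin (t + 1)))
    Finset.univ_nonempty (fun i => (a i).natDegree + (k - 1) * (b i).natDegree)
  refine ⟨i₀, ?_, h.symm⟩
  intro h0
  rw [h0, natDegree_zero, mul_zero, add_zero] at h
  have h1 := wB_ge (k := k) (a := a) hb
  unfold wB at h1
  rw [h] at h1
  have h2 := hA i₀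
  have h3 : r ≤ (k - 1) * r := Nat.le_mul_of_pos_left _ (by omega)
  omega

/-- The zeros of maximal degree exactly `P`. -/
noncomputable def SP (k : ℕ) {s : ℕ} (a : Fin s → F[X]) (P : ℕ) : Finset (Fin s → F[X]) :=
  (BP F s P).filter (fun x => ∑ i, a i * x i ^ k = 0)

/-- The good upper parts. -/
noncomputable def Gd (k : ℕ) {s : ℕ} (a : Fin s → F[X]) (r : ℕ) : Finset (Fin s → F[X]) :=
  (BP F s r).filter (fun b => ∑ i, a i * b i ^ k ∈ degreeLT F (wB k a b))

lemma card_SP {k : ℕ} {s : ℕ} (a : Fin s → F[X]) (r n : ℕ) :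
    (SP k a (r + n)).card = ∑ b ∈ BP F s r, Zb k a 0 b n := by
  unfold SP
  rw [split_card]
  apply Finset.sum_congr rfl
  intro b _
  rw [card_TF_filter]
  rfl

/-- Bad upper parts do not contribute. -/
lemma Zb_bad {k : ℕ} (hk : 2 ≤ k) {s r : ℕ} {a b : Fin s → F[X]} (hb : b ∈ BP F s r)
    (hg : b ∉ Gd k a r) (n : ℕ) : Zb k a 0 b n = 0 := by
  unfold Zb
  rw [Finset.card_eq_zero, Finset.filter_eq_empty_iff]
  intro y _ h0
  apply hg
  unfold Gd
  rw [Finset.mem_filter]
  refine ⟨hb, ?_⟩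
  have h1 := diff_mem hk (le_wB k a b) (n := n) (y := fun i => (y i : F[X])) (fun i => (y i).2)
  rw [h0, zero_sub, Submodule.neg_mem_iff] at h1
  exact mem_mul_X.1 h1

/-- The density at infinity. -/
noncomputable def sgi (k : ℕ) {s : ℕ} (a : Fin s → F[X]) (r : ℕ) : ℝ :=
  (∑ b ∈ Gd k a r, ((Fintype.card F : ℝ) ^ (wB k a b))⁻¹) / (Fintype.card F : ℝ) ^ ((s - k) * r)

/-- **The number of zeros of exact height.** -/
theorem tendsto_SP {ψ : AddChar F ℂ} (hψ : ψ ≠ 1) {k : ℕ} (hk : 2 ≤ k)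
    (hch : ∀ i : ℕ, 1 ≤ i → i ≤ k → ((i : ℕ) : F) ≠ 0) (hbig : Big (Fintype.card F) k)
    {t : ℕ} (ht : 2 * k ≤ t) (a : Fin (t + 1) → F[X]) (ha : ∀ i, a i ≠ 0) {r : ℕ}
    (hA : ∀ i, (a i).natDegree < r) :
    Tendsto (fun P => ((SP k a P).card : ℝ) / (Fintype.card F : ℝ) ^ ((t + 1 - k) * P)) atTop
      (𝓝 (sgi k a r * Sr ψ k a 0)) := by
  set q : ℝ := (Fintype.card F : ℝ) with hq
  have hq0 : 0 < q := by rw [hq]; exact_mod_cast Fintype.card_pos
  rw [← tendsto_add_atTop_iff_nat r]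
  have h1 : ∀ n, ((SP k a (n + r)).card : ℝ) / q ^ ((t + 1 - k) * (n + r))
      = ∑ b ∈ BP F (t + 1) r, ((Zb k a 0 b n : ℝ) * q ^ (k * n) / (q ^ n) ^ (t + 1))
        / q ^ ((t + 1 - k) * r) := by
    intro n
    rw [add_comm n r, card_SP, Nat.cast_sum, Finset.sum_div]
    apply Finset.sum_congr rfl
    intro b _
    have e : (q ^ n) ^ (t + 1) = q ^ ((t + 1 - k) * n) * q ^ (k * n) := by
      rw [← pow_mul, ← pow_add]
      congr 1
      obtain ⟨u, hu⟩ : ∃ u, t + 1 = u + k := ⟨t + 1 - k, by omega⟩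
      rw [hu, Nat.add_sub_cancel]; ring
    have e2 : q ^ ((t + 1 - k) * (r + n)) = q ^ ((t + 1 - k) * r) * q ^ ((t + 1 - k) * n) := by
      rw [← pow_add]; congr 1; ring
    rw [e, e2]
    have h3 : q ^ (k * n) ≠ 0 := by positivity
    have h4 : q ^ ((t + 1 - k) * r) ≠ 0 := by positivity
    have h5 : q ^ ((t + 1 - k) * n) ≠ 0 := by positivity
    field_simp
  have h2 : sgi k a r * Sr ψ k a 0 = ∑ b ∈ BP F (t + 1) r,
      (if b ∈ Gd k a r then Sr ψ k a 0 * (q ^ (wB k a b))⁻¹ else 0) / q ^ ((t + 1 - k) * r) := by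
    unfold sgi
    have e : (BP F (t + 1) r).filter (fun b => b ∈ Gd k a r) = Gd k a r := by
      ext b
      rw [Finset.mem_filter]
      constructor
      · exact fun h => h.2
      · intro h
        refine ⟨?_, h⟩
        unfold Gd at h
        exact (Finset.mem_filter.1 h).1
    rw [← Finset.sum_div, ← Finset.sum_filter, e, ← Finset.mul_sum]
    ring
  rw [h2]
  simp only [h1]
  apply tendsto_finsetSum
  intro b hb
  apply Tendsto.div_const
  by_cases hg : b ∈ Gd k a r
  · rw [if_pos hg]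
    obtain ⟨i₀, hb0, hw0⟩ := exists_wB hk hA hb
    set w := wB k a b with hw
    have hgm : ∑ i, a i * b i ^ k ∈ degreeLT F w := by
      unfold Gd at hg
      exact (Finset.mem_filter.1 hg).2
    have h3 : Tendsto (fun n => (Zb k a 0 b n : ℝ) * q ^ (k * n + w) / (q ^ n) ^ (t + 1)) atTop
        (𝓝 (Sr ψ k a 0)) := by
      rw [Metric.tendsto_atTop]
      intro ε hε
      obtain ⟨n₀, hn₀⟩ := cyl hψ hk hch hbig ht a ha b (le_wB k a b) hb0 hw0
        (ε := ε / 2) (by linarith)
      refine ⟨n₀, fun n hn => ?_⟩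
      rw [Real.dist_eq]
      refine lt_of_le_of_lt (hn₀ n hn 0 ?_) (by linarith)
      rw [sub_zero, ← Finset.sum_mul]
      exact mem_mul_X.2 hgm
    have h4 := h3.mul_const ((q ^ w)⁻¹)
    refine h4.congr (fun n => ?_)
    have h5 : q ^ w ≠ 0 := by positivity
    rw [pow_add]
    field_simp
  · rw [if_neg hg]
    have h3 : ∀ n, (Zb k a 0 b n : ℝ) * q ^ (k * n) / (q ^ n) ^ (t + 1) = 0 := by
      intro n
      rw [Zb_bad hk hb hg n]
      simp
    simp only [h3]
    exact tendsto_const_nhds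

/-- **The density at infinity as a limit of counts.** -/
theorem count_inf {k : ℕ} (hk : 2 ≤ k) (hkF : (k : F) ≠ 0)
    {t : ℕ} (ht : 2 * k ≤ t) (a : Fin (t + 1) → F[X]) (ha : ∀ i, a i ≠ 0) {r A : ℕ}
    (hA : ∀ i, (a i).natDegree < r) (hA' : ∀ i, (a i).natDegree ≤ A) :
    ∃ R₀ : ℕ, ∀ R, R₀ ≤ R →
      (((BP F (t + 1) R).filter
        (fun x => ∑ i, a i * x i ^ k ∈ degreeLT F ((k - 1) * R + A))).card : ℝ)
      = sgi k a r * (Fintype.card F : ℝ) ^ (t * R + A) := by
  set q : ℝ := (Fintype.card F : ℝ) with hq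
  have hq0 : 0 < q := by rw [hq]; exact_mod_cast Fintype.card_pos
  refine ⟨r + ((k - 1) * r + A + 1), fun R hR => ?_⟩
  obtain ⟨n, rfl⟩ : ∃ n, R = r + n := ⟨R - r, by omega⟩
  have hkk : k * n = (k - 1) * n + n := by
    obtain ⟨k', rfl⟩ : ∃ k', k = k' + 1 := ⟨k - 1, by omega⟩
    simp only [Nat.add_sub_cancel]
    ring
  rw [split_card, Nat.cast_sum]
  have h2 : sgi k a r * q ^ (t * (r + n) + A) = ∑ b ∈ BP F (t + 1) r,
      (if b ∈ Gd k a r then (q ^ (wB k a b))⁻¹ * q ^ (t * n + (k - 1) * r + A) else 0) := by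
    unfold sgi
    have e : (BP F (t + 1) r).filter (fun b => b ∈ Gd k a r) = Gd k a r := by
      ext b
      rw [Finset.mem_filter]
      constructor
      · exact fun h => h.2
      · intro h
        refine ⟨?_, h⟩
        unfold Gd at h
        exact (Finset.mem_filter.1 h).1
    rw [← Finset.sum_filter, e, ← Finset.sum_mul]
    have e2 : q ^ (t * (r + n) + A) = q ^ ((t + 1 - k) * r) * q ^ (t * n + (k - 1) * r + A) := by
      rw [← pow_add]
      congr 1
      obtain ⟨u, hu⟩ : ∃ u, t + 1 = u + k := ⟨t + 1 - k, by omega⟩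
      have hu' : t = u + (k - 1) := by omega
      rw [hu, Nat.add_sub_cancel, hu']; ring
    rw [e2]
    have h4 : q ^ ((t + 1 - k) * r) ≠ 0 := by positivity
    rw [div_mul_eq_mul_div, div_eq_iff h4]
    ring
  rw [h2]
  apply Finset.sum_congr rfl
  intro b hb
  have hwl := wB_ge (k := k) (a := a) hb
  have hwu := wB_le (k := k) hA' hb
  set w := wB k a b with hw
  by_cases hg : b ∈ Gd k a r
  · rw [if_pos hg]
    obtain ⟨i₀, hb0, hw0⟩ := exists_wB hk hA hb
    have hgm : ∑ i, a i * b i ^ k ∈ degreeLT F w := by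
      unfold Gd at hg
      exact (Finset.mem_filter.1 hg).2
    have H := cyl_hyp (n := n) (m := 0) hk (le_wB k a b) (by omega) (by
      rw [sub_zero, ← Finset.sum_mul]
      exact mem_mul_X.2 hgm)
    have I := cyl_inf (n := n) hk ha hb0 hw0
    obtain ⟨d, hd⟩ : ∃ d, (k - 1) * (r + n) + A = (k - 1) * n + w + d := by
      refine ⟨(k - 1) * r + A - w, ?_⟩
      rw [mul_add]
      omega
    have hdn : d ≤ n := by
      rw [mul_add] at hd
      omega
    have h3 := card_Yd H (by omega) hkF I (n - d) d (by omega)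
    have h4 : ((TF F (t + 1) n).filter (fun y => ∑ i, a i * (b i * X ^ n + y i) ^ k
        ∈ degreeLT F ((k - 1) * (r + n) + A))).card
        = (Yd k a (fun i => b i * X ^ n) 1 (∑ i, a i * (b i * X ^ n) ^ k - 0) (fun _ => n)
          ((k - 1) * n + w + d)).card := by
      rw [card_TF_filter]
      unfold Yd
      congr 1
      apply Finset.filter_congr
      intro y _
      rw [cyl_EE, sub_zero, hd]
    rw [h4]
    set Yc := (Yd k a (fun i => b i * X ^ n) 1 (∑ i, a i * (b i * X ^ n) ^ k - 0) (fun _ => n)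
          ((k - 1) * n + w + d)).card with hYc
    have h5 : (Yc : ℝ) * q ^ (n - d) = q ^ ((t + 1) * n) := by
      have : ((Yc * Fintype.card F ^ (n - d) : ℕ) : ℝ) = (QQ F (fun _ : Fin (t + 1) => n) : ℝ) := by
        exact_mod_cast h3
      rw [QQ, Finset.prod_const, Finset.card_univ, Fintype.card_fin] at this
      push_cast at this
      rw [this, ← pow_mul, mul_comm n]
    have h6 : q ^ (n - d) ≠ 0 := by positivity
    have h7 : (Yc : ℝ) = q ^ ((t + 1) * n) / q ^ (n - d) := by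
      rw [eq_div_iff h6]; exact h5
    rw [h7, div_eq_iff h6, mul_assoc, ← pow_add]
    have h8 : t * n + (k - 1) * r + A + (n - d) = (t + 1) * n + w := by
      rw [mul_add] at hd
      have : (t + 1) * n = t * n + n := by ring
      omega
    rw [h8, pow_add]
    have h9 : q ^ w ≠ 0 := by positivity
    field_simp
  · rw [if_neg hg]
    rw [Nat.cast_eq_zero, Finset.card_eq_zero, Finset.filter_eq_empty_iff]
    intro y hy hmem
    apply hg
    unfold Gd
    rw [Finset.mem_filter]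
    refine ⟨hb, ?_⟩
    have h1 := diff_mem hk (le_wB k a b) (n := n) (y := y) (mem_TF.1 hy)
    have h3 : ∑ i, a i * (b i * X ^ n + y i) ^ k ∈ degreeLT F (k * n + w) := by
      apply V_mono _ hmem
      rw [mul_add]
      omega
    have h4 := Submodule.sub_mem _ h3 h1
    rw [sub_sub_cancel] at h4
    exact mem_mul_X.1 h4

end Pool.Agent.H598.AS
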