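import Pool.Agent.H598.AS.Main

/-!
# The number of all solutions of given height
-/

namespace Pool.Agent.H598.AS

open Finset Polynomial Pool.Agent.H598.FQ
open scoped Classical

variable {F : Type*} [Field F]

lemma dP_le {k W : ℕ} {a : F[X]} (h : a.natDegree ≤ W) :
    k * dP k W a + a.natDegree ≤ W := by
  have := Nat.mul_div_le (W - a.natDegree) k
  unfold dP
  omega

lemma dP_eq {k W : ℕ} {a : F[X]} (h : a.natDegree ≤ W)
    (hc : a.natDegree % k = W % k) : k * dP k W a + a.natDegree = W := by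
  have h4 := Nat.div_add_mod a.natDegree k
  have h5 := Nat.div_add_mod W k
  have h6 : a.natDegree / k ≤ W / k := Nat.div_le_div_right h
  have h7 := Nat.mul_le_mul_left k h6
  have h8 : W - a.natDegree = k * (W / k - a.natDegree / k) := by
    rw [Nat.mul_sub]
    omega
  have h3 : (W - a.natDegree) % k = 0 := by
    rw [h8]
    exact Nat.mul_mod_right _ _
  have h9 := Nat.div_add_mod (W - a.natDegree) k
  rw [h3, add_zero] at h9
  unfold dP
  omega

/-- The coefficient of degree `W`. -/
lemma coeff_W {k W : ℕ} {a x : F[X]} (h : a.natDegree ≤ W)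
    (hx : x.natDegree ≤ dP k W a) :
    (a * x ^ k).coeff W = if a.natDegree % k = W % k then
      a.leadingCoeff * x.coeff (dP k W a) ^ k else 0 := by
  have h3 : (x ^ k).natDegree ≤ k * dP k W a :=
    le_trans natDegree_pow_le (Nat.mul_le_mul_left _ hx)
  by_cases hc : a.natDegree % k = W % k
  · rw [if_pos hc]
    conv_lhs => rw [← dP_eq h hc]
    rw [add_comm, coeff_mul_add_eq_of_natDegree_le le_rfl h3, coeff_pow_of_natDegree_le hx]
    rfl
  · rw [if_neg hc]
    apply coeff_eq_zero_of_natDegree_lt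
    refine lt_of_le_of_lt natDegree_mul_le ?_
    have h4 := dP_le (k := k) h
    have h5 : k * dP k W a + a.natDegree ≠ W := by
      intro heq
      apply hc
      have h6 : (k * dP k W a + a.natDegree) % k = W % k := by rw [heq]
      rwa [Nat.mul_add_mod] at h6
    omega

section
variable [Fintype F]

/-- The leading coefficients of the solutions of height exactly `W`. -/
noncomputable def Lc (k : ℕ) {s : ℕ} (a : Fin s → F[X]) (W : ℕ) (v : F) : Finset (Fin s → F) :=
  Finset.univ.filter (fun c => (∃ i, c i ≠ 0 ∧ (a i).natDegree % k = W % k) ∧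
    ∑ i, (if (a i).natDegree % k = W % k then (a i).leadingCoeff * c i ^ k else 0) = v)

/-- The solutions of height exactly `W`. -/
noncomputable def Sol (k : ℕ) {s : ℕ} (a : Fin s → F[X]) (m : F[X]) (W : ℕ) :
    Finset (∀ i, degreeLT F (dP k W (a i) + 1)) :=
  Finset.univ.filter (fun x => (∃ i, (x i : F[X]).coeff (dP k W (a i)) ≠ 0 ∧
    (a i).natDegree % k = W % k) ∧ ∑ i, a i * (x i : F[X]) ^ k = m)

lemma card_Sol {k : ℕ} {s : ℕ} {a : Fin s → F[X]} {m : F[X]} {W : ℕ}
    (hW : ∀ i, (a i).natDegree ≤ W) :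
    (Sol k a m W).card = ∑ c ∈ Lc k a W (m.coeff W), ZW k a m W c := by
  rw [Finset.card_eq_sum_card_fiberwise (f := fun x : (∀ i, degreeLT F (dP k W (a i) + 1)) =>
    (fun i => (x i : F[X]).coeff (dP k W (a i)))) (t := Lc k a W (m.coeff W))]
  · apply Finset.sum_congr rfl
    intro c hc
    rw [Lc, Finset.mem_filter] at hc
    have hmem : ∀ x ∈ (Sol k a m W).filter (fun x : (∀ i, degreeLT F (dP k W (a i) + 1)) =>
        (fun i => (x i : F[X]).coeff (dP k W (a i))) = c), ∀ i,
        (x i : F[X]) - C (c i) * X ^ (dP k W (a i)) ∈ degreeLT F (dP k W (a i)) := by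
      intro x hx i
      rw [Finset.mem_filter] at hx
      apply mem_V_of_succ
      · apply Submodule.sub_mem _ (x i).2
        rw [mem_V_succ_iff]
        exact natDegree_C_mul_X_pow_le _ _
      · rw [coeff_sub, coeff_C_mul_X_pow, if_pos rfl, congrFun hx.2 i, sub_self]
    unfold ZW
    apply Finset.card_bij (fun x hx => fun i => ⟨_, hmem x hx i⟩)
    · intro x hx
      rw [Finset.mem_filter]
      refine ⟨Finset.mem_univ _, ?_⟩
      rw [Finset.mem_filter, Sol, Finset.mem_filter] at hx
      conv_rhs => rw [← hx.1.2.2]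
      apply Finset.sum_congr rfl
      intro i _
      simp only [add_sub_cancel]
    · intro x hx x' hx' h
      funext i
      apply Subtype.ext
      have h1 := congrArg Subtype.val (congrFun h i)
      simp only at h1
      exact sub_left_injective h1
    · intro y hy
      rw [Finset.mem_filter] at hy
      have hmem' : ∀ i, C (c i) * X ^ (dP k W (a i)) + (y i : F[X])
          ∈ degreeLT F (dP k W (a i) + 1) := by
        intro i
        apply Submodule.add_mem
        · rw [mem_V_succ_iff]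
          exact natDegree_C_mul_X_pow_le _ _
        · exact V_mono (Nat.le_succ _) (y i).2
      have hco : ∀ i, (C (c i) * X ^ (dP k W (a i)) + (y i : F[X])).coeff (dP k W (a i)) = c i := by
        intro i
        rw [coeff_add, coeff_C_mul_X_pow, if_pos rfl, mem_V_iff.1 (y i).2 _ le_rfl, add_zero]
      refine ⟨fun i => ⟨_, hmem' i⟩, ?_, ?_⟩
      · rw [Finset.mem_filter, Sol, Finset.mem_filter]
        refine ⟨⟨Finset.mem_univ _, ?_, hy.2⟩, ?_⟩
        · obtain ⟨i, hi, hi2⟩ := hc.2.1
          refine ⟨i, ?_, hi2⟩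
          simp only
          rw [hco]
          exact hi
        · funext i
          exact hco i
      · funext i
        apply Subtype.ext
        simp
  · intro x hx
    rw [Finset.mem_coe, Sol, Finset.mem_filter] at hx
    rw [Finset.mem_coe, Lc, Finset.mem_filter]
    refine ⟨Finset.mem_univ _, hx.2.1, ?_⟩
    conv_rhs => rw [← hx.2.2, finsetSum_coeff]
    apply Finset.sum_congr rfl
    intro i _
    rw [coeff_W (hW i) (mem_V_succ_iff.1 (x i).2)]

/-- **The asymptotic formula for all solutions of height `W`.** -/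
theorem total {ψ : AddChar F ℂ} (hψ : ψ ≠ 1) {k : ℕ} (hk : 2 ≤ k)
    (hch : ∀ i : ℕ, 1 ≤ i → i ≤ k → ((i : ℕ) : F) ≠ 0) (hbig : Big (Fintype.card F) k)
    {t : ℕ} (ht : 2 * k ≤ t) (a : Fin (t + 1) → F[X]) (ha : ∀ i, a i ≠ 0) {ε : ℝ} (hε : 0 < ε) :
    ∃ W₀ : ℕ, ∀ W, W₀ ≤ W → ∀ m ∈ degreeLT F (W + 1),
      |((Sol k a m W).card : ℝ) * (Fintype.card F : ℝ) ^ W
        / ∏ i, (Fintype.card F : ℝ) ^ (dP k W (a i))
        - ((Lc k a W (m.coeff W)).card : ℝ) * Sr ψ k a m|
        ≤ ((Lc k a W (m.coeff W)).card : ℝ) * ε := by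
  obtain ⟨W₀, hW₀⟩ := asymp hψ hk hch hbig ht a ha hε
  refine ⟨W₀ + ∑ i, (a i).natDegree, fun W hW m hm => ?_⟩
  have hdi : ∀ i, (a i).natDegree ≤ W := by
    intro i
    have := Finset.single_le_sum (f := fun i => (a i).natDegree) (fun _ _ => Nat.zero_le _)
      (Finset.mem_univ i)
    omega
  rw [card_Sol hdi, Nat.cast_sum, Finset.sum_mul, Finset.sum_div]
  have h1 : ((Lc k a W (m.coeff W)).card : ℝ) * Sr ψ k a m
      = ∑ _c ∈ Lc k a W (m.coeff W), Sr ψ k a m := by rw [Finset.sum_const, nsmul_eq_mul]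
  rw [h1, ← Finset.sum_sub_distrib]
  refine le_trans (Finset.abs_sum_le_sum_abs _ _) ?_
  rw [← nsmul_eq_mul, ← Finset.sum_const]
  apply Finset.sum_le_sum
  intro c hc
  rw [Lc, Finset.mem_filter] at hc
  exact hW₀ W (by omega) m hm c hc.2.1 hc.2.2

end

end Pool.Agent.H598.AS
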