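import Pool.Agent.H598.AS.Main

/-!
# The asymptotic formula in a cylinder at infinity
-/

namespace Pool.Agent.H598.AS

open Finset Polynomial Pool.Agent.H598.FQ
open Pool.Agent.H598.DG (Kn ism mis DN MN sum_splitN sum_all GG GG_mul GG_sub_mem exists_T)
open Pool.Agent.H598.TK (EE Hyp QQ Inf)
open scoped Classical

variable {F : Type*} [Field F]

section
variable [Fintype F]

/-- The number of solutions whose upper parts are given by `b`. -/
noncomputable def Zb (k : ℕ) {s : ℕ} (a : Fin s → F[X]) (m : F[X]) (b : Fin s → F[X]) (n : ℕ) : ℕ :=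
  (Finset.univ.filter (fun y : (Fin s → degreeLT F n) =>
    ∑ i, a i * (b i * X ^ n + (y i : F[X])) ^ k = m)).card

omit [Fintype F] in
/-- The parameters of the circle method for a cylinder. -/
lemma cyl_hyp {k : ℕ} (hk : 2 ≤ k) {s : ℕ} {a b : Fin s → F[X]} {w n : ℕ}
    (hw : ∀ i, (a i).natDegree + (k - 1) * (b i).natDegree ≤ w) (hn : 1 ≤ n) {m : F[X]}
    (hm : ∑ i, a i * b i ^ k * X ^ (k * n) - m ∈ degreeLT F (k * n + w)) :
    Hyp k a (fun i => b i * X ^ n) 1 (∑ i, a i * (b i * X ^ n) ^ k - m) (fun _ => n)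
      (fun i => n + (b i).natDegree) (k * n + w) ((k - 1) * n + w) n := by
  have hkk : k * n = (k - 1) * n + n := by
    obtain ⟨k', rfl⟩ : ∃ k', k = k' + 1 := ⟨k - 1, by omega⟩
    simp only [Nat.add_sub_cancel]
    ring
  have hx : ∀ i, ∀ y ∈ degreeLT F n, (b i * X ^ n + 1 * y).natDegree ≤ n + (b i).natDegree := by
    intro i y hy
    rw [one_mul]
    apply natDegree_add_le_of_degree_le
    · refine le_trans natDegree_mul_le ?_
      rw [natDegree_X_pow, add_comm]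
    · refine le_trans (mem_V_succ_iff.1 (V_mono (Nat.le_succ _) hy)) (Nat.le_add_right _ _)
  have hA : ∀ i, (a i).natDegree + (k - 1) * (n + (b i).natDegree) ≤ (k - 1) * n + w := by
    intro i
    have := hw i
    rw [mul_add]
    omega
  refine ⟨one_ne_zero, ?_, by omega, fun _ => le_rfl, hx, hA, ?_⟩
  · have : 1 ≤ (k - 1) * n := Nat.mul_pos (by omega) (by omega)
    omega
  · intro y
    unfold EE
    have h1 : ∑ i, a i * (b i * X ^ n) ^ k - m ∈ degreeLT F (k * n + w) := by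
      have e : ∑ i, a i * (b i * X ^ n) ^ k = ∑ i, a i * b i ^ k * X ^ (k * n) := by
        apply Finset.sum_congr rfl
        intro i _
        rw [mul_pow, ← pow_mul, mul_comm n k]
        ring
      rw [e]
      exact hm
    refine Submodule.add_mem _ (Submodule.sum_mem _ (fun i _ => ?_)) h1
    have h0 : (0 : F[X]) ∈ degreeLT F n := Submodule.zero_mem _
    have h2 := GG_sub_mem (k := k) (a := a i) (b := b i * X ^ n) (one_ne_zero (α := F[X]))
      (le_refl (a i).natDegree) (hx i _ (y i).2) (hx i _ h0) (d := n)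
      (by rw [sub_zero]; exact (y i).2)
    have h3 : GG k (a i) (b i * X ^ n) 1 0 = 0 := by unfold GG; ring
    rw [h3, sub_zero] at h2
    apply V_mono _ h2
    have := hA i
    omega

omit [Fintype F] in
lemma cyl_EE {k s : ℕ} (a b : Fin s → F[X]) (m : F[X]) (n : ℕ) (y : Fin s → degreeLT F n) :
    EE k a (fun i => b i * X ^ n) 1 (∑ i, a i * (b i * X ^ n) ^ k - m) (fun _ => n) y
      = ∑ i, a i * (b i * X ^ n + (y i : F[X])) ^ k - m := by
  unfold EE
  have h1 : ∀ i, GG k (a i) (b i * X ^ n) 1 (y i : F[X])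
      = a i * (b i * X ^ n + (y i : F[X])) ^ k - a i * (b i * X ^ n) ^ k := by
    intro i
    have := GG_mul k (a i) (b i * X ^ n) 1 (y i : F[X])
    rw [one_mul, one_mul] at this
    rw [this]; ring
  rw [Finset.sum_congr rfl (fun i _ => h1 i), Finset.sum_sub_distrib]
  ring

omit [Fintype F] in
lemma cyl_inf {k : ℕ} (hk : 2 ≤ k) {s : ℕ} {a b : Fin s → F[X]} {w n : ℕ} (ha : ∀ i, a i ≠ 0)
    {i₀ : Fin s} (hb : b i₀ ≠ 0)
    (hw0 : (a i₀).natDegree + (k - 1) * (b i₀).natDegree = w) :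
    Inf k a (fun i => b i * X ^ n) 1 (fun _ => n) (fun i => n + (b i).natDegree) (k * n + w) i₀
      (b i₀).leadingCoeff := by
  have hkk : k * n = (k - 1) * n + n := by
    obtain ⟨k', rfl⟩ : ∃ k', k = k' + 1 := ⟨k - 1, by omega⟩
    simp only [Nat.add_sub_cancel]
    ring
  refine ⟨ha i₀, leadingCoeff_ne_zero.2 hb, ?_, ?_⟩
  · intro y hy
    rw [one_mul, coeff_add, mem_V_iff.1 hy _ (Nat.le_add_right _ _), add_zero, add_comm n,
      coeff_mul_X_pow]
    rfl
  · rw [mul_add]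
    omega

/-- **The asymptotic formula in a cylinder at infinity.** -/
theorem cyl {ψ : AddChar F ℂ} (hψ : ψ ≠ 1) {k : ℕ} (hk : 2 ≤ k)
    (hch : ∀ i : ℕ, 1 ≤ i → i ≤ k → ((i : ℕ) : F) ≠ 0) (hbig : Big (Fintype.card F) k)
    {t : ℕ} (ht : 2 * k ≤ t) (a : Fin (t + 1) → F[X]) (ha : ∀ i, a i ≠ 0)
    (b : Fin (t + 1) → F[X]) {w : ℕ}
    (hw : ∀ i, (a i).natDegree + (k - 1) * (b i).natDegree ≤ w) {i₀ : Fin (t + 1)}
    (hb : b i₀ ≠ 0) (hw0 : (a i₀).natDegree + (k - 1) * (b i₀).natDegree = w)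
    {ε : ℝ} (hε : 0 < ε) :
    ∃ n₀ : ℕ, ∀ n, n₀ ≤ n → ∀ m : F[X],
      ∑ i, a i * b i ^ k * X ^ (k * n) - m ∈ degreeLT F (k * n + w) →
      |(Zb k a m b n : ℝ) * (Fintype.card F : ℝ) ^ (k * n + w)
        / ((Fintype.card F : ℝ) ^ n) ^ (t + 1) - Sr ψ k a m| ≤ ε := by
  set Q := Fintype.card F with hQ
  have hQ2 : 2 ≤ Q := Fintype.one_lt_card
  set Sb := ∑ i, (b i).natDegree with hSb
  have hbi : ∀ i, (b i).natDegree ≤ Sb := fun i =>
    Finset.single_le_sum (f := fun i => (b i).natDegree) (fun _ _ => Nat.zero_le _)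
      (Finset.mem_univ i)
  obtain ⟨J, hJ⟩ := exists_nat_gt (2 / ε)
  have hJ0 : 0 < J := by
    have : (0 : ℝ) < 2 / ε := by positivity
    have h2 : (0 : ℝ) < J := lt_trans this hJ
    exact_mod_cast h2
  have hJ1 : (1 : ℝ) / J ≤ ε / 2 := by
    have h2 : (0 : ℝ) < J := by exact_mod_cast hJ0
    rw [div_le_div_iff₀ h2 (by norm_num)]
    rw [div_lt_iff₀ hε] at hJ
    linarith
  -- the tail of the singular series
  obtain ⟨R₁, hR₁⟩ : ∃ R₁ : ℕ, ∀ R, R₁ ≤ R → Ca F a / (15 * 16 ^ R) ≤ ε / 2 := by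
    obtain ⟨R₁, h1⟩ := exists_nat_gt (Ca F a / ε)
    refine ⟨R₁, fun R hR => ?_⟩
    have h2 : (R : ℝ) ≤ 16 ^ R := by
      have : R ≤ 16 ^ R := (Nat.lt_pow_self (by norm_num)).le
      exact_mod_cast this
    have h3 : (R₁ : ℝ) ≤ R := by exact_mod_cast hR
    rw [div_lt_iff₀ hε] at h1
    rw [div_le_div_iff₀ (by positivity) (by norm_num)]
    have h4 : (R₁ : ℝ) * ε ≤ 16 ^ R * ε := mul_le_mul_of_nonneg_right (by linarith) hε.le
    nlinarith
  set e := w + k * Sb + 2 * k with he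
  set κ := (a 0).natDegree + w + k with hκ
  obtain ⟨T₀, hT₀⟩ := exists_T (q := Q) hk hbig (e + J) κ Sb
  refine ⟨T₀ + R₁ + (a 0).natDegree + 5, fun n hn m hm => ?_⟩
  have hbigT := hT₀ (n + Sb) (by omega)
  have hkk : ∀ u, k * u = (k - 1) * u + u := by
    intro u
    obtain ⟨k', hk'⟩ : ∃ k', k = k' + 1 := ⟨k - 1, by omega⟩
    rw [hk']
    simp only [Nat.add_sub_cancel]
    ring
  set c0 : F[X] := ∑ i, a i * (b i * X ^ n) ^ k - m with hc0
  have H : Hyp k a (fun i => b i * X ^ n) 1 c0 (fun _ => n)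
      (fun i => n + (b i).natDegree) (k * n + w) ((k - 1) * n + w) n :=
    cyl_hyp hk hw (by omega) hm
  have I := cyl_inf (n := n) hk ha hb hw0
  have hkF : (k : F) ≠ 0 := hch k (by omega) le_rfl
  -- the decomposition
  have h1 := sum_all hψ (EE k a (fun i => b i * X ^ n) 1 c0 (fun _ => n)) H.hE
  rw [sum_splitN (k * n + w) ((k - 1) * n + w) n] at h1
  have h2 : ∀ d ∈ Finset.range (n + 1), ∑ α ∈ DN F (k * n + w) ((k - 1) * n + w) d,
      ∑ y, ψ (lin α (EE k a (fun i => b i * X ^ n) 1 c0 (fun _ => n) y))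
      = (QQ F (fun _ : Fin (t + 1) => n) : ℂ) * Ad ψ k a m d := by
    intro d hd
    have hd' := Finset.mem_range.1 hd
    refine level_exact hψ H hc0 (by omega) hkF I (by omega) ?_
    have : n ≤ (k - 1) * n := Nat.le_mul_of_pos_left _ (by omega)
    omega
  rw [Finset.sum_congr rfl h2, ← Finset.mul_sum] at h1
  set S2 := ∑ α ∈ MN F (k * n + w) ((k - 1) * n + w) n,
    ∑ y, ψ (lin α (EE k a (fun i => b i * X ^ n) 1 c0 (fun _ => n) y)) with hS2
  have h3 : ‖S2‖ ≤ (QQ F (fun _ : Fin (t + 1) => n) : ℝ) / J := by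
    apply minor_small (κ := κ) (e := e) (Pm := n + Sb) hψ hk hch ht ha c0 hJ0 H.hx
    · intro i
      have h4 := hw i
      have h5 := hkk n
      rw [mul_add]
      omega
    · intro i
      have := hbi i
      omega
    · intro i
      have h4 := hbi i
      have h5 : k * (b i).natDegree ≤ k * Sb := Nat.mul_le_mul_left _ h4
      have h6 : 2 * k * (n + (b i).natDegree + 1)
          = 2 * (k * n) + 2 * (k * (b i).natDegree) + 2 * k := by ring
      have h7 : 2 * k * n = 2 * (k * n) := by ring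
      have h8 : k * (n + (b i).natDegree) = k * n + k * (b i).natDegree := by ring
      omega
    · omega
    · have h5 : (k - 1) * (n - 1) + 1 ≤ (k - 1) * n := by
        obtain ⟨n', rfl⟩ : ∃ n', n = n' + 1 := ⟨n - 1, by omega⟩
        rw [Nat.add_sub_cancel, mul_add]
        omega
      omega
    · omega
    · have h5 : (k - 1) * n ≤ (k - 1) * (n - 1) + (k - 1) := by
        obtain ⟨n', rfl⟩ : ∃ n', n = n' + 1 := ⟨n - 1, by omega⟩
        rw [Nat.add_sub_cancel, mul_add]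
        omega
      omega
    · refine le_trans (Nat.mul_le_mul_left _ (Nat.pow_le_pow_left ?_ _))
        (hbigT n (Nat.le_add_right _ _) le_rfl)
      rw [pow_add Q e J]
      have h4 : J ≤ Q ^ J := (Nat.lt_pow_self (by omega)).le
      calc J * (Q ^ e * (2 * k) ^ (k * (n + Sb) + 1))
          ≤ Q ^ J * (Q ^ e * (2 * k) ^ (k * (n + Sb) + 1)) :=
            Nat.mul_le_mul_right _ h4
        _ = 1 * (Q ^ e * Q ^ J * (2 * k) ^ (k * (n + Sb) + 1)) := by ring
        _ ≤ 4 * (Q ^ e * Q ^ J * (2 * k) ^ (k * (n + Sb) + 1)) :=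
            Nat.mul_le_mul_right _ (by norm_num)
        _ = 4 * (Q ^ e * Q ^ J) * (2 * k) ^ (k * (n + Sb) + 1) := by ring
  have h4 := tail_SSer hψ hk hch hbig (show 2 * k + 1 ≤ t + 1 by omega) ha m n
  have hR1 := hR₁ n (by omega)
  -- the final comparison
  have hQQ : (QQ F (fun _ : Fin (t + 1) => n) : ℝ) = ((Q : ℝ) ^ n) ^ (t + 1) := by
    unfold QQ
    rw [Finset.prod_const, Finset.card_univ, Fintype.card_fin]
    push_cast
    rfl
  have hQQ0 : (0 : ℝ) < (QQ F (fun _ : Fin (t + 1) => n) : ℝ) := by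
    rw [hQQ]
    have : (0 : ℝ) < (Q : ℝ) := by exact_mod_cast (show 0 < Q by omega)
    positivity
  have hQQc : (QQ F (fun _ : Fin (t + 1) => n) : ℂ) ≠ 0 := by
    have : (QQ F (fun _ : Fin (t + 1) => n) : ℝ) ≠ 0 := hQQ0.ne'
    exact_mod_cast this
  have hZ : (Finset.univ.filter
      (fun y => EE k a (fun i => b i * X ^ n) 1 c0 (fun _ => n) y = 0)).card
      = Zb k a m b n := by
    unfold Zb
    congr 1
    apply Finset.filter_congr
    intro y _
    rw [cyl_EE, sub_eq_zero]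
  rw [hZ] at h1
  have h5 : (((Zb k a m b n : ℝ) * (Q : ℝ) ^ (k * n + w)
      / (QQ F (fun _ : Fin (t + 1) => n) : ℝ) - Sr ψ k a m : ℝ))
      = ((Zb k a m b n : ℂ) * (Q : ℂ) ^ (k * n + w)
        / (QQ F (fun _ : Fin (t + 1) => n) : ℂ) - SSer ψ k a m).re := by
    rw [Complex.sub_re]
    unfold Sr
    congr 1
    have : ((Zb k a m b n : ℂ) * (Q : ℂ) ^ (k * n + w)
        / (QQ F (fun _ : Fin (t + 1) => n) : ℂ))
        = (((Zb k a m b n : ℝ) * (Q : ℝ) ^ (k * n + w)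
        / (QQ F (fun _ : Fin (t + 1) => n) : ℝ) : ℝ) : ℂ) := by
      push_cast; rfl
    rw [this, Complex.ofReal_re]
  rw [← hQQ, h5]
  refine le_trans (Complex.abs_re_le_norm _) ?_
  have h6 : (Zb k a m b n : ℂ) * (Q : ℂ) ^ (k * n + w)
      / (QQ F (fun _ : Fin (t + 1) => n) : ℂ) - SSer ψ k a m
      = -(SSer ψ k a m - ∑ d ∈ Finset.range (n + 1), Ad ψ k a m d)
        + S2 / (QQ F (fun _ : Fin (t + 1) => n) : ℂ) := by
    have h7 : (Zb k a m b n : ℂ) * (Q : ℂ) ^ (k * n + w)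
        = (QQ F (fun _ : Fin (t + 1) => n) : ℂ)
          * ∑ d ∈ Finset.range (n + 1), Ad ψ k a m d + S2 := by
      rw [h1]; ring
    rw [h7, add_div, mul_div_cancel_left₀ _ hQQc]
    ring
  rw [h6]
  refine le_trans (norm_add_le _ _) ?_
  rw [norm_neg, norm_div, Complex.norm_natCast]
  have h8 : ‖S2‖ / (QQ F (fun _ : Fin (t + 1) => n) : ℝ) ≤ 1 / J := by
    rw [div_le_iff₀ hQQ0]
    refine le_trans h3 (le_of_eq ?_)
    ring
  linarith

end

end Pool.Agent.H598.AS
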