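import Pool.Agent.H598.AS.Pairs
import Pool.Agent.H598.DG.Main

/-!
# Local densities and the singular series
-/

namespace Pool.Agent.H598.AS

open Finset Polynomial Pool.Agent.H598.FQ
open Pool.Agent.H598.DG (Kn ism mis DN MN mem_DN mem_MN redN gk gk_spec lin_vec dvd_sub_mod
  mod_eq_of_dvd mul_mem_VN amgm GG)
open Pool.Agent.H598.TK (wp wp_monic wp_natDegree wp_inj exists_wp)
open scoped Classical

variable {F : Type*} [Field F] [Fintype F]

/-- The exponential sum over the polynomials of degree less than `n`. -/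
noncomputable def Sd (ψ : AddChar F ℂ) (L : F[X] →ₗ[F] F) (k : ℕ) (a : F[X]) (n : ℕ) : ℂ :=
  ∑ v : degreeLT F n, ψ (L (a * (v : F[X]) ^ k))

lemma Sd_le (ψ : AddChar F ℂ) (L : F[X] →ₗ[F] F) (k : ℕ) (a : F[X]) (n : ℕ) :
    ‖Sd ψ L k a n‖ ≤ (Fintype.card F : ℝ) ^ n := by
  unfold Sd
  refine le_trans (norm_sum_le _ _) ?_
  rw [Finset.sum_congr rfl (fun y _ => AddChar.norm_apply ψ _), Finset.sum_const,
    Finset.card_univ, card_V, nsmul_eq_mul, mul_one]
  push_cast
  rfl

/-- Sums of functions of the residue class. -/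
lemma sum_res {g : F[X]} {d : ℕ} (hg : g.Monic) (hd : g.natDegree = d) (e : ℕ) (f : F[X] → ℂ)
    (hf : ∀ y y', g ∣ y - y' → f y = f y') :
    ∑ z : degreeLT F (d + e), f z = (Fintype.card F : ℂ) ^ e * ∑ v : degreeLT F d, f v := by
  have hmem : ∀ (v : degreeLT F d) (z : degreeLT F e),
      (v : F[X]) + g * (z : F[X]) ∈ degreeLT F (d + e) := by
    intro v z
    apply Submodule.add_mem
    · exact V_mono (by omega) v.2
    · have := mul_mem_VN (le_refl g.natDegree) z.2
      rwa [hd, add_comm] at this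
  let φ : degreeLT F d × degreeLT F e → degreeLT F (d + e) :=
    fun vz => ⟨(vz.1 : F[X]) + g * (vz.2 : F[X]), hmem vz.1 vz.2⟩
  have hinj : Function.Injective φ := by
    rintro ⟨v, z⟩ ⟨v', z'⟩ h
    have h2 : (v : F[X]) + g * (z : F[X]) = (v' : F[X]) + g * (z' : F[X]) :=
      congrArg Subtype.val h
    have h3 : (v : F[X]) = (v' : F[X]) := by
      rw [← mod_eq_self hg hd v.2, ← mod_eq_self hg hd v'.2]
      apply mod_eq_of_dvd hg
      exact ⟨(z' : F[X]) - (z : F[X]), by linear_combination h2⟩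
    have h4 : (z : F[X]) = (z' : F[X]) := by
      rw [h3] at h2
      exact mul_left_cancel₀ hg.ne_zero (add_left_cancel h2)
    exact Prod.ext (Subtype.ext h3) (Subtype.ext h4)
  have hbij : Function.Bijective φ := by
    rw [Fintype.bijective_iff_injective_and_card]
    refine ⟨hinj, ?_⟩
    rw [Fintype.card_prod, card_V, card_V, card_V, pow_add]
  rw [← hbij.sum_comp (fun z : degreeLT F (d + e) => f z), Fintype.sum_prod_type]
  have h5 : ∀ v : degreeLT F d, ∑ z : degreeLT F e, f (φ (v, z) : F[X])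
      = (Fintype.card F : ℂ) ^ e * f v := by
    intro v
    have h6 : ∀ z : degreeLT F e, f (φ (v, z) : F[X]) = f v := by
      intro z
      apply hf
      refine ⟨(z : F[X]), ?_⟩
      change (v : F[X]) + g * (z : F[X]) - v = g * z
      ring
    rw [Finset.sum_congr rfl (fun z _ => h6 z), Finset.sum_const, Finset.card_univ, card_V,
      nsmul_eq_mul]
    push_cast
    rfl
  rw [Finset.sum_congr rfl (fun v _ => h5 v), Finset.mul_sum]

lemma Sd_split (ψ : AddChar F ℂ) {L : F[X] →ₗ[F] F} {g : F[X]} {d : ℕ} (hg : g.Monic)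
    (hd : g.natDegree = d) (hL : ∀ w, L (g * w) = 0) (k : ℕ) (a : F[X]) (e : ℕ) :
    Sd ψ L k a (d + e) = (Fintype.card F : ℂ) ^ e * Sd ψ L k a d := by
  unfold Sd
  apply sum_res hg hd e (fun y => ψ (L (a * y ^ k)))
  intro y y' h
  have h1 : g ∣ a * y ^ k - a * y' ^ k := by
    rw [← mul_sub]
    exact Dvd.dvd.mul_left (dvd_trans h (sub_dvd_pow_sub_pow _ _ _)) _
  obtain ⟨w, hw⟩ := h1
  have h2 : L (a * y ^ k) - L (a * y' ^ k) = 0 := by rw [← map_sub, hw, hL]
  change ψ (L (a * y ^ k)) = ψ (L (a * y' ^ k))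
  rw [sub_eq_zero.1 h2]

/-- The sum over all tuples. -/
lemma sum_tuple (ψ : AddChar F ℂ) (L : F[X] →ₗ[F] F) (k : ℕ) {s : ℕ} (a : Fin s → F[X])
    (m : F[X]) (D : ℕ) :
    ∑ z : Fin s → degreeLT F D, ψ (L (∑ i, a i * (z i : F[X]) ^ k - m))
      = ψ (-(L m)) * ∏ i, Sd ψ L k (a i) D := by
  unfold Sd
  rw [sum_prod_eq (fun i (v : degreeLT F D) => ψ (L (a i * (v : F[X]) ^ k))), Finset.mul_sum]
  apply Finset.sum_congr rfl
  intro z _
  have e1 : ∏ i, ψ (L (a i * (z i : F[X]) ^ k)) = ψ (L (∑ i, a i * (z i : F[X]) ^ k)) := by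
    rw [map_sum, char_sum]
  rw [e1, ← AddChar.map_add_eq_mul, map_sub]
  congr 1
  ring

/-- The term of the singular series. -/
noncomputable def tau (ψ : AddChar F ℂ) (k : ℕ) {s : ℕ} (a : Fin s → F[X]) (m : F[X]) {d : ℕ}
    (p : Pr F d) : ℂ :=
  ψ (-(Lp p m)) * ∏ i, (Sd ψ (Lp p) k (a i) d / (Fintype.card F : ℂ) ^ d)

/-- The number of solutions modulo `G`. -/
noncomputable def NG (k : ℕ) {s : ℕ} (a : Fin s → F[X]) (m G : F[X]) : ℕ :=
  (Finset.univ.filter (fun z : Fin s → degreeLT F G.natDegree =>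
    G ∣ ∑ i, a i * (z i : F[X]) ^ k - m)).card

/-- The local densities as partial sums of the singular series. -/
theorem dens_formula {ψ : AddChar F ℂ} (hψ : ψ ≠ 1) (k : ℕ) {s : ℕ} (a : Fin s → F[X])
    (m : F[X]) {G : F[X]} (hG : G.Monic) :
    (NG k a m G : ℂ) * (Fintype.card F : ℂ) ^ G.natDegree
        / ((Fintype.card F : ℂ) ^ G.natDegree) ^ s
      = ∑ d ∈ Finset.range (G.natDegree + 1), ∑ p ∈ (Pm F d).filter (fun p => wp p.1 ∣ G),
        tau ψ k a m p := by
  set D := G.natDegree with hD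
  set q : ℂ := (Fintype.card F : ℂ) with hq
  have hq0 : q ≠ 0 := by
    rw [hq]; exact_mod_cast Fintype.card_ne_zero
  have h1 : (NG k a m G : ℂ) * q ^ D
      = ∑ γ : Fin D → F, ∑ z : Fin s → degreeLT F D,
        ψ (((lin γ).comp (modByMonicHom G)) (∑ i, a i * (z i : F[X]) ^ k - m)) := by
    rw [Finset.sum_comm]
    have h2 : ∀ z : Fin s → degreeLT F D, ∑ γ : Fin D → F,
        ψ (((lin γ).comp (modByMonicHom G)) (∑ i, a i * (z i : F[X]) ^ k - m))
        = if G ∣ ∑ i, a i * (z i : F[X]) ^ k - m then q ^ D else 0 := by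
      intro z
      have h3 := sum_lin hψ (mod_mem hG hD.symm (∑ i, a i * (z i : F[X]) ^ k - m))
      by_cases hz : G ∣ ∑ i, a i * (z i : F[X]) ^ k - m
      · rw [if_pos hz]
        rw [if_pos ((modByMonic_eq_zero_iff_dvd hG).2 hz)] at h3
        exact h3
      · rw [if_neg hz]
        rw [if_neg (fun h => hz ((modByMonic_eq_zero_iff_dvd hG).1 h))] at h3
        exact h3
    rw [Finset.sum_congr rfl (fun z _ => h2 z), ← Finset.sum_filter, Finset.sum_const,
      nsmul_eq_mul]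
    rfl
  rw [h1, sum_G hG hD.symm (fun L => ∑ z : Fin s → degreeLT F D,
    ψ (L (∑ i, a i * (z i : F[X]) ^ k - m))), Finset.sum_div]
  apply Finset.sum_congr rfl
  intro d hd
  rw [Finset.sum_div]
  apply Finset.sum_congr rfl
  intro p _
  obtain ⟨e, he⟩ : ∃ e, D = d + e := ⟨D - d, by have := Finset.mem_range.1 hd; omega⟩
  rw [sum_tuple, he]
  unfold tau
  rw [mul_div_assoc]
  congr 1
  rw [Finset.prod_congr rfl (fun i _ => Sd_split ψ (wp_monic p.1) (wp_natDegree p.1)
    (fun w => Lp_kill p w) k (a i) e), Finset.prod_mul_distrib, Finset.prod_div_distrib,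
    Finset.prod_const, Finset.prod_const, Finset.card_univ, Fintype.card_fin, ← hq, pow_add,
    mul_pow]
  field_simp

/-- The normalised complete sum. -/
noncomputable def sig (ψ : AddChar F ℂ) (k : ℕ) (a : F[X]) {d : ℕ} (p : Pr F d) : ℝ :=
  ‖Sd ψ (Lp p) k a d‖ / (Fintype.card F : ℝ) ^ d

lemma sig_nonneg (ψ : AddChar F ℂ) (k : ℕ) (a : F[X]) {d : ℕ} (p : Pr F d) :
    0 ≤ sig ψ k a p := by
  unfold sig; positivity

lemma sig_le_one (ψ : AddChar F ℂ) (k : ℕ) (a : F[X]) {d : ℕ} (p : Pr F d) :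
    sig ψ k a p ≤ 1 := by
  unfold sig
  have hq0 : (0 : ℝ) < (Fintype.card F : ℝ) ^ d := by
    have : (0 : ℝ) < (Fintype.card F : ℝ) := by exact_mod_cast Fintype.card_pos
    positivity
  rw [div_le_one hq0]
  exact Sd_le ψ (Lp p) k a d

lemma norm_tau (ψ : AddChar F ℂ) (k : ℕ) {s : ℕ} (a : Fin s → F[X]) (m : F[X]) {d : ℕ}
    (p : Pr F d) : ‖tau ψ k a m p‖ = ∏ i, sig ψ k (a i) p := by
  unfold tau sig
  rw [norm_mul, AddChar.norm_apply, one_mul, norm_prod]
  apply Finset.prod_congr rfl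
  intro i _
  rw [norm_div, norm_pow, Complex.norm_natCast]

/-- The bound for the monic case. -/
theorem one_bound {ψ : AddChar F ℂ} (hψ : ψ ≠ 1) {k : ℕ} (hk : 2 ≤ k)
    (hch : ∀ i : ℕ, 1 ≤ i → i ≤ k → ((i : ℕ) : F) ≠ 0) (hbig : Big (Fintype.card F) k) (d : ℕ) :
    ∑ p ∈ Pm F d, sig ψ k 1 p ^ (2 * k + 1) ≤ 1 / 16 ^ d := by
  rcases Nat.eq_zero_or_pos d with h0 | hpos
  · subst h0
    have h1 : ∀ p ∈ Pm F 0, sig ψ k 1 p ^ (2 * k + 1) ≤ 1 := by
      intro p _
      exact pow_le_one₀ (sig_nonneg _ _ _ _) (sig_le_one _ _ _ _)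
    refine le_trans (Finset.sum_le_sum h1) ?_
    rw [Finset.sum_const, nsmul_eq_mul, mul_one, pow_zero, div_one]
    have h2 : (Pm F 0).card ≤ 1 := by
      refine le_trans (Finset.card_filter_le _ _) ?_
      rw [Finset.card_univ, Fintype.card_prod, card_V, Fintype.card_fun]
      simp
    exact_mod_cast h2
  · set q : ℝ := (Fintype.card F : ℝ) with hq
    have hq0 : 0 < q := by rw [hq]; exact_mod_cast Fintype.card_pos
    have hkd : (k - 1) * d + d = k * d := by
      obtain ⟨k', rfl⟩ : ∃ k', k = k' + 1 := ⟨k - 1, by omega⟩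
      simp only [Nat.add_sub_cancel]; ring
    have hNk : 1 ≤ (k - 1) * d := Nat.mul_pos (by omega) hpos
    have hdN : d ≤ (k - 1) * d := Nat.le_mul_of_pos_left _ (by omega)
    have hGG : ∀ y : F[X], GG k 1 0 1 y = y ^ k := by
      intro y
      have := DG.GG_mul k (1 : F[X]) 0 1 y
      rw [one_mul, one_mul, one_mul, zero_pow (by omega), sub_zero, zero_add] at this
      exact this
    have H : DG.Hyp (k := k) (fun _ : Fin (2 * k + 1) => (1 : F[X])) (fun _ => 0) 1 0
        (fun _ => d) (fun _ => d) (k * d) ((k - 1) * d) d := by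
      refine ⟨one_ne_zero, hNk, hkd, fun _ => le_rfl, ?_, ?_, ?_, ?_, ?_⟩
      · intro i y hy
        rw [zero_add, one_mul]
        obtain ⟨e, rfl⟩ : ∃ e, d = e + 1 := ⟨d - 1, by omega⟩
        have := mem_V_succ_iff.1 hy
        omega
      · intro i
        rw [natDegree_one, zero_add]
      · intro y
        unfold DG.EE
        apply Submodule.add_mem _ _ (Submodule.zero_mem _)
        apply Submodule.sum_mem
        intro i _
        rw [hGG]
        obtain ⟨e, he⟩ : ∃ e, d = e + 1 := ⟨d - 1, by omega⟩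
        have h1 : ((y i : F[X]) ^ k).natDegree ≤ k * e := by
          refine le_trans natDegree_pow_le (Nat.mul_le_mul_left _ ?_)
          have h2 := (y i).2
          rw [mem_V_iff] at h2
          rw [natDegree_le_iff_coeff_eq_zero]
          intro j hj
          exact h2 j (by omega)
        have h3 : k * e + 1 ≤ k * d := by
          rw [he, mul_add, mul_one]; omega
        exact V_mono h3 (mem_V_succ_iff.2 h1)
      · intro ϖ hϖ h
        exact absurd (isUnit_of_dvd_one h) hϖ.not_isUnit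
      · intro i ϖ hϖ h
        exact h
    have h1 := DG.level_prod hψ hk hch hbig H hpos le_rfl
    have h2 : ∀ α ∈ DN F (k * d) ((k - 1) * d) d, ∏ i : Fin (2 * k + 1),
        (‖DG.CC ψ (lin α) k (1 : F[X]) 0 1 (gk (lin α) ((k - 1) * d) d) d‖ / q ^ d)
        = sig ψ k 1 (pa (lin α) ((k - 1) * d) d) ^ (2 * k + 1) := by
      intro α hα
      rw [mem_DN] at hα
      obtain ⟨hg, hgd, hK⟩ := gk_spec hα
      rw [Finset.prod_const, Finset.card_univ, Fintype.card_fin]
      congr 1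
      unfold sig
      congr 2
      unfold DG.CC Sd
      apply Finset.sum_congr rfl
      intro v _
      congr 1
      rw [hGG, one_mul, pa_eq hNk hα (V_mono (by omega) (mod_mem hg hgd _))]
      symm
      apply Lp_congr
      rw [wp_pa hα]
      exact dvd_sub_mod _ _
    rw [Finset.sum_congr rfl h2, sum_DN_eq hNk hdN (by omega)
      (fun p : Pr F d => sig ψ k 1 p ^ (2 * k + 1))] at h1
    have e1 : k * d - ((k - 1) * d + d) = 0 := by omega
    rw [e1, pow_zero, Nat.cast_one, one_mul, Nat.sub_self, pow_zero] at h1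
    exact h1

/-- The constant for a coefficient of degree `A`. -/
noncomputable def CA (q A : ℕ) : ℝ := (q : ℝ) ^ A * ∑ j ∈ Finset.range (A + 1), (16 : ℝ) ^ j

lemma CA_nonneg (q A : ℕ) : 0 ≤ CA q A := by
  unfold CA
  have : 0 ≤ ∑ j ∈ Finset.range (A + 1), (16 : ℝ) ^ j :=
    Finset.sum_nonneg (fun _ _ => by positivity)
  positivity

lemma CA_zero (q : ℕ) : CA q 0 = 1 := by simp [CA]

/-- The pair of the functional `L (a ·)`. -/
lemma exists_red {k d : ℕ} {a : F[X]} (ha : a ≠ 0) {p : Pr F d} (hp : Mi p)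
    (ψ : AddChar F ℂ) :
    ∃ x : Σ d' : ℕ, Pr F d', x.1 ≤ d ∧ d ≤ x.1 + a.natDegree ∧ Mi x.2 ∧
      (∀ w, Lp p (a * w) = Lp x.2 w) ∧ sig ψ k a p = sig ψ k 1 x.2 := by
  set L : F[X] →ₗ[F] F := (Lp p).comp (LinearMap.mulLeft F a) with hL
  have hLa : ∀ w, L w = Lp p (a * w) := fun w => rfl
  have hLG : ∀ w, L (wp p.1 * w) = 0 := by
    intro w
    rw [hLa, show a * (wp p.1 * w) = wp p.1 * (a * w) by ring, Lp_kill]
  obtain ⟨d', hd', p', hp', hdvd, hLp, -⟩ := exists_pair (wp_monic p.1) (wp_natDegree p.1) hLG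
  have h1 : d ≤ d' + a.natDegree := by
    by_contra hcon
    push Not at hcon
    have h2 : a * wp p'.1 ≠ 0 := mul_ne_zero ha (wp_monic _).ne_zero
    have h3 : (a * wp p'.1).natDegree < d := by
      rw [natDegree_mul ha (wp_monic _).ne_zero, wp_natDegree]
      omega
    obtain ⟨w, hw⟩ := hp _ h2 h3
    apply hw
    rw [mul_assoc, ← hLa, hLp, Lp_kill]
  refine ⟨⟨d', p'⟩, hd', h1, hp', ?_, ?_⟩
  · intro w
    rw [← hLa, hLp]
  · have h4 : Sd ψ (Lp p) k a d = Sd ψ (Lp p') k 1 d := by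
      unfold Sd
      apply Finset.sum_congr rfl
      intro v _
      rw [← hLa, hLp, one_mul]
    obtain ⟨e, he⟩ : ∃ e, d = d' + e := ⟨d - d', by omega⟩
    have h5 := Sd_split ψ (wp_monic p'.1) (wp_natDegree p'.1) (fun w => Lp_kill p' w) k 1 e
    have hq0 : (Fintype.card F : ℝ) ≠ 0 := by exact_mod_cast Fintype.card_ne_zero
    unfold sig
    simp only
    rw [h4]
    rw [← he] at h5
    rw [h5, norm_mul, norm_pow, Complex.norm_natCast, he, pow_add, mul_comm,
      mul_div_mul_right _ _ (pow_ne_zero _ hq0)]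

/-- The bound for a general coefficient. -/
theorem gen_bound {ψ : AddChar F ℂ} (hψ : ψ ≠ 1) {k : ℕ} (hk : 2 ≤ k)
    (hch : ∀ i : ℕ, 1 ≤ i → i ≤ k → ((i : ℕ) : F) ≠ 0) (hbig : Big (Fintype.card F) k)
    {a : F[X]} (ha : a ≠ 0) (d : ℕ) :
    ∑ p ∈ Pm F d, sig ψ k a p ^ (2 * k + 1) ≤ CA (Fintype.card F) a.natDegree / 16 ^ d := by
  set A := a.natDegree with hA
  set q : ℝ := (Fintype.card F : ℝ) with hq
  have hq0 : 0 < q := by rw [hq]; exact_mod_cast Fintype.card_pos
  let φ : Pr F d → Σ d' : ℕ, Pr F d' := fun p =>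
    if h : Mi p then (exists_red (k := k) ha h ψ).choose else ⟨0, (0, 0)⟩
  have hφ : ∀ p ∈ Pm F d, (φ p).1 ≤ d ∧ d ≤ (φ p).1 + A ∧ Mi (φ p).2 ∧
      (∀ w, Lp p (a * w) = Lp (φ p).2 w) ∧ sig ψ k a p = sig ψ k 1 (φ p).2 := by
    intro p hp
    simp only [φ]
    rw [dif_pos (mem_Pm.1 hp)]
    exact (exists_red (k := k) ha (mem_Pm.1 hp) ψ).choose_spec
  set T : Finset (Σ d' : ℕ, Pr F d') :=
    ((Finset.range (d + 1)).filter (fun d' => d ≤ d' + A)).sigma (fun d' => Pm F d') with hT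
  have hmaps : ∀ p ∈ Pm F d, φ p ∈ T := by
    intro p hp
    obtain ⟨h1, h2, h3, -, -⟩ := hφ p hp
    rw [hT, Finset.mem_sigma, Finset.mem_filter, mem_Pm, Finset.mem_range]
    exact ⟨⟨by omega, h2⟩, h3⟩
  have hfib : ∀ x : Σ d' : ℕ, Pr F d', ((Pm F d).filter (fun p => φ p = x)).card
      ≤ Fintype.card F ^ A := by
    intro x
    have h1 : Fintype.card F ^ A = (Finset.univ : Finset (Fin A → F)).card := by
      rw [Finset.card_univ, Fintype.card_fun, Fintype.card_fin]
    rw [h1]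
    apply Finset.card_le_card_of_injOn (fun p => fun j : Fin A => Lp p (X ^ (j : ℕ)))
    · intro p _
      exact Finset.mem_coe.2 (Finset.mem_univ _)
    · intro p hp p' hp' h
      rw [Finset.mem_coe, Finset.mem_filter] at hp hp'
      apply Lp_inj (mem_Pm.1 hp.1)
      apply LinearMap.ext
      intro y
      have hlc : a.leadingCoeff ≠ 0 := leadingCoeff_ne_zero.2 ha
      set b := C a.leadingCoeff⁻¹ * a with hb
      have hbm : b.Monic := by
        rw [hb, Monic, leadingCoeff_mul, leadingCoeff_C, inv_mul_cancel₀ hlc]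
      have hbd : b.natDegree = A := by rw [hb, natDegree_C_mul (inv_ne_zero hlc)]
      have h2 : ∀ w, Lp p (b * w) = Lp p' (b * w) := by
        intro w
        rw [hb, mul_assoc, ← smul_eq_C_mul, map_smul, map_smul, (hφ p hp.1).2.2.2.1 w,
          (hφ p' hp'.1).2.2.2.1 w, hp.2, hp'.2]
      have h3 : ∀ w ∈ degreeLT F A, Lp p w = Lp p' w := by
        intro w hw
        rw [← lin_vec (Lp p) hw, ← lin_vec (Lp p') hw]
        simp only at h
        rw [h]
      rw [← modByMonic_add_div y b, map_add, map_add, h2, h3 _ (mod_mem hbm hbd y)]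
  have h1 : ∑ p ∈ Pm F d, sig ψ k a p ^ (2 * k + 1)
      = ∑ p ∈ Pm F d, sig ψ k 1 (φ p).2 ^ (2 * k + 1) := by
    apply Finset.sum_congr rfl
    intro p hp
    rw [(hφ p hp).2.2.2.2]
  rw [h1, ← Finset.sum_fiberwise_of_maps_to hmaps]
  have h2 : ∀ x ∈ T, ∑ p ∈ (Pm F d).filter (fun p => φ p = x),
      sig ψ k 1 (φ p).2 ^ (2 * k + 1) ≤ q ^ A * sig ψ k 1 x.2 ^ (2 * k + 1) := by
    intro x _
    have h3 : ∀ p ∈ (Pm F d).filter (fun p => φ p = x),
        sig ψ k 1 (φ p).2 ^ (2 * k + 1) = sig ψ k 1 x.2 ^ (2 * k + 1) := by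
      intro p hp
      rw [(Finset.mem_filter.1 hp).2]
    rw [Finset.sum_congr rfl h3, Finset.sum_const, nsmul_eq_mul]
    apply mul_le_mul_of_nonneg_right _ (pow_nonneg (sig_nonneg _ _ _ _) _)
    rw [hq]
    exact_mod_cast hfib x
  refine le_trans (Finset.sum_le_sum h2) ?_
  rw [← Finset.mul_sum, hT, Finset.sum_sigma]
  unfold CA
  rw [mul_div_assoc]
  apply mul_le_mul_of_nonneg_left _ (by positivity)
  refine le_trans (Finset.sum_le_sum (fun d' _ => one_bound hψ hk hch hbig d')) ?_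
  rw [Finset.sum_div]
  have h4 : ∀ d' ∈ (Finset.range (d + 1)).filter (fun d' => d ≤ d' + A),
      (1 : ℝ) / 16 ^ d' = (16 : ℝ) ^ (d - d') / 16 ^ d := by
    intro d' hd'
    rw [Finset.mem_filter, Finset.mem_range] at hd'
    obtain ⟨e, he⟩ : ∃ e, d = d' + e := ⟨d - d', by omega⟩
    have e1 : d - d' = e := by omega
    rw [e1, he, pow_add]
    field_simp
  rw [Finset.sum_congr rfl h4]
  have h5 : ∑ d' ∈ (Finset.range (d + 1)).filter (fun d' => d ≤ d' + A),
      (16 : ℝ) ^ (d - d') / 16 ^ d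
      = ∑ j ∈ ((Finset.range (d + 1)).filter (fun d' => d ≤ d' + A)).image (fun d' => d - d'),
        (16 : ℝ) ^ j / 16 ^ d := by
    rw [Finset.sum_image]
    intro x hx y hy h
    rw [Finset.mem_coe, Finset.mem_filter, Finset.mem_range] at hx hy
    simp only at h
    omega
  rw [h5]
  apply Finset.sum_le_sum_of_subset_of_nonneg
  · intro j hj
    rw [Finset.mem_image] at hj
    obtain ⟨d', hd', rfl⟩ := hj
    rw [Finset.mem_filter, Finset.mem_range] at hd'
    rw [Finset.mem_range]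
    omega
  · intro j _ _
    positivity

end Pool.Agent.H598.AS
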