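import Pool.Agent.H598.AS.Series

/-!
# The exact contribution of a level
-/

namespace Pool.Agent.H598.AS

open Finset Polynomial Pool.Agent.H598.FQ
open Pool.Agent.H598.DG (Kn ism mis DN MN mem_DN mem_MN redN gk gk_spec lin_vec dvd_sub_mod
  mod_eq_of_dvd mul_mem_VN amgm GG GG_mul sum_DN_avg sum_prod_dep)
open Pool.Agent.H598.TK (wp wp_monic wp_natDegree wp_inj exists_wp EE Hyp Yd mem_Yd shiftN
  shiftN_coe shiftN_mem psi_shift sum_ft sum_prod_pi ft Inf card_Yd QQ)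
open scoped Classical

variable {F : Type*} [Field F] [Fintype F]

section
variable {k s : ℕ} {a b : Fin s → F[X]} {c0 : F[X]} {n P : Fin s → ℕ}
  {M Nk R : ℕ}

/-- The complete sum of a shifted variable. -/
lemma CC_eq (ψ : AddChar F ℂ) (k : ℕ) (a b : F[X]) {Nk d : ℕ} (hNk : 1 ≤ Nk)
    {L : F[X] →ₗ[F] F} (hL : ism L Nk d) :
    TK.CC ψ L k a b 1 (gk L Nk d) d
      = ψ (-(Lp (pa L Nk d) (a * b ^ k))) * Sd ψ (Lp (pa L Nk d)) k a d := by
  obtain ⟨hg, hgd, hK⟩ := gk_spec hL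
  set p := pa L Nk d with hp
  have hwp : wp p.1 = gk L Nk d := wp_pa hL
  have h1 : ∀ v : degreeLT F d, ψ (L ((GG k a b 1 (v : F[X])) %ₘ gk L Nk d))
      = ψ (-(Lp p (a * b ^ k))) * ψ (Lp p (a * (b + (v : F[X])) ^ k)) := by
    intro v
    rw [← AddChar.map_add_eq_mul]
    congr 1
    rw [pa_eq hNk hL (V_mono (by omega) (mod_mem hg hgd _))]
    have h2 : Lp p ((GG k a b 1 (v : F[X])) %ₘ gk L Nk d) = Lp p (GG k a b 1 (v : F[X])) := by
      symm
      apply Lp_congr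
      rw [hwp]
      exact dvd_sub_mod _ _
    have h3 := GG_mul k a b 1 (v : F[X])
    rw [one_mul, one_mul] at h3
    rw [h2, h3, mul_sub, map_sub]
    ring
  unfold TK.CC
  rw [Finset.sum_congr rfl (fun v _ => h1 v), ← Finset.mul_sum]
  congr 1
  have h4 := Equiv.sum_comp (Equiv.addLeft (⟨b %ₘ wp p.1, mod_mem (wp_monic _) (wp_natDegree _) _⟩ :
    degreeLT F d)) (fun z : degreeLT F d => ψ (Lp p (a * (z : F[X]) ^ k)))
  unfold Sd
  rw [← h4]
  apply Finset.sum_congr rfl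
  intro v _
  congr 1
  change Lp p (a * (b + (v : F[X])) ^ k) = Lp p (a * (b %ₘ wp p.1 + (v : F[X])) ^ k)
  apply Lp_congr
  rw [← mul_sub]
  apply Dvd.dvd.mul_left
  refine dvd_trans ?_ (sub_dvd_pow_sub_pow _ _ _)
  have e : b + (v : F[X]) - (b %ₘ wp p.1 + (v : F[X])) = b - b %ₘ wp p.1 := by ring
  rw [e]
  exact dvd_sub_mod _ _

/-- The inner sum, exactly. -/
lemma inner_exact {ψ : AddChar F ℂ} (H : Hyp k a b 1 c0 n P M Nk R) {m : F[X]}
    (hc0 : c0 = ∑ i, a i * b i ^ k - m) {d : ℕ} (hdn : ∀ i, d ≤ n i)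
    {L : F[X] →ₗ[F] F} (hL : ism L Nk d) :
    ∑ y ∈ Yd k a b 1 c0 n (Nk + d), ψ (L (EE k a b 1 c0 n y))
      = ((Yd k a b 1 c0 n (Nk + d)).card : ℂ) * tau ψ k a m (pa L Nk d) := by
  obtain ⟨hg, hgd, hK⟩ := gk_spec hL
  have hNk := H.hNk
  set Y := Yd k a b 1 c0 n (Nk + d) with hY
  set q : ℂ := (Fintype.card F : ℂ) with hq
  have hq0 : q ≠ 0 := by
    rw [hq]; exact_mod_cast Fintype.card_ne_zero
  have h1 : ∀ z : Fin s → degreeLT F d, ∑ y ∈ Y, ψ (L (EE k a b 1 c0 n y))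
      = ∑ y ∈ Y, ψ (L (EE k a b 1 c0 n (shiftN hdn y z))) := by
    intro z
    symm
    refine Finset.sum_bij' (fun y _ => shiftN hdn y z)
      (fun y _ => shiftN hdn y (-z)) ?_ ?_ ?_ ?_ ?_
    · intro y hy; exact shiftN_mem H hdn hy z
    · intro y hy; exact shiftN_mem H hdn hy (-z)
    · intro y _
      funext i
      apply Subtype.ext
      rw [shiftN_coe, shiftN_coe]
      simp
    · intro y _
      funext i
      apply Subtype.ext
      rw [shiftN_coe, shiftN_coe]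
      simp
    · intro y _; rfl
  have h2 : (q ^ d) ^ s * ∑ y ∈ Y, ψ (L (EE k a b 1 c0 n y))
      = ∑ y ∈ Y, ∑ z : Fin s → degreeLT F d, ψ (L (EE k a b 1 c0 n (shiftN hdn y z))) := by
    rw [Finset.sum_comm, Finset.sum_congr rfl (fun z _ => (h1 z).symm), Finset.sum_const,
      nsmul_eq_mul, Finset.card_univ, Fintype.card_fun, card_V,
      Fintype.card_fin]
    push_cast
    rfl
  have h3 : ∀ y ∈ Y, ∑ z : Fin s → degreeLT F d, ψ (L (EE k a b 1 c0 n (shiftN hdn y z)))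
      = (q ^ d) ^ s * tau ψ k a m (pa L Nk d) := by
    intro y hy
    rw [Finset.sum_congr rfl (fun z _ => psi_shift H hdn hg hgd hK hy z), ← Finset.mul_sum,
      ← sum_prod_pi (fun i (v : degreeLT F d) => ft ψ L k (a i) (b i) 1 (gk L Nk d) (y i) d v),
      Finset.prod_congr rfl (fun i _ => sum_ft ψ L k (a i) (b i) 1 hg hgd (y i)),
      Finset.prod_congr rfl (fun i _ => CC_eq ψ k (a i) (b i) hNk hL), Finset.prod_mul_distrib]
    have h4 : L (c0 %ₘ gk L Nk d) = Lp (pa L Nk d) c0 := by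
      rw [pa_eq hNk hL (V_mono (by omega) (mod_mem hg hgd _))]
      symm
      apply Lp_congr
      rw [wp_pa hL]
      exact dvd_sub_mod _ _
    have h5 : ψ (L (c0 %ₘ gk L Nk d)) * ∏ i, ψ (-(Lp (pa L Nk d) (a i * b i ^ k)))
        = ψ (-(Lp (pa L Nk d) m)) := by
      rw [← char_sum, ← AddChar.map_add_eq_mul, h4, hc0]
      congr 1
      rw [map_sub, map_sum, Finset.sum_neg_distrib]
      ring
    unfold tau
    rw [Finset.prod_div_distrib, Finset.prod_const, Finset.card_univ, Fintype.card_fin,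
      ← mul_assoc, h5, ← hq]
    have hqd : (q ^ d) ^ s ≠ 0 := pow_ne_zero _ (pow_ne_zero _ hq0)
    field_simp
  rw [Finset.sum_congr rfl h3, Finset.sum_const, nsmul_eq_mul] at h2
  have hqd : (q ^ d) ^ s ≠ 0 := pow_ne_zero _ (pow_ne_zero _ hq0)
  apply mul_left_cancel₀ hqd
  rw [h2]
  ring

/-- The contribution of a level, exactly. -/
theorem level_exact {ψ : AddChar F ℂ} (hψ : ψ ≠ 1) (H : Hyp k a b 1 c0 n P M Nk R) {m : F[X]}
    (hc0 : c0 = ∑ i, a i * b i ^ k - m) (hk : 1 ≤ k) (hkF : (k : F) ≠ 0)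
    {i₀ : Fin s} {c₀ : F} (I : Inf k a b 1 n P M i₀ c₀) {d : ℕ} (hdR : d ≤ R) (hdN : d ≤ Nk) :
    ∑ α ∈ DN F M Nk d, ∑ y, ψ (lin α (EE k a b 1 c0 n y))
      = (QQ F n : ℂ) * Ad ψ k a m d := by
  rw [sum_DN_avg hψ (EE k a b 1 c0 n) H.hE]
  have h1 : ∀ α ∈ DN F M Nk d,
      ∑ y ∈ Finset.univ.filter (fun y => EE k a b 1 c0 n y ∈ degreeLT F (Nk + d)),
        ψ (lin α (EE k a b 1 c0 n y))
      = ((Yd k a b 1 c0 n (Nk + d)).card : ℂ) * tau ψ k a m (pa (lin α) Nk d) := by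
    intro α hα
    exact inner_exact H hc0 (fun i => le_trans hdR (H.hn i)) (mem_DN.1 hα)
  have hM := H.hM
  rw [Finset.sum_congr rfl h1, ← Finset.mul_sum, sum_DN_eq H.hNk hdN (by omega)
    (fun p : Pr F d => tau ψ k a m p), ← mul_assoc]
  have h2 := card_Yd H hk hkF I (R - d) d (by omega)
  have e : M - (Nk + d) = R - d := by omega
  rw [e, ← Nat.cast_mul, h2]
  rfl

end

end Pool.Agent.H598.AS
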