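import Pool.Agent.H598.AS.Minor
import Pool.Agent.H598.DG.Setup

/-!
# The asymptotic formula
-/

namespace Pool.Agent.H598.AS

open Finset Polynomial Pool.Agent.H598.FQ
open Pool.Agent.H598.DG (Kn ism mis DN MN sum_splitN sum_all GG GG_mul exists_T)
open Pool.Agent.H598.TK (EE Hyp QQ Inf)
open scoped Classical

variable {F : Type*} [Field F]

/-- The degree bound of the `i`-th variable. -/
def dP (k W : ℕ) (a : F[X]) : ℕ := (W - a.natDegree) / k

section
variable [Fintype F]

/-- The number of solutions with prescribed leading coefficients. -/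
noncomputable def ZW (k : ℕ) {s : ℕ} (a : Fin s → F[X]) (m : F[X]) (W : ℕ) (c : Fin s → F) : ℕ :=
  (Finset.univ.filter (fun y : (∀ i, degreeLT F (dP k W (a i))) =>
    ∑ i, a i * (C (c i) * X ^ (dP k W (a i)) + (y i : F[X])) ^ k = m)).card

/-- The real singular series. -/
noncomputable def Sr (ψ : AddChar F ℂ) (k : ℕ) {s : ℕ} (a : Fin s → F[X]) (m : F[X]) : ℝ :=
  (SSer ψ k a m).re

/-- **The asymptotic formula.** -/
theorem asymp {ψ : AddChar F ℂ} (hψ : ψ ≠ 1) {k : ℕ} (hk : 2 ≤ k)
    (hch : ∀ i : ℕ, 1 ≤ i → i ≤ k → ((i : ℕ) : F) ≠ 0) (hbig : Big (Fintype.card F) k)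
    {t : ℕ} (ht : 2 * k ≤ t) (a : Fin (t + 1) → F[X]) (ha : ∀ i, a i ≠ 0) {ε : ℝ} (hε : 0 < ε) :
    ∃ W₀ : ℕ, ∀ W, W₀ ≤ W → ∀ m ∈ degreeLT F (W + 1), ∀ c : Fin (t + 1) → F,
      (∃ i, c i ≠ 0 ∧ (a i).natDegree % k = W % k) →
      ∑ i, (if (a i).natDegree % k = W % k then (a i).leadingCoeff * c i ^ k else 0)
        = m.coeff W →
      |(ZW k a m W c : ℝ) * (Fintype.card F : ℝ) ^ W
        / ∏ i, (Fintype.card F : ℝ) ^ (dP k W (a i)) - Sr ψ k a m| ≤ ε := by
  set Q := Fintype.card F with hQ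
  have hQ2 : 2 ≤ Q := Fintype.one_lt_card
  set Sd := ∑ i, (a i).natDegree with hSd
  have hdi : ∀ i, (a i).natDegree ≤ Sd := fun i =>
    Finset.single_le_sum (f := fun i => (a i).natDegree) (fun _ _ => Nat.zero_le _)
      (Finset.mem_univ i)
  obtain ⟨J, hJ⟩ := exists_nat_gt (2 / ε)
  have hJ0 : 0 < J := by
    have : (0 : ℝ) < 2 / ε := by positivity
    have h2 : (0 : ℝ) < J := lt_trans this hJ
    exact_mod_cast h2
  have hJ1 : (1 : ℝ) / J ≤ ε / 2 := by
    have h2 : (0 : ℝ) < J := by exact_mod_cast hJ0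
    rw [div_le_div_iff₀ h2 (by norm_num)]
    rw [div_lt_iff₀ hε] at hJ
    linarith
  -- the tail of the singular series
  obtain ⟨R₁, hR₁⟩ : ∃ R₁ : ℕ, ∀ R, R₁ ≤ R → Ca F a / (15 * 16 ^ R) ≤ ε / 2 := by
    obtain ⟨R₁, h1⟩ := exists_nat_gt (Ca F a / ε)
    refine ⟨R₁, fun R hR => ?_⟩
    have h2 : (R : ℝ) ≤ 16 ^ R := by
      have : R ≤ 16 ^ R := (Nat.lt_pow_self (by norm_num)).le
      exact_mod_cast this
    have h3 : (R₁ : ℝ) ≤ R := by exact_mod_cast hR
    rw [div_lt_iff₀ hε] at h1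
    rw [div_le_div_iff₀ (by positivity) (by norm_num)]
    have h4 : (R₁ : ℝ) * ε ≤ 16 ^ R * ε := mul_le_mul_of_nonneg_right (by linarith) hε.le
    nlinarith
  set B := Sd + 1 with hB
  set e := Sd + 3 * k with he
  set A := (a 0).natDegree with hA
  set κ := B + A + k + Sd + (k - 1) * (Sd + 1) with hκ
  obtain ⟨T₀, hT₀⟩ := exists_T (q := Q) hk hbig (e + J) κ B
  refine ⟨k * (T₀ + R₁ + B + A + Sd + k + 5), fun W hW m hm c ⟨i₀, hi₀, hci₀⟩ hcsum => ?_⟩
  set T := W / k with hT
  have hTge : T₀ + R₁ + B + A + Sd + k + 5 ≤ T := by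
    rw [hT, Nat.le_div_iff_mul_le (by omega), mul_comm]
    exact hW
  set ρ := W % k with hρ'
  have hρ : ρ < k := Nat.mod_lt _ (by omega)
  have hWT : k * T + ρ = W := Nat.div_add_mod W k
  have hbigT := hT₀ T (by omega)
  set P : Fin (t + 1) → ℕ := fun i => dP k W (a i) with hP
  have hkT : T ≤ k * T := Nat.le_mul_of_pos_left _ (by omega)
  have hk2T : 2 * T ≤ k * T := Nat.mul_le_mul_right _ hk
  have hP1 : ∀ i, k * P i + (a i).natDegree ≤ W := by
    intro i
    have := Nat.mul_div_le (W - (a i).natDegree) k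
    have h2 := hdi i
    simp only [hP, dP]
    omega
  have hP5 : ∀ i, W < k * P i + (a i).natDegree + k := by
    intro i
    have h3 := Nat.div_add_mod (W - (a i).natDegree) k
    have h4 : (W - (a i).natDegree) % k < k := Nat.mod_lt _ (by omega)
    have h2 := hdi i
    simp only [hP, dP]
    omega
  have hP2 : ∀ i, T ≤ P i + (a i).natDegree := by
    intro i
    have h2 := hdi i
    have h3 : T - (a i).natDegree ≤ P i := by
      simp only [hP, dP]
      rw [Nat.le_div_iff_mul_le (by omega)]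
      have h4 : (T - (a i).natDegree) * k = k * T - k * (a i).natDegree := by
        rw [Nat.sub_mul, mul_comm T k, mul_comm _ k]
      have h5 : (a i).natDegree ≤ k * (a i).natDegree := Nat.le_mul_of_pos_left _ (by omega)
      omega
    omega
  have hP3 : ∀ i, P i ≤ T := by
    intro i
    by_contra hcon
    push Not at hcon
    have h2 := hP1 i
    have h3 : k * (T + 1) ≤ k * P i := Nat.mul_le_mul_left _ hcon
    have h4 : k * (T + 1) = k * T + k := by ring
    omega
  have hP4 : ∀ i, (a i).natDegree % k = ρ → k * P i + (a i).natDegree = W := by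
    intro i hi
    have h2 := hdi i
    have h3 : (W - (a i).natDegree) % k = 0 := by
      have h4 := Nat.div_add_mod (a i).natDegree k
      rw [hi] at h4
      have h5 : W - (a i).natDegree = k * (T - (a i).natDegree / k) := by
        rw [Nat.mul_sub]
        omega
      rw [h5]
      exact Nat.mul_mod_right _ _
    have h6 := Nat.div_add_mod (W - (a i).natDegree) k
    rw [h3, add_zero] at h6
    simp only [hP, dP]
    omega
  have hkk : ∀ u, k * u = (k - 1) * u + u := by
    intro u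
    obtain ⟨k', hk'⟩ : ∃ k', k = k' + 1 := ⟨k - 1, by omega⟩
    rw [hk']
    simp only [Nat.add_sub_cancel]
    ring
  set b : Fin (t + 1) → F[X] := fun i => C (c i) * X ^ (P i) with hb
  set c0 : F[X] := ∑ i, a i * b i ^ k - m with hc0
  set R := T - B with hR
  set Nk := W - R with hNk
  have hRW : R ≤ W := by omega
  -- the variables
  have hx : ∀ i, ∀ y ∈ degreeLT F (P i), (b i + 1 * y).natDegree ≤ P i := by
    intro i y hy
    rw [one_mul]
    apply natDegree_add_le_of_degree_le
    · exact natDegree_C_mul_X_pow_le _ _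
    · exact mem_V_succ_iff.1 (V_mono (Nat.le_succ _) hy)
  have hxc : ∀ i, ∀ y ∈ degreeLT F (P i), (b i + 1 * y).coeff (P i) = c i := by
    intro i y hy
    rw [one_mul, coeff_add]
    simp only [hb]
    rw [coeff_C_mul_X_pow, if_pos rfl, mem_V_iff.1 hy _ le_rfl, add_zero]
  have hEE : ∀ y : (∀ i, degreeLT F (P i)),
      EE k a b 1 c0 P y = ∑ i, a i * (b i + (y i : F[X])) ^ k - m := by
    intro y
    unfold EE
    have h1 : ∀ i, GG k (a i) (b i) 1 (y i : F[X])
        = a i * (b i + (y i : F[X])) ^ k - a i * b i ^ k := by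
      intro i
      have := GG_mul k (a i) (b i) 1 (y i : F[X])
      rw [one_mul, one_mul] at this
      rw [this]; ring
    rw [Finset.sum_congr rfl (fun i _ => h1 i), Finset.sum_sub_distrib, hc0]
    ring
  have hE : ∀ y : (∀ i, degreeLT F (P i)), EE k a b 1 c0 P y ∈ degreeLT F W := by
    intro y
    rw [hEE]
    apply mem_V_of_succ
    · apply Submodule.sub_mem _ _ hm
      rw [mem_V_succ_iff]
      apply natDegree_sum_le_of_forall_le
      intro i _
      refine le_trans natDegree_mul_le ?_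
      have h2 := hx i _ (y i).2
      rw [one_mul] at h2
      have h3 : ((b i + (y i : F[X])) ^ k).natDegree ≤ k * P i :=
        le_trans natDegree_pow_le (Nat.mul_le_mul_left _ h2)
      have := hP1 i
      omega
    · rw [coeff_sub, finsetSum_coeff, ← hcsum, sub_eq_zero]
      apply Finset.sum_congr rfl
      intro i _
      have h2 := hx i _ (y i).2
      rw [one_mul] at h2
      have h2c := hxc i _ (y i).2
      rw [one_mul] at h2c
      by_cases hi : (a i).natDegree % k = ρ
      · rw [if_pos hi]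
        conv_lhs => rw [← hP4 i hi]
        rw [add_comm (k * P i), coeff_mul_add_eq_of_natDegree_le le_rfl
          (le_trans natDegree_pow_le (Nat.mul_le_mul_left _ h2)),
          coeff_pow_of_natDegree_le h2, h2c]
        rfl
      · rw [if_neg hi]
        apply coeff_eq_zero_of_natDegree_lt
        have h3 : ((b i + (y i : F[X])) ^ k).natDegree ≤ k * P i :=
          le_trans natDegree_pow_le (Nat.mul_le_mul_left _ h2)
        refine lt_of_le_of_lt natDegree_mul_le ?_
        have h4 := hP1 i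
        have h5 : k * P i + (a i).natDegree ≠ W := by
          intro heq
          apply hi
          have h6 : (k * P i + (a i).natDegree) % k = W % k := by rw [heq]
          rwa [Nat.mul_add_mod] at h6
        omega
  have hdegM : ∀ i, P i + ((a i).natDegree + (k - 1) * P i) ≤ W := by
    intro i
    have h1 := hP1 i
    have h3 := hkk (P i)
    omega
  have hRn : ∀ i, R ≤ P i := by
    intro i
    have h1 := hP2 i
    have h2 := hdi i
    omega
  have H : Hyp k a b 1 c0 P P W Nk R := by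
    refine ⟨one_ne_zero, by omega, by omega, hRn, hx, ?_, hE⟩
    intro i
    have h1 := hdegM i
    have h2 := hRn i
    omega
  have I : Inf k a b 1 P P W i₀ (c i₀) := by
    refine ⟨ha i₀, hi₀, hxc i₀, ?_⟩
    have h1 := hP4 i₀ hci₀
    have h3 := hkk (P i₀)
    omega
  have hkF : (k : F) ≠ 0 := hch k (by omega) le_rfl
  -- the decomposition
  have h1 := sum_all hψ (EE k a b 1 c0 P) H.hE
  rw [sum_splitN W Nk R] at h1
  have h2 : ∀ d ∈ Finset.range (R + 1), ∑ α ∈ DN F W Nk d, ∑ y, ψ (lin α (EE k a b 1 c0 P y))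
      = (QQ F P : ℂ) * Ad ψ k a m d := by
    intro d hd
    have hd' := Finset.mem_range.1 hd
    exact level_exact hψ H hc0 (by omega) hkF I (by omega) (by omega)
  rw [Finset.sum_congr rfl h2, ← Finset.mul_sum] at h1
  set S2 := ∑ α ∈ MN F W Nk R, ∑ y, ψ (lin α (EE k a b 1 c0 P y)) with hS2
  have h3 : ‖S2‖ ≤ (QQ F P : ℝ) / J := by
    apply minor_small (κ := κ) (e := e) (Pm := T) hψ hk hch ht ha c0 hJ0 hx hdegM hP3
    · intro i
      have h4 := hP5 i
      have h5 := hdi i
      have h6 : 2 * k * (P i + 1) = k * P i + k * P i + 2 * k := by ring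
      have h7 : 2 * k * P i = k * P i + k * P i := by ring
      omega
    · have h4 := hP2 0
      have h5 := hdi 0
      omega
    · have h4 := hP3 0
      have h5 : (k - 1) * (P 0 - 1) ≤ (k - 1) * T := Nat.mul_le_mul_left _ (by omega)
      have h6 := hkk T
      omega
    · omega
    · have h4 := hP3 0
      have h5 := hP2 0
      have h6 := hdi 0
      have h7 : P 0 - (R + 1 - (a 0).natDegree) ≤ B + A := by omega
      have h8 : (k - 1) * T ≤ (k - 1) * (P 0 - 1) + (k - 1) * (Sd + 1) := by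
        rw [← mul_add]
        apply Nat.mul_le_mul_left
        omega
      have h9 := hkk T
      have h10 : Nk - ((k - 1) * (P 0 - 1) + 1) ≤ k + Sd + (k - 1) * (Sd + 1) := by
        omega
      omega
    · refine le_trans (Nat.mul_le_mul_left _ (Nat.pow_le_pow_left ?_ _))
        (hbigT (P 0) (hP3 0) (by have h5 := hP2 0; have h6 := hdi 0; omega))
      rw [pow_add Q e J]
      have h4 : J ≤ Q ^ J := (Nat.lt_pow_self (by omega)).le
      calc J * (Q ^ e * (2 * k) ^ (k * T + 1)) ≤ Q ^ J * (Q ^ e * (2 * k) ^ (k * T + 1)) :=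
            Nat.mul_le_mul_right _ h4
        _ = 1 * (Q ^ e * Q ^ J * (2 * k) ^ (k * T + 1)) := by ring
        _ ≤ 4 * (Q ^ e * Q ^ J * (2 * k) ^ (k * T + 1)) := Nat.mul_le_mul_right _ (by norm_num)
        _ = 4 * (Q ^ e * Q ^ J) * (2 * k) ^ (k * T + 1) := by ring
  have h4 := tail_SSer hψ hk hch hbig (show 2 * k + 1 ≤ t + 1 by omega) ha m R
  have hR1 := hR₁ R (by omega)
  -- the final comparison
  have hQQ : (QQ F P : ℝ) = ∏ i, (Q : ℝ) ^ (dP k W (a i)) := by
    unfold QQ
    push_cast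
    rfl
  have hQQ0 : (0 : ℝ) < (QQ F P : ℝ) := by
    rw [hQQ]
    have : (0 : ℝ) < (Q : ℝ) := by exact_mod_cast (show 0 < Q by omega)
    positivity
  have hQQc : (QQ F P : ℂ) ≠ 0 := by
    have : (QQ F P : ℝ) ≠ 0 := hQQ0.ne'
    exact_mod_cast this
  have hZ : (Finset.univ.filter (fun y => EE k a b 1 c0 P y = 0)).card = ZW k a m W c := by
    unfold ZW
    congr 1
    apply Finset.filter_congr
    intro y _
    rw [hEE, sub_eq_zero]
  rw [hZ] at h1
  have h5 : (((ZW k a m W c : ℝ) * (Q : ℝ) ^ W / (QQ F P : ℝ) - Sr ψ k a m : ℝ))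
      = ((ZW k a m W c : ℂ) * (Q : ℂ) ^ W / (QQ F P : ℂ) - SSer ψ k a m).re := by
    rw [Complex.sub_re]
    unfold Sr
    congr 1
    have : ((ZW k a m W c : ℂ) * (Q : ℂ) ^ W / (QQ F P : ℂ))
        = (((ZW k a m W c : ℝ) * (Q : ℝ) ^ W / (QQ F P : ℝ) : ℝ) : ℂ) := by
      push_cast; rfl
    rw [this, Complex.ofReal_re]
  rw [← hQQ, h5]
  refine le_trans (Complex.abs_re_le_norm _) ?_
  have h6 : (ZW k a m W c : ℂ) * (Q : ℂ) ^ W / (QQ F P : ℂ) - SSer ψ k a m
      = -(SSer ψ k a m - ∑ d ∈ Finset.range (R + 1), Ad ψ k a m d) + S2 / (QQ F P : ℂ) := by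
    have h7 : (ZW k a m W c : ℂ) * (Q : ℂ) ^ W
        = (QQ F P : ℂ) * ∑ d ∈ Finset.range (R + 1), Ad ψ k a m d + S2 := by
      rw [h1]; ring
    rw [h7, add_div, mul_div_cancel_left₀ _ hQQc]
    ring
  rw [h6]
  refine le_trans (norm_add_le _ _) ?_
  rw [norm_neg, norm_div, Complex.norm_natCast]
  have h8 : ‖S2‖ / (QQ F P : ℝ) ≤ 1 / J := by
    rw [div_le_iff₀ hQQ0]
    refine le_trans h3 (le_of_eq ?_)
    ring
  linarith

end

end Pool.Agent.H598.AS
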