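import Pool.Agent.H598.AS.Points
import Pool.Agent.H598.AS.Waring

/-!
# Manin's conjecture for diagonal hypersurfaces over `F(t)`
-/

namespace Pool.Agent.H598.AS

open Finset Polynomial Pool.Agent.H598.FQ
open Filter Topology
open scoped Classical

variable {F : Type*} [Field F]

lemma onX_of {s k : ℕ} (a : Fin s → F[X]) {x : Fin s → RatFunc F} (hx : x ≠ 0)
    (h0 : ∑ i, algebraMap F[X] (RatFunc F) (a i) * x i ^ k = 0) :
    OnX k a (Projectivization.mk (RatFunc F) x hx) := by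
  unfold OnX
  obtain ⟨u, hu⟩ := Projectivization.exists_smul_eq_mk_rep (RatFunc F) x hx
  have h1 : ∀ i, (Projectivization.mk (RatFunc F) x hx).rep i = (u : RatFunc F) * x i := by
    intro i
    rw [← hu]
    rfl
  have h2 : ∑ i, algebraMap F[X] (RatFunc F) (a i) *
      (Projectivization.mk (RatFunc F) x hx).rep i ^ k
      = (u : RatFunc F) ^ k * ∑ i, algebraMap F[X] (RatFunc F) (a i) * x i ^ k := by
    rw [Finset.mul_sum]
    apply Finset.sum_congr rfl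
    intro i _
    rw [h1]
    ring
  rw [h2, h0, mul_zero]

section
variable [Fintype F]

/-- A nontrivial zero. -/
lemma exists_zero_poly {k : ℕ} (hk : 2 ≤ k)
    (hch : ∀ i : ℕ, 1 ≤ i → i ≤ k → ((i : ℕ) : F) ≠ 0) (hbig : Big (Fintype.card F) k)
    {s : ℕ} (hs : 2 * k + 1 ≤ s) (a : Fin s → F[X]) :
    ∃ P : ℕ, ∃ x : Fin s → F[X], MaxDeg P x ∧ ∑ i, a i * x i ^ k = 0 := by
  obtain ⟨x, hx, h0⟩ := DG.diag_ratFunc hk hch hbig hs
    (fun i => algebraMap F[X] (RatFunc F) (a i))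
  have h1 := onX_of (k := k) a hx h0
  obtain ⟨P, x', -, hP, hne, hp⟩ := exists_height (Projectivization.mk (RatFunc F) x hx)
  refine ⟨P, x', hP, ?_⟩
  rw [hp, onX_mk] at h1
  exact h1

/-- Positivity of the density at infinity. -/
lemma sgi_pos {k : ℕ} (hk : 2 ≤ k) {s : ℕ} {a : Fin s → F[X]} {P : ℕ} {x : Fin s → F[X]}
    (hP : MaxDeg P x) (hx : ∑ i, a i * x i ^ k = 0) (r : ℕ) : 0 < sgi k a r := by
  have hq0 : (0 : ℝ) < Fintype.card F := by exact_mod_cast Fintype.card_pos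
  obtain ⟨n, c, hnc⟩ : ∃ n c, r + n = P + c := ⟨P, r, by omega⟩
  have h1 : (fun i => x i * X ^ c) ∈ SP k a (r + n) := by
    rw [mem_SP, hnc]
    refine ⟨⟨fun i => ?_, ?_⟩, ?_⟩
    · rw [mem_V_succ_iff]
      refine le_trans natDegree_mul_le ?_
      rw [natDegree_X_pow]
      have := hP.1 i
      omega
    · obtain ⟨i, hi⟩ := hP.2
      refine ⟨i, ?_⟩
      rw [coeff_mul_X_pow]
      exact hi
    · have e : ∀ i, a i * (x i * X ^ c) ^ k = a i * (X ^ c * x i) ^ k := by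
        intro i; rw [mul_comm (x i)]
      rw [Finset.sum_congr rfl (fun i _ => e i), form_scale, hx, mul_zero]
  have h2 : 0 < (SP k a (r + n)).card := Finset.card_pos.2 ⟨_, h1⟩
  rw [card_SP] at h2
  obtain ⟨b, hb, hb2⟩ := Finset.exists_ne_zero_of_sum_ne_zero h2.ne'
  have h3 : b ∈ Gd k a r := by
    by_contra hg
    exact hb2 (Zb_bad hk hb hg n)
  unfold sgi
  apply div_pos _ (by positivity)
  apply Finset.sum_pos
  · intro b _; positivity
  · exact ⟨b, h3⟩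

/-- **Manin's conjecture for diagonal hypersurfaces.** -/
theorem manin {k : ℕ} (hk : 2 ≤ k)
    (hch : ∀ i : ℕ, 1 ≤ i → i ≤ k → ((i : ℕ) : F) ≠ 0)
    (hq : (8 * k) ^ (k * 2 ^ k) ≤ Fintype.card F) {s : ℕ} (hs : 2 * k + 1 ≤ s)
    (a : Fin s → F[X]) (ha : ∀ i, a i ≠ 0) :
    ∃ S σ : ℝ, 0 < S ∧ 0 < σ ∧
      (∀ ε : ℝ, 0 < ε → ∃ H : F[X], H.Monic ∧ ∀ G : F[X], G.Monic → H ∣ G →
        |(Nat.card {z : Fin s → F[X] // (∀ i, (z i).degree < G.degree) ∧
            G ∣ ∑ i, a i * z i ^ k} : ℝ)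
          / (Fintype.card F : ℝ) ^ ((s - 1) * G.natDegree) - S| ≤ ε) ∧
      (∀ A : ℕ, (∀ i, (a i).natDegree ≤ A) → ∃ R₀ : ℕ, ∀ R, R₀ ≤ R →
        (Nat.card {x : Fin s → F[X] // MaxDeg R x ∧
            (∑ i, a i * x i ^ k).degree < (((k - 1) * R + A : ℕ) : WithBot ℕ)} : ℝ)
          = σ * (Fintype.card F : ℝ) ^ ((s - 1) * R + A)) ∧
      Tendsto (fun P => ((Pts k a P).ncard : ℝ) / (Fintype.card F : ℝ) ^ ((s - k) * P)) atTop
        (𝓝 (σ * S * (1 - (Fintype.card F : ℝ) / (Fintype.card F : ℝ) ^ (s - k))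
          / (Fintype.card F - 1))) ∧
      Tendsto (fun P => ((PtsLe k a P).ncard : ℝ) / (Fintype.card F : ℝ) ^ ((s - k) * P)) atTop
        (𝓝 (σ * S * (1 - (Fintype.card F : ℝ) / (Fintype.card F : ℝ) ^ (s - k))
          / (Fintype.card F - 1) * (1 - ((Fintype.card F : ℝ) ^ (s - k))⁻¹)⁻¹)) := by
  obtain ⟨ψ, hψ⟩ : ∃ ψ : AddChar F ℂ, ψ ≠ 1 := by
    obtain ⟨ψ, hψ⟩ := (AddChar.exists_apply_ne_zero (α := F) (a := 1)).2 one_ne_zero
    exact ⟨ψ, fun h => hψ (by rw [h]; rfl)⟩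
  have hbig := big_of_le hk hq
  have hq2 : 2 ≤ Fintype.card F := Fintype.one_lt_card
  have hq1 : (1 : ℝ) < Fintype.card F := by exact_mod_cast hq2
  have hq0 : (0 : ℝ) < Fintype.card F := by linarith
  obtain ⟨P₀, x₀, hP₀, hx₀⟩ := exists_zero_poly hk hch hbig hs a
  obtain ⟨j₀, hj₀⟩ := hP₀.2
  have hj₀' : x₀ j₀ ≠ 0 := by
    intro h; apply hj₀; rw [h, coeff_zero]
  set r := ∑ i, (a i).natDegree + 1 with hr
  have hA : ∀ i, (a i).natDegree < r := fun i => by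
    have := Finset.single_le_sum (f := fun i => (a i).natDegree) (fun _ _ => Nat.zero_le _)
      (Finset.mem_univ i)
    omega
  have hlim : Tendsto (fun P => ((SP k a P).card : ℝ) / (Fintype.card F : ℝ) ^ ((s - k) * P))
      atTop (𝓝 (sgi k a r * Sr ψ k a 0)) := by
    obtain ⟨t, rfl⟩ : ∃ t, s = t + 1 := ⟨s - 1, by omega⟩
    exact tendsto_SP hψ hk hch hbig (by omega) a ha hA
  have hlim2 := tendsto_PP hlim
  have hpts : ∀ P, ((Pts k a P).ncard : ℝ) = ((PP k a P).card : ℝ) / (Fintype.card F - 1) := by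
    intro P
    have h1 := (card_Pts k a P).1
    have h2 : ((Pts k a P).ncard : ℝ) * ((Fintype.card F : ℝ) - 1) = ((PP k a P).card : ℝ) := by
      rw [← h1, Nat.cast_mul, Nat.cast_sub (by omega), Nat.cast_one]
      rfl
    rw [eq_div_iff (by linarith)]
    exact h2
  have hlim3 : Tendsto (fun P => ((Pts k a P).ncard : ℝ) / (Fintype.card F : ℝ) ^ ((s - k) * P))
      atTop (𝓝 (sgi k a r * Sr ψ k a 0 * (1 - (Fintype.card F : ℝ)
        / (Fintype.card F : ℝ) ^ (s - k)) / (Fintype.card F - 1))) := by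
    have h1 := hlim2.div_const ((Fintype.card F : ℝ) - 1)
    refine h1.congr (fun P => ?_)
    rw [hpts P]
    ring
  refine ⟨Sr ψ k a 0, sgi k a r, SSer_pos hψ hk hch hbig hs ha hx₀ hj₀', sgi_pos hk hP₀ hx₀ r,
    ?_, ?_, hlim3, ?_⟩
  · intro ε hε
    obtain ⟨D, hD⟩ := exists_D (C := Ca F a) (show (0 : ℝ) < ε / 2 by positivity)
    obtain ⟨H, hH, hHd⟩ := exists_modulus F D
    refine ⟨H, hH, fun G hG hHG => ?_⟩
    have h1 := dn_close hψ hk hch hbig hs ha 0 (D := D) hG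
      (fun g hg hgd => dvd_trans (hHd g hg hgd) hHG)
    have h4 := NG_eq (k := k) a 0 hG
    simp only [sub_zero] at h4
    rw [h4]
    have h3 : dn k a 0 G = (NG k a 0 G : ℝ) / (Fintype.card F : ℝ) ^ ((s - 1) * G.natDegree) := by
      unfold dn
      have e2 : ((Fintype.card F : ℝ) ^ G.natDegree) ^ s
          = (Fintype.card F : ℝ) ^ ((s - 1) * G.natDegree) * (Fintype.card F : ℝ) ^ G.natDegree := by
        rw [← pow_mul, ← pow_add]
        congr 1
        obtain ⟨t, rfl⟩ : ∃ t, s = t + 1 := ⟨s - 1, by omega⟩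
        rw [Nat.add_sub_cancel]; ring
      rw [e2]
      have : (Fintype.card F : ℝ) ^ G.natDegree ≠ 0 := by positivity
      rw [mul_div_mul_right _ _ this]
    rw [← h3]
    refine le_trans h1 ?_
    linarith
  · intro A hA'
    obtain ⟨t, rfl⟩ : ∃ t, s = t + 1 := ⟨s - 1, by omega⟩
    obtain ⟨R₀, hR₀⟩ := count_inf hk (hch k (by omega) le_rfl) (t := t) (by omega) a ha hA hA'
    refine ⟨R₀, fun R hR => ?_⟩
    rw [Nat.add_sub_cancel, ← hR₀ R hR, ← Fintype.card_coe, ← Nat.card_eq_fintype_card]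
    congr 1
    apply Nat.card_congr
    apply Equiv.subtypeEquivRight
    intro x
    rw [Finset.mem_filter, mem_BP, mem_degreeLT]
    unfold MaxDeg
    constructor
    · rintro ⟨⟨h1, h2⟩, h3⟩
      exact ⟨⟨fun i => mem_V_succ_iff.2 (h1 i), h2⟩, h3⟩
    · rintro ⟨⟨h1, h2⟩, h3⟩
      exact ⟨⟨fun i => mem_V_succ_iff.1 (h1 i), h2⟩, h3⟩
  · have hl : (1 : ℝ) < (Fintype.card F : ℝ) ^ (s - k) := one_lt_pow₀ hq1 (by omega)
    have h1 : Tendsto (fun P => ((Pts k a P).ncard : ℝ) / ((Fintype.card F : ℝ) ^ (s - k)) ^ P)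
      atTop (𝓝 (sgi k a r * Sr ψ k a 0 * (1 - (Fintype.card F : ℝ)
        / (Fintype.card F : ℝ) ^ (s - k)) / (Fintype.card F - 1))) := by
      refine hlim3.congr (fun P => ?_)
      rw [pow_mul]
    have h2 := tendsto_cumul hl h1
    refine h2.congr (fun P => ?_)
    rw [(card_PtsLe k a P).2, Nat.cast_sum, pow_mul]

end

end Pool.Agent.H598.AS
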