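import Pool.Agent.H598.AS.Exact

/-!
# The minor functionals
-/

namespace Pool.Agent.H598.AS

open Finset Polynomial Pool.Agent.H598.FQ
open Pool.Agent.H598.DG (Kn ism mis DN MN mem_DN mem_MN amgm GG GG_mul GG_sub_mem SS card_kernel
  weyl_gen PL_GG mean_gen count_GG sg sum_prod_dep)
open Pool.Agent.H598.TK (EE Hyp QQ)
open scoped Classical

variable {F : Type*} [Field F] [Fintype F]

/-- The supremum bound for one variable. -/
lemma sup_one {ψ : AddChar F ℂ} (hψ : ψ ≠ 1) {k : ℕ} (hk : 2 ≤ k)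
    (hch : ∀ i : ℕ, 1 ≤ i → i ≤ k → ((i : ℕ) : F) ≠ 0) {a : F[X]} (b : F[X]) (ha : a ≠ 0)
    {n Nk R κ Z : ℕ} {L : F[X] →ₗ[F] F} (hL : mis L Nk R) (hn : 1 ≤ n)
    (hm : (k - 1) * (n - 1) + 1 ≤ Nk) (hAR : a.natDegree ≤ R)
    (hκ : (n - (R + 1 - a.natDegree)) + (Nk - ((k - 1) * (n - 1) + 1)) ≤ κ)
    (hbig : ((k - 1) + Fintype.card F ^ κ * 2 ^ ((k - 1) * (k - 2) * n)) * Z ^ (2 ^ (k - 1))
      ≤ Fintype.card F ^ n) :
    ‖SS ψ L k a b 1 n‖ * (Z : ℝ) ≤ (Fintype.card F : ℝ) ^ n := by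
  have hA : a * (1 : F[X]) ^ (k - 1) = a := by rw [one_pow, mul_one]
  have hK := card_kernel (n := n) (m := (k - 1) * (n - 1) + 1) hL ha hm hAR
  have hK2 : Nat.card {a' : degreeLT F n // ∀ b : degreeLT F ((k - 1) * (n - 1) + 1),
      L (a * 1 ^ (k - 1) * ((a' : F[X]) * b)) = 0} ≤ Fintype.card F ^ κ := by
    rw [hA]
    exact le_trans hK (Nat.pow_le_pow_right Fintype.card_pos hκ)
  have h1 := weyl_gen hψ hk (fun i hi hi' => hch i (by omega) hi') L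
    (PL_GG (show 1 ≤ k by omega) a b (one_ne_zero (α := F[X]))) hn hK2
  set q : ℝ := (Fintype.card F : ℝ) with hq
  have hq0 : 0 < q := by rw [hq]; exact_mod_cast Fintype.card_pos
  set E := 2 ^ (k - 1) with hE
  have hE0 : E ≠ 0 := by positivity
  have hZ0 : (0 : ℝ) ≤ (Z : ℝ) := Nat.cast_nonneg _
  have h2 : (((k - 1 : ℕ) : ℝ) + q ^ κ * 2 ^ ((k - 1) * (k - 2) * n)) * (Z : ℝ) ^ E ≤ q ^ n := by
    have hh : ((((k - 1) + Fintype.card F ^ κ * 2 ^ ((k - 1) * (k - 2) * n)) *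
      Z ^ (2 ^ (k - 1)) : ℕ) : ℝ)
      ≤ ((Fintype.card F ^ n : ℕ) : ℝ) := by exact_mod_cast hbig
    rw [← hE] at hh
    push_cast at hh ⊢
    exact hh
  have h3 : (‖SS ψ L k a b 1 n‖ * Z) ^ E * q ^ n ≤ (q ^ n) ^ E * q ^ n := by
    calc (‖SS ψ L k a b 1 n‖ * Z) ^ E * q ^ n
        = (‖SS ψ L k a b 1 n‖ ^ E * q ^ n) * (Z : ℝ) ^ E := by rw [mul_pow]; ring
      _ ≤ ((q ^ n) ^ E *
          (((k - 1 : ℕ) : ℝ) + q ^ κ * 2 ^ ((k - 1) * (k - 2) * n))) * (Z : ℝ) ^ E :=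
          mul_le_mul_of_nonneg_right h1 (by positivity)
      _ = (q ^ n) ^ E *
          ((((k - 1 : ℕ) : ℝ) + q ^ κ * 2 ^ ((k - 1) * (k - 2) * n)) * (Z : ℝ) ^ E) := by ring
      _ ≤ (q ^ n) ^ E * q ^ n := mul_le_mul_of_nonneg_left h2 (by positivity)
  have h4 : (‖SS ψ L k a b 1 n‖ * Z) ^ E ≤ (q ^ n) ^ E :=
    le_of_mul_le_mul_right h3 (by positivity)
  exact le_of_pow_le_pow_left₀ hE0 (by positivity) h4

/-- The mean value for one variable. -/
lemma mean_one {ψ : AddChar F ℂ} (hψ : ψ ≠ 1) {k : ℕ} (hk : 2 ≤ k)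
    (hch : ∀ i : ℕ, 1 ≤ i → i ≤ k → ((i : ℕ) : F) ≠ 0) {a b : F[X]} (ha : a ≠ 0)
    {n P M e Pm : ℕ} (hx : ∀ y ∈ degreeLT F n, (b + 1 * y).natDegree ≤ P)
    (hdegM : n + (a.natDegree + (k - 1) * P) ≤ M) (hPm : P ≤ Pm)
    (he : M + (2 * k * (P + 1) - (k * P + 1)) ≤ 2 * k * n + e) :
    ∑ α : Fin M → F, (‖SS ψ (lin α) k a b 1 n‖ / (Fintype.card F : ℝ) ^ n) ^ (2 * k)
      ≤ (Fintype.card F : ℝ) ^ e * (2 * k) ^ (k * Pm + 1) := by
  set q : ℝ := (Fintype.card F : ℝ) with hq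
  have hq0 : 0 < q := by rw [hq]; exact_mod_cast Fintype.card_pos
  have hq1 : 1 ≤ q := by rw [hq]; exact_mod_cast Fintype.card_pos
  have hGG : ∀ y : degreeLT F n, GG k a b 1 (y : F[X]) ∈ degreeLT F M := by
    intro y
    have h0 : (0 : F[X]) ∈ degreeLT F n := Submodule.zero_mem _
    have h1 := GG_sub_mem (k := k) (a := a) (b := b) (one_ne_zero (α := F[X]))
      (le_refl a.natDegree) (hx _ y.2) (hx _ h0) (d := n) (by rw [sub_zero]; exact y.2)
    have h2 : GG k a b 1 0 = 0 := by unfold GG; ring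
    rw [h2, sub_zero] at h1
    exact V_mono hdegM h1
  have h1 := mean_gen hψ (k := k) (M := M) (W := degreeLT F n)
    (fun y => GG k a b 1 (y : F[X])) hGG
  have h2 := count_GG (show 0 < k by omega) (choose_ne hch) ha (one_ne_zero (α := F[X])) hx
  have h3 : ∑ α : Fin M → F, ‖SS ψ (lin α) k a b 1 n‖ ^ (2 * k)
      ≤ (q ^ e * (2 * k) ^ (k * Pm + 1)) * (q ^ n) ^ (2 * k) := by
    unfold SS
    rw [h1]
    have h4 : ((Nat.card {x : Fin (2 * k) → degreeLT F n //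
        ∑ j, C (sg F k j) * GG k a b 1 (x j : F[X]) = 0} : ℕ) : ℝ)
        ≤ (2 * k : ℝ) ^ (k * P + 1) * q ^ (2 * k * (P + 1) - (k * P + 1)) := by
      unfold JB at h2
      rw [hq]
      exact_mod_cast h2
    have h5 : (2 * k : ℝ) ^ (k * P + 1) ≤ (2 * k : ℝ) ^ (k * Pm + 1) := by
      apply pow_le_pow_right₀
      · have : (1 : ℝ) ≤ k := by exact_mod_cast (show 1 ≤ k by omega)
        linarith
      · have := Nat.mul_le_mul_left k hPm
        omega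
    calc q ^ M * ((Nat.card {x : Fin (2 * k) → degreeLT F n //
        ∑ j, C (sg F k j) * GG k a b 1 (x j : F[X]) = 0} : ℕ) : ℝ)
        ≤ q ^ M * ((2 * k : ℝ) ^ (k * P + 1) * q ^ (2 * k * (P + 1) - (k * P + 1))) :=
          mul_le_mul_of_nonneg_left h4 (by positivity)
      _ = (2 * k : ℝ) ^ (k * P + 1) * q ^ (M + (2 * k * (P + 1) - (k * P + 1))) := by
          rw [pow_add]; ring
      _ ≤ (2 * k : ℝ) ^ (k * Pm + 1) * q ^ (2 * k * n + e) := by
          apply mul_le_mul h5 _ (by positivity) (by positivity)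
          exact pow_le_pow_right₀ hq1 he
      _ = _ := by
          rw [pow_add, ← pow_mul, mul_comm n]; ring
  have h6 : ∑ α : Fin M → F,
      (‖SS ψ (lin α) k a b 1 n‖ / q ^ n) ^ (2 * k)
      = (∑ α : Fin M → F, ‖SS ψ (lin α) k a b 1 n‖ ^ (2 * k))
        / (q ^ n) ^ (2 * k) := by
    rw [Finset.sum_div]
    apply Finset.sum_congr rfl
    intro α _
    rw [div_pow]
  rw [h6, div_le_iff₀ (by positivity)]
  exact h3

lemma SS_le (ψ : AddChar F ℂ) (L : F[X] →ₗ[F] F) (k : ℕ) (a b : F[X]) (n : ℕ) :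
    ‖SS ψ L k a b 1 n‖ / (Fintype.card F : ℝ) ^ n ≤ 1 := by
  have hq0 : (0 : ℝ) < (Fintype.card F : ℝ) ^ n := by
    have : (0 : ℝ) < (Fintype.card F : ℝ) := by exact_mod_cast Fintype.card_pos
    positivity
  rw [div_le_one hq0]
  unfold SS
  refine le_trans (norm_sum_le _ _) ?_
  rw [Finset.sum_congr rfl (fun y _ => AddChar.norm_apply ψ _), Finset.sum_const,
    Finset.card_univ, card_V, nsmul_eq_mul, mul_one]
  push_cast
  rfl

/-- The sum over all tuples as a product. -/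
lemma sum_EE (ψ : AddChar F ℂ) (L : F[X] →ₗ[F] F) (k : ℕ) {s : ℕ} (a b : Fin s → F[X])
    (c0 : F[X]) (n : Fin s → ℕ) :
    ∑ y, ψ (L (EE k a b 1 c0 n y)) = ψ (L c0) * ∏ i, SS ψ L k (a i) (b i) 1 (n i) := by
  unfold SS
  rw [sum_prod_dep (fun i (v : degreeLT F (n i)) => ψ (L (GG k (a i) (b i) 1 v))),
    Finset.mul_sum]
  apply Finset.sum_congr rfl
  intro y _
  unfold EE
  rw [map_add, AddChar.map_add_eq_mul, map_sum, char_sum, mul_comm]

/-- The contribution of the minor functionals. -/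
theorem minor_small {ψ : AddChar F ℂ} (hψ : ψ ≠ 1) {k : ℕ} (hk : 2 ≤ k)
    (hch : ∀ i : ℕ, 1 ≤ i → i ≤ k → ((i : ℕ) : F) ≠ 0) {t : ℕ} (ht : 2 * k ≤ t)
    {a b : Fin (t + 1) → F[X]} (ha : ∀ i, a i ≠ 0) (c0 : F[X]) {n P : Fin (t + 1) → ℕ}
    {M Nk R κ e Pm J : ℕ} (hJ : 0 < J)
    (hx : ∀ i, ∀ y ∈ degreeLT F (n i), (b i + 1 * y).natDegree ≤ P i)
    (hdegM : ∀ i, n i + ((a i).natDegree + (k - 1) * P i) ≤ M)
    (hPm : ∀ i, P i ≤ Pm)
    (he : ∀ i, M + (2 * k * (P i + 1) - (k * P i + 1)) ≤ 2 * k * n i + e)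
    (hn : 1 ≤ n 0) (hm : (k - 1) * (n 0 - 1) + 1 ≤ Nk) (hAR : (a 0).natDegree ≤ R)
    (hκ : (n 0 - (R + 1 - (a 0).natDegree)) + (Nk - ((k - 1) * (n 0 - 1) + 1)) ≤ κ)
    (hbig : ((k - 1) + Fintype.card F ^ κ * 2 ^ ((k - 1) * (k - 2) * n 0)) *
      (J * (Fintype.card F ^ e * (2 * k) ^ (k * Pm + 1))) ^ (2 ^ (k - 1))
      ≤ Fintype.card F ^ n 0) :
    ‖∑ α ∈ MN F M Nk R, ∑ y, ψ (lin α (EE k a b 1 c0 n y))‖ ≤ (QQ F n : ℝ) / J := by
  set q : ℝ := (Fintype.card F : ℝ) with hq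
  have hq0 : 0 < q := by rw [hq]; exact_mod_cast Fintype.card_pos
  have hk0 : (0 : ℝ) < k := by exact_mod_cast (show 0 < k by omega)
  have hJ0 : (0 : ℝ) < J := by exact_mod_cast hJ
  have ht0 : 0 < t := by omega
  have ht1 : (0 : ℝ) < t := by exact_mod_cast ht0
  have hQQ : (QQ F n : ℝ) = ∏ i, q ^ n i := by
    unfold QQ
    push_cast
    rfl
  set Z : ℝ := q ^ e * (2 * k) ^ (k * Pm + 1) with hZ
  have hZ0 : 0 < Z := by positivity
  refine le_trans (norm_sum_le _ _) ?_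
  have h1 : ∀ α ∈ MN F M Nk R, ‖∑ y, ψ (lin α (EE k a b 1 c0 n y))‖
      ≤ (QQ F n : ℝ) * ((1 / (J * Z)) * ((∑ i : Fin t,
        (‖SS ψ (lin α) k (a i.succ) (b i.succ) 1 (n i.succ)‖ / q ^ n i.succ) ^ (2 * k))
          / (t : ℝ))) := by
    intro α hα
    rw [sum_EE, norm_mul, AddChar.norm_apply, one_mul, norm_prod, hQQ]
    have h2 : ∏ i, ‖SS ψ (lin α) k (a i) (b i) 1 (n i)‖
        = (∏ i, q ^ n i) * ∏ i, (‖SS ψ (lin α) k (a i) (b i) 1 (n i)‖ / q ^ n i) := by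
      rw [← Finset.prod_mul_distrib]
      apply Finset.prod_congr rfl
      intro i _
      rw [mul_div_cancel₀]
      positivity
    rw [h2]
    apply mul_le_mul_of_nonneg_left _ (by positivity)
    rw [Fin.prod_univ_succ]
    apply mul_le_mul
    · rw [div_le_div_iff₀ (by positivity) (by positivity), one_mul]
      have := sup_one hψ hk hch (b 0) (ha 0) (mem_MN.1 hα) hn hm hAR hκ hbig
      push_cast at this
      rw [← hq] at this
      exact this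
    · refine le_trans (amgm ht0 _ (fun i => by positivity)) ?_
      apply div_le_div_of_nonneg_right _ ht1.le
      apply Finset.sum_le_sum
      intro i _
      exact pow_le_pow_of_le_one (by positivity) (SS_le _ _ _ _ _ _) ht
    · exact Finset.prod_nonneg (fun i _ => by positivity)
    · positivity
  refine le_trans (Finset.sum_le_sum h1) ?_
  rw [← Finset.mul_sum, ← Finset.mul_sum, ← Finset.sum_div, Finset.sum_comm]
  have h3 : ∀ i : Fin t, ∑ α ∈ MN F M Nk R,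
      (‖SS ψ (lin α) k (a i.succ) (b i.succ) 1 (n i.succ)‖ / q ^ n i.succ) ^ (2 * k) ≤ Z := by
    intro i
    refine le_trans ?_ (mean_one hψ hk hch (ha i.succ) (hx i.succ) (hdegM i.succ) (hPm i.succ)
      (he i.succ))
    exact Finset.sum_le_sum_of_subset_of_nonneg (Finset.subset_univ _)
      (fun _ _ _ => by positivity)
  have h4 : (∑ i : Fin t, ∑ α ∈ MN F M Nk R,
      (‖SS ψ (lin α) k (a i.succ) (b i.succ) 1 (n i.succ)‖ / q ^ n i.succ) ^ (2 * k))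
      / (t : ℝ) ≤ Z := by
    rw [div_le_iff₀ ht1]
    refine le_trans (Finset.sum_le_sum (fun i _ => h3 i)) ?_
    rw [Finset.sum_const, Finset.card_univ, Fintype.card_fin, nsmul_eq_mul, mul_comm]
  calc _ ≤ (QQ F n : ℝ) * (1 / (J * Z) * Z) := by
        apply mul_le_mul_of_nonneg_left _ (by positivity)
        exact mul_le_mul_of_nonneg_left h4 (by positivity)
    _ = _ := by field_simp

end Pool.Agent.H598.AS
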