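import Pool.Agent.H598.TK.Eng

/-!
# Functionals with a prescribed minimal annihilator
-/

namespace Pool.Agent.H598.AS

open Finset Polynomial Pool.Agent.H598.FQ
open Pool.Agent.H598.DG (Kn ism mis DN MN mem_DN mem_MN redN gk gk_spec lin_vec dvd_sub_mod
  mod_eq_of_dvd mul_mem_VN)
open Pool.Agent.H598.TK (wp wp_monic wp_natDegree wp_inj exists_wp)
open scoped Classical

variable {F : Type*} [Field F]

/-- A monic polynomial of degree `d` and a functional on the remainders. -/
abbrev Pr (F : Type*) [Field F] (d : ℕ) : Type _ := degreeLT F d × (Fin d → F)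

/-- The functional of a pair. -/
noncomputable def Lp {d : ℕ} (p : Pr F d) : F[X] →ₗ[F] F :=
  (lin p.2).comp (modByMonicHom (wp p.1))

lemma Lp_apply {d : ℕ} (p : Pr F d) (y : F[X]) : Lp p y = lin p.2 (y %ₘ wp p.1) := rfl

/-- The functional of the pair has no annihilator of smaller degree. -/
def Mi {d : ℕ} (p : Pr F d) : Prop :=
  ∀ h : F[X], h ≠ 0 → h.natDegree < d → ∃ w, Lp p (h * w) ≠ 0

lemma Lp_congr {d : ℕ} (p : Pr F d) {y y' : F[X]} (h : wp p.1 ∣ y - y') : Lp p y = Lp p y' := by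
  rw [Lp_apply, Lp_apply, mod_eq_of_dvd (wp_monic _) h]

lemma Lp_kill {d : ℕ} (p : Pr F d) (w : F[X]) : Lp p (wp p.1 * w) = 0 := by
  rw [Lp_congr p (y' := 0) (by rw [sub_zero]; exact dvd_mul_right _ _), map_zero]

/-- A functional which kills the ideal of a monic polynomial comes from a pair. -/
lemma eq_Lp {d : ℕ} {L : F[X] →ₗ[F] F} (r : degreeLT F d) (hL : ∀ w, L (wp r * w) = 0) :
    L = Lp (r, fun j : Fin d => L (X ^ (j : ℕ))) := by
  apply LinearMap.ext
  intro y
  rw [Lp_apply]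
  simp only
  rw [lin_vec L (mod_mem (wp_monic r) (wp_natDegree r) y)]
  conv_lhs => rw [← modByMonic_add_div y (wp r)]
  rw [map_add, hL, add_zero]

/-- The coefficients of the functional of a pair. -/
lemma Lp_X {d : ℕ} (p : Pr F d) (j : Fin d) : Lp p (X ^ (j : ℕ)) = p.2 j := by
  have h1 : (X ^ (j : ℕ) : F[X]) ∈ degreeLT F d := by
    rw [mem_V_iff]
    intro l hl
    rw [coeff_X_pow, if_neg (by omega)]
  rw [Lp_apply, mod_eq_self (wp_monic _) (wp_natDegree _) h1, lin_apply,
    Finset.sum_eq_single j]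
  · rw [coeff_X_pow, if_pos rfl, mul_one]
  · intro i _ hi
    rw [coeff_X_pow, if_neg (fun h => hi (Fin.ext h)), mul_zero]
  · intro h; exact absurd (Finset.mem_univ _) h

/-- Two minimal pairs with the same functional are equal. -/
lemma Lp_inj {d : ℕ} {p p' : Pr F d} (hp : Mi p) (h : Lp p = Lp p') : p = p' := by
  have h1 : wp p.1 = wp p'.1 := by
    by_contra hne
    have h2 : wp p.1 - wp p'.1 ≠ 0 := sub_ne_zero.2 hne
    have h3 : (wp p.1 - wp p'.1).natDegree < d := by
      have h4 : wp p.1 - wp p'.1 ∈ degreeLT F d := by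
        have : wp p.1 - wp p'.1 = (p.1 : F[X]) - (p'.1 : F[X]) := by unfold wp; ring
        rw [this]
        exact Submodule.sub_mem _ p.1.2 p'.1.2
      rcases Nat.eq_zero_or_pos d with h0 | hpos
      · subst h0
        exfalso
        apply h2
        ext j
        rw [mem_V_iff.1 h4 j (Nat.zero_le _), coeff_zero]
      · obtain ⟨e, rfl⟩ : ∃ e, d = e + 1 := ⟨d - 1, by omega⟩
        have := mem_V_succ_iff.1 h4
        omega
    obtain ⟨w, hw⟩ := hp _ h2 h3
    apply hw
    rw [sub_mul, map_sub, Lp_kill, zero_sub, h, Lp_kill, neg_zero]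
  apply Prod.ext (wp_inj h1)
  funext j
  rw [← Lp_X p j, ← Lp_X p' j, h]

/-- Minimal pairs of different degrees have different functionals. -/
lemma Lp_deg {d d' : ℕ} {p : Pr F d} {p' : Pr F d'} (hp : Mi p) (hp' : Mi p')
    (h : Lp p = Lp p') : d = d' := by
  rcases lt_trichotomy d d' with hlt | heq | hlt
  · exfalso
    obtain ⟨w, hw⟩ := hp' (wp p.1) (wp_monic _).ne_zero (by rw [wp_natDegree]; exact hlt)
    exact hw (by rw [← h, Lp_kill])
  · exact heq
  · exfalso
    obtain ⟨w, hw⟩ := hp (wp p'.1) (wp_monic _).ne_zero (by rw [wp_natDegree]; exact hlt)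
    exact hw (by rw [h, Lp_kill])

/-- The pair of a functional of level `d`. -/
noncomputable def pa (L : F[X] →ₗ[F] F) (Nk d : ℕ) : Pr F d :=
  (if h : ism L Nk d then (exists_wp (gk_spec h).1 (gk_spec h).2.1).choose else 0,
    fun j => L (X ^ (j : ℕ)))

lemma wp_pa {L : F[X] →ₗ[F] F} {Nk d : ℕ} (h : ism L Nk d) :
    wp (pa L Nk d).1 = gk L Nk d := by
  unfold pa
  simp only
  rw [dif_pos h]
  exact (exists_wp (gk_spec h).1 (gk_spec h).2.1).choose_spec

lemma pa_eq {L : F[X] →ₗ[F] F} {Nk d : ℕ} (hNk : 1 ≤ Nk) (h : ism L Nk d) {y : F[X]}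
    (hy : y ∈ degreeLT F (Nk + d)) : L y = Lp (pa L Nk d) y := by
  obtain ⟨hg, hgd, hK⟩ := gk_spec h
  rw [Lp_apply, wp_pa h, redN hNk hg hgd hK hy]
  have : (pa L Nk d).2 = fun j : Fin d => L (X ^ (j : ℕ)) := rfl
  rw [this, lin_vec L (mod_mem hg hgd y)]

lemma pa_min {L : F[X] →ₗ[F] F} {Nk d : ℕ} (hNk : 1 ≤ Nk) (h : ism L Nk d) :
    Mi (pa L Nk d) := by
  intro f hf hfd
  have h1 := h.2 f hf hfd
  unfold Kn at h1
  push Not at h1
  obtain ⟨y, hy, hne⟩ := h1
  refine ⟨y, ?_⟩
  rw [← pa_eq hNk h]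
  · exact hne
  · apply V_mono _ (mul_mem_VN (le_refl f.natDegree) hy)
    omega

/-- Every functional killing an ideal comes from a minimal pair. -/
theorem exists_pair {D : ℕ} {G : F[X]} (hG : G.Monic) (hGD : G.natDegree = D)
    {L : F[X] →ₗ[F] F} (hLG : ∀ w, L (G * w) = 0) :
    ∃ d, d ≤ D ∧ ∃ p : Pr F d, Mi p ∧ wp p.1 ∣ G ∧ L = Lp p ∧
      p.2 = fun j : Fin d => L (X ^ (j : ℕ)) := by
  have hex : ∃ d, ∃ g : F[X], g.Monic ∧ g.natDegree = d ∧ ∀ w, L (g * w) = 0 :=
    ⟨D, G, hG, hGD, hLG⟩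
  obtain ⟨g, hg, hgd, hgL⟩ := Nat.find_spec hex
  set d := Nat.find hex with hdd
  have hmin : ∀ h : F[X], h ≠ 0 → h.natDegree < d → ∃ w, L (h * w) ≠ 0 := by
    intro h h0 hd
    by_contra hcon
    push Not at hcon
    apply Nat.find_min hex hd
    have hc : h.leadingCoeff⁻¹ ≠ 0 := inv_ne_zero (leadingCoeff_ne_zero.2 h0)
    refine ⟨C h.leadingCoeff⁻¹ * h, ?_, ?_, ?_⟩
    · rw [Monic, leadingCoeff_mul, leadingCoeff_C, inv_mul_cancel₀ (leadingCoeff_ne_zero.2 h0)]
    · rw [natDegree_C_mul hc]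
    · intro w
      rw [mul_assoc, ← smul_eq_C_mul, map_smul, hcon, smul_zero]
  have hdD : d ≤ D := by
    by_contra hcon
    push Not at hcon
    exact Nat.find_min hex hcon ⟨G, hG, hGD, hLG⟩
  obtain ⟨r, hr⟩ := exists_wp hg hgd
  have hLr : L = Lp (r, fun j : Fin d => L (X ^ (j : ℕ))) := by
    apply eq_Lp
    intro w
    rw [hr]
    exact hgL w
  have hgG : g ∣ G := by
    rw [← modByMonic_eq_zero_iff_dvd hg]
    by_contra hne
    have h1 : (G %ₘ g).natDegree < d := by
      have h2 := mod_mem hg hgd G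
      rcases Nat.eq_zero_or_pos d with h0 | hpos
      · exfalso
        apply hne
        rw [h0] at h2
        ext j
        rw [mem_V_iff.1 h2 j (Nat.zero_le _), coeff_zero]
      · obtain ⟨e, he⟩ : ∃ e, d = e + 1 := ⟨d - 1, by omega⟩
        rw [he, mem_V_succ_iff] at h2
        omega
    obtain ⟨w, hw⟩ := hmin _ hne h1
    apply hw
    have h3 := modByMonic_add_div G g
    have h4 : (G %ₘ g) * w = G * w - g * ((G /ₘ g) * w) := by
      linear_combination w * h3
    rw [h4, map_sub, hLG, hgL, sub_zero]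
  refine ⟨d, hdD, (r, fun j : Fin d => L (X ^ (j : ℕ))), ?_, ?_, hLr, rfl⟩
  · intro h h0 hd
    rw [← hLr]
    exact hmin h h0 hd
  · simp only
    rw [hr]
    exact hgG

section
variable [Fintype F]

/-- The minimal pairs. -/
noncomputable def Pm (F : Type*) [Field F] [Fintype F] (d : ℕ) : Finset (Pr F d) :=
  Finset.univ.filter Mi

lemma mem_Pm {d : ℕ} {p : Pr F d} : p ∈ Pm F d ↔ Mi p := by
  rw [Pm, Finset.mem_filter]
  exact ⟨fun h => h.2, fun h => ⟨Finset.mem_univ _, h⟩⟩

/-- The fibres of the map to pairs. -/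
lemma fiber_pa {M Nk d : ℕ} (hNk : 1 ≤ Nk) (hd : d ≤ Nk) (hM : Nk + d ≤ M) {p : Pr F d}
    (hp : Mi p) :
    ((DN F M Nk d).filter (fun α => pa (lin α) Nk d = p)).card
      = Fintype.card F ^ (M - (Nk + d)) := by
  rw [← card_Bs (F := F) (n := M) (r := Nk + d)]
  set α₀ : Fin M → F := fun j => Lp p (X ^ (j : ℕ)) with hα₀
  have hα₀' : ∀ y ∈ degreeLT F M, lin α₀ y = Lp p y := fun y hy => lin_vec (Lp p) hy
  -- a functional agreeing with the one of `p` on the window
  have key : ∀ α : Fin M → F, (∀ y ∈ degreeLT F (Nk + d), lin α y = Lp p y) →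
      ism (lin α) Nk d ∧ pa (lin α) Nk d = p := by
    intro α hα
    have h1 : ism (lin α) Nk d := by
      refine ⟨⟨wp p.1, wp_monic _, wp_natDegree _, ?_⟩, ?_⟩
      · intro y hy
        rw [hα, Lp_kill]
        apply V_mono _ (mul_mem_VN (le_refl (wp p.1).natDegree) hy)
        rw [wp_natDegree]
      · intro f hf hfd hK
        obtain ⟨w, hw⟩ := hp f hf hfd
        apply hw
        have h2 : Lp p (f * w) = Lp p (f * (w %ₘ wp p.1)) := by
          apply Lp_congr
          rw [← mul_sub]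
          exact Dvd.dvd.mul_left (dvd_sub_mod _ _) _
        have h3 : w %ₘ wp p.1 ∈ degreeLT F Nk :=
          V_mono hd (mod_mem (wp_monic _) (wp_natDegree _) w)
        rw [h2, ← hα]
        · exact hK _ h3
        · apply V_mono _ (mul_mem_VN (le_refl f.natDegree) h3)
          omega
    refine ⟨h1, ?_⟩
    symm
    apply Lp_inj hp
    apply LinearMap.ext
    intro y
    have h4 : ∀ w ∈ degreeLT F (Nk + d), Lp p w = Lp (pa (lin α) Nk d) w := by
      intro w hw
      rw [← hα w hw, pa_eq hNk h1 hw]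
    -- both killing polynomials agree
    have h5 : wp p.1 = wp (pa (lin α) Nk d).1 := by
      by_contra hne
      have h6 : wp p.1 - wp (pa (lin α) Nk d).1 ≠ 0 := sub_ne_zero.2 hne
      have h7 : wp p.1 - wp (pa (lin α) Nk d).1 ∈ degreeLT F d := by
        have : wp p.1 - wp (pa (lin α) Nk d).1 = (p.1 : F[X]) - ((pa (lin α) Nk d).1 : F[X]) := by
          unfold wp; ring
        rw [this]
        exact Submodule.sub_mem _ p.1.2 (pa (lin α) Nk d).1.2
      have h8 : (wp p.1 - wp (pa (lin α) Nk d).1).natDegree < d := by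
        rcases Nat.eq_zero_or_pos d with h0 | hpos
        · subst h0
          exfalso
          apply h6
          ext j
          rw [mem_V_iff.1 h7 j (Nat.zero_le _), coeff_zero]
        · obtain ⟨e, rfl⟩ : ∃ e, d = e + 1 := ⟨d - 1, by omega⟩
          have := mem_V_succ_iff.1 h7
          omega
      apply h1.2 _ h6 h8
      intro y hy
      have h9 : ∀ v : degreeLT F d, wp v * y ∈ degreeLT F (Nk + d) := by
        intro v
        apply V_mono _ (mul_mem_VN (le_refl (wp v).natDegree) hy)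
        rw [wp_natDegree]
      rw [sub_mul, map_sub, hα _ (h9 _), Lp_kill, pa_eq hNk h1 (h9 _), Lp_kill, sub_zero]
    have h10 : y %ₘ wp p.1 ∈ degreeLT F (Nk + d) :=
      V_mono (by omega) (mod_mem (wp_monic _) (wp_natDegree _) y)
    have e1 : Lp p y = Lp p (y %ₘ wp p.1) := Lp_congr p (dvd_sub_mod _ _)
    have e2 : Lp (pa (lin α) Nk d) y = Lp (pa (lin α) Nk d) (y %ₘ wp p.1) := by
      rw [h5]
      exact Lp_congr _ (dvd_sub_mod _ _)
    rw [e1, e2]
    exact h4 _ h10
  apply Finset.card_bij (fun α _ => α - α₀)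
  · intro α hα
    rw [Finset.mem_filter, mem_DN] at hα
    apply mem_Bs_of_lin
    intro w hw
    have h1 : lin (α - α₀) w = lin α w - lin α₀ w := by
      rw [lin_apply, lin_apply, lin_apply, ← Finset.sum_sub_distrib]
      apply Finset.sum_congr rfl
      intro j _
      rw [Pi.sub_apply, sub_mul]
    rw [h1, hα₀' w (V_mono hM hw), pa_eq hNk hα.1 hw, hα.2, sub_self]
  · intro α _ β _ h
    exact sub_left_injective h
  · intro β hβ
    refine ⟨β + α₀, ?_, by simp⟩
    rw [Finset.mem_filter, mem_DN]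
    apply key
    intro y hy
    rw [lin_add, lin_zero_of_mem_Bs hβ hy, zero_add, hα₀' y (V_mono hM hy)]

/-- Sums over a level as sums over minimal pairs. -/
theorem sum_DN_eq {M Nk d : ℕ} (hNk : 1 ≤ Nk) (hd : d ≤ Nk) (hM : Nk + d ≤ M)
    {E : Type*} [Semiring E] (f : Pr F d → E) :
    ∑ α ∈ DN F M Nk d, f (pa (lin α) Nk d)
      = ((Fintype.card F ^ (M - (Nk + d)) : ℕ) : E) * ∑ p ∈ Pm F d, f p := by
  rw [← Finset.sum_fiberwise_of_maps_to (s := DN F M Nk d) (t := Pm F d)
    (g := fun α => pa (lin α) Nk d) (fun α hα => mem_Pm.2 (pa_min hNk (mem_DN.1 hα))),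
    Finset.mul_sum]
  apply Finset.sum_congr rfl
  intro p hp
  have h1 : ∀ α ∈ (DN F M Nk d).filter (fun α => pa (lin α) Nk d = p),
      f (pa (lin α) Nk d) = f p := by
    intro α hα
    rw [(Finset.mem_filter.1 hα).2]
  rw [Finset.sum_congr rfl h1, Finset.sum_const, nsmul_eq_mul,
    fiber_pa hNk hd hM (mem_Pm.1 hp)]

/-- The functionals on the residues modulo `G`, grouped by their minimal annihilators. -/
theorem sum_G {D : ℕ} {G : F[X]} (hG : G.Monic) (hGD : G.natDegree = D)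
    {E : Type*} [AddCommMonoid E] (Φ : (F[X] →ₗ[F] F) → E) :
    ∑ γ : Fin D → F, Φ ((lin γ).comp (modByMonicHom G))
      = ∑ d ∈ Finset.range (D + 1), ∑ p ∈ (Pm F d).filter (fun p => wp p.1 ∣ G), Φ (Lp p) := by
  symm
  rw [Finset.sum_sigma']
  have hmod : ∀ (γ : Fin D → F) (y : F[X]), ((lin γ).comp (modByMonicHom G)) y
      = lin γ (y %ₘ G) := fun _ _ => rfl
  -- the functional attached to a pair
  have hpair : ∀ (d : ℕ) (p : Pr F d), wp p.1 ∣ G →
      (lin (fun j : Fin D => Lp p (X ^ (j : ℕ)))).comp (modByMonicHom G) = Lp p := by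
    intro d p hp
    apply LinearMap.ext
    intro y
    rw [hmod, lin_vec (Lp p) (mod_mem hG hGD y)]
    symm
    exact Lp_congr p (dvd_trans hp (dvd_sub_mod _ _))
  apply Finset.sum_bij (fun (x : Σ d : ℕ, Pr F d) _ => (fun j : Fin D => Lp x.2 (X ^ (j : ℕ))))
  · intro x _
    exact Finset.mem_univ _
  · rintro ⟨d, p⟩ hx ⟨d', p'⟩ hx' h
    rw [Finset.mem_sigma, Finset.mem_filter, mem_Pm] at hx hx'
    have h1 : Lp p = Lp p' := by
      rw [← hpair d p hx.2.2, ← hpair d' p' hx'.2.2]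
      simp only at h
      rw [h]
    have h2 := Lp_deg hx.2.1 hx'.2.1 h1
    subst h2
    obtain rfl : p = p' := Lp_inj hx.2.1 h1
    rfl
  · intro γ _
    set L := (lin γ).comp (modByMonicHom G) with hL
    have hLG : ∀ w, L (G * w) = 0 := by
      intro w
      rw [hL, hmod, (modByMonic_eq_zero_iff_dvd hG).2 (dvd_mul_right _ _), map_zero]
    obtain ⟨d, hdD, p, hpm, hpG, hLr, -⟩ := exists_pair hG hGD hLG
    refine ⟨⟨d, p⟩, ?_, ?_⟩
    · rw [Finset.mem_sigma, Finset.mem_filter, mem_Pm]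
      exact ⟨Finset.mem_range.2 (Nat.lt_succ_of_le hdD), hpm, hpG⟩
    · funext j
      simp only
      rw [← hLr, hL, hmod, mod_eq_self hG hGD, lin_apply, Finset.sum_eq_single j]
      · rw [coeff_X_pow, if_pos rfl, mul_one]
      · intro i _ hi
        rw [coeff_X_pow, if_neg (fun h => hi (Fin.ext h)), mul_zero]
      · intro h; exact absurd (Finset.mem_univ _) h
      · rw [mem_V_iff]
        intro l hl
        rw [coeff_X_pow, if_neg (by omega)]
  · rintro ⟨d, p⟩ hx
    rw [Finset.mem_sigma, Finset.mem_filter, mem_Pm] at hx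
    simp only
    rw [hpair d p hx.2.2]

end

end Pool.Agent.H598.AS
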