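import Pool.Agent.H598.AS.Prim
import Pool.Agent.H598.DG.Diag
import Mathlib.LinearAlgebra.Projectivization.Basic

/-!
# Rational points of given height
-/

namespace Pool.Agent.H598.AS

open Finset Polynomial Pool.Agent.H598.FQ
open Filter Topology
open scoped Classical

variable {F : Type*} [Field F]

/-- The tuple of rational functions. -/
noncomputable def toK {s : ℕ} (x : Fin s → F[X]) : Fin s → RatFunc F :=
  fun i => algebraMap F[X] (RatFunc F) (x i)

lemma toK_ne {s : ℕ} {x : Fin s → F[X]} (hx : x ≠ 0) : toK x ≠ 0 := by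
  intro h
  apply hx
  funext i
  have h1 : algebraMap F[X] (RatFunc F) (x i) = 0 := congrFun h i
  by_contra hne
  exact RatFunc.algebraMap_ne_zero hne h1

/-- All entries have degree at most `P` and one of them has a nonzero coefficient of degree `P`. -/
def MaxDeg {s : ℕ} (P : ℕ) (x : Fin s → F[X]) : Prop :=
  (∀ i, (x i).natDegree ≤ P) ∧ ∃ i, (x i).coeff P ≠ 0

/-- The projective point has height `q ^ P`. -/
def HasHeight {s : ℕ} (P : ℕ) (p : Projectivization (RatFunc F) (Fin s → RatFunc F)) : Prop :=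
  ∃ x : Fin s → F[X], Prim x ∧ MaxDeg P x ∧ ∃ h : toK x ≠ 0, p = Projectivization.mk _ (toK x) h

/-- The projective point lies on the diagonal hypersurface. -/
def OnX {s : ℕ} (k : ℕ) (a : Fin s → F[X]) (p : Projectivization (RatFunc F) (Fin s → RatFunc F)) : Prop :=
  ∑ i, algebraMap F[X] (RatFunc F) (a i) * p.rep i ^ k = 0

lemma onX_mk {s k : ℕ} (a x : Fin s → F[X]) (h : toK x ≠ 0) :
    OnX k a (Projectivization.mk (RatFunc F) (toK x) h) ↔ ∑ i, a i * x i ^ k = 0 := by
  unfold OnX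
  obtain ⟨u, hu⟩ := Projectivization.exists_smul_eq_mk_rep (RatFunc F) (toK x) h
  have h1 : ∀ i, (Projectivization.mk (RatFunc F) (toK x) h).rep i = (u : RatFunc F) * toK x i := by
    intro i
    rw [← hu]
    rfl
  have h2 : ∑ i, algebraMap F[X] (RatFunc F) (a i) *
      (Projectivization.mk (RatFunc F) (toK x) h).rep i ^ k
      = (u : RatFunc F) ^ k * algebraMap F[X] (RatFunc F) (∑ i, a i * x i ^ k) := by
    rw [map_sum, Finset.mul_sum]
    apply Finset.sum_congr rfl
    intro i _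
    rw [h1, map_mul, map_pow]
    unfold toK
    ring
  rw [h2, mul_eq_zero]
  constructor
  · rintro (h3 | h3)
    · exact absurd h3 (pow_ne_zero _ u.ne_zero)
    · by_contra hne
      exact RatFunc.algebraMap_ne_zero hne h3
  · intro h3
    right
    rw [h3, map_zero]

lemma mk_eq {s : ℕ} {x x' : Fin s → F[X]} (hx : Prim x) (hx' : Prim x') (h : toK x ≠ 0)
    (h' : toK x' ≠ 0)
    (he : Projectivization.mk (RatFunc F) (toK x) h = Projectivization.mk (RatFunc F) (toK x') h') :
    ∃ c : F, c ≠ 0 ∧ ∀ i, x i = C c * x' i := by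
  rw [Projectivization.mk_eq_mk_iff] at he
  obtain ⟨l, hl⟩ := he
  have hl0 : (l : RatFunc F) ≠ 0 := l.ne_zero
  apply prim_scale hx hx' (u := (l : RatFunc F).num) (v := (l : RatFunc F).denom)
  · exact RatFunc.num_ne_zero hl0
  · intro i
    have h1 : (l : RatFunc F) * toK x' i = toK x i := by
      rw [← hl]; rfl
    have hd : algebraMap F[X] (RatFunc F) (l : RatFunc F).denom ≠ 0 :=
      RatFunc.algebraMap_ne_zero (RatFunc.denom_ne_zero _)
    have h2 : algebraMap F[X] (RatFunc F) (l : RatFunc F).num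
        = (l : RatFunc F) * algebraMap F[X] (RatFunc F) (l : RatFunc F).denom := by
      have := RatFunc.num_div_denom (l : RatFunc F)
      rwa [div_eq_iff hd] at this
    apply RatFunc.algebraMap_injective F
    rw [map_mul, map_mul, h2]
    unfold toK at h1
    rw [← h1]
    ring

lemma mk_scale {s : ℕ} {x x' : Fin s → F[X]} (h : toK x ≠ 0) (h' : toK x' ≠ 0) {c : F}
    (he : ∀ i, x i = C c * x' i) :
    Projectivization.mk (RatFunc F) (toK x) h = Projectivization.mk (RatFunc F) (toK x') h' := by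
  rw [Projectivization.mk_eq_mk_iff']
  refine ⟨algebraMap F[X] (RatFunc F) (C c), ?_⟩
  funext i
  rw [Pi.smul_apply, smul_eq_mul]
  unfold toK
  rw [he i, map_mul]

lemma prim_C_mul {s : ℕ} {x : Fin s → F[X]} (hx : Prim x) {c : F} (hc : c ≠ 0) :
    Prim (fun i => C c * x i) := by
  intro g hg
  apply hx g
  intro i
  have h1 : IsUnit (C c : F[X]) := isUnit_C.2 hc.isUnit
  exact (h1.dvd_mul_left).1 (hg i)

lemma maxDeg_C_mul {s P : ℕ} {x : Fin s → F[X]} (hx : MaxDeg P x) {c : F} (hc : c ≠ 0) :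
    MaxDeg P (fun i => C c * x i) := by
  refine ⟨fun i => le_trans (natDegree_C_mul_le _ _) (hx.1 i), ?_⟩
  obtain ⟨i, hi⟩ := hx.2
  refine ⟨i, ?_⟩
  simp only
  rw [coeff_C_mul]
  exact mul_ne_zero hc hi

lemma maxDeg_ne {s P : ℕ} {x : Fin s → F[X]} (hx : MaxDeg P x) : x ≠ 0 := by
  rintro rfl
  obtain ⟨i, hi⟩ := hx.2
  apply hi
  rw [Pi.zero_apply, coeff_zero]

lemma maxDeg_uniq {s P P' : ℕ} {x : Fin s → F[X]} (hx : MaxDeg P x) (hx' : MaxDeg P' x) :
    P = P' := by
  obtain ⟨i, hi⟩ := hx.2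
  obtain ⟨j, hj⟩ := hx'.2
  have h1 := le_natDegree_of_ne_zero hi
  have h2 := le_natDegree_of_ne_zero hj
  have h3 := hx.1 j
  have h4 := hx'.1 i
  omega

/-- The height is well defined. -/
lemma height_uniq {s P P' : ℕ} {p : Projectivization (RatFunc F) (Fin s → RatFunc F)} (h : HasHeight P p)
    (h' : HasHeight P' p) : P = P' := by
  obtain ⟨x, hx, hP, hne, hp⟩ := h
  obtain ⟨x', hx', hP', hne', hp'⟩ := h'
  obtain ⟨c, hc, he⟩ := mk_eq hx hx' hne hne' (hp.symm.trans hp')
  have h1 : x = fun i => C c * x' i := funext he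
  rw [h1] at hP
  exact maxDeg_uniq hP (maxDeg_C_mul hP' hc)

/-- Every projective point has a height. -/
lemma exists_height {s : ℕ} (p : Projectivization (RatFunc F) (Fin s → RatFunc F)) : ∃ P, HasHeight P p := by
  -- a common denominator
  obtain ⟨d, hd⟩ := IsLocalization.exist_integer_multiples_of_finite (nonZeroDivisors F[X]) p.rep
  have hd0 : algebraMap F[X] (RatFunc F) d ≠ 0 :=
    RatFunc.algebraMap_ne_zero (nonZeroDivisors.coe_ne_zero d)
  choose y hy using hd
  have hy' : toK y = fun i => algebraMap F[X] (RatFunc F) d * p.rep i := by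
    funext i
    have h1 := hy i
    rw [Algebra.smul_def] at h1
    exact h1
  have hy0 : y ≠ 0 := by
    rintro rfl
    apply p.rep_nonzero
    funext i
    have h1 := congrFun hy' i
    have h2 : toK (0 : Fin s → F[X]) i = 0 := by
      unfold toK
      rw [Pi.zero_apply, map_zero]
    rw [h2] at h1
    exact (mul_eq_zero.1 h1.symm).resolve_left hd0
  obtain ⟨g, x, hg, hx, he⟩ := exists_content hy0
  have hx0 : x ≠ 0 := by
    rintro rfl
    apply hy0
    rw [he]
    funext i
    simp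
  obtain ⟨i₀, hi₀⟩ : ∃ i₀, x i₀ ≠ 0 := by
    by_contra hcon
    push Not at hcon
    exact hx0 (funext hcon)
  obtain ⟨j, hjm, hj⟩ := Finset.exists_max_image (Finset.univ.filter (fun i => x i ≠ 0))
    (fun i => (x i).natDegree) ⟨i₀, by rw [Finset.mem_filter]; exact ⟨Finset.mem_univ _, hi₀⟩⟩
  refine ⟨(x j).natDegree, x, hx, ⟨?_, j, ?_⟩, toK_ne hx0, ?_⟩
  · intro i
    by_cases hi : x i = 0
    · rw [hi, natDegree_zero]; exact Nat.zero_le _
    · exact hj i (by rw [Finset.mem_filter]; exact ⟨Finset.mem_univ _, hi⟩)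
  · exact leadingCoeff_ne_zero.2 (Finset.mem_filter.1 hjm).2
  · have h1 : Projectivization.mk (RatFunc F) p.rep p.rep_nonzero = p := p.mk_rep
    rw [← h1]
    rw [Projectivization.mk_eq_mk_iff']
    refine ⟨algebraMap F[X] (RatFunc F) g / algebraMap F[X] (RatFunc F) d, ?_⟩
    funext i
    rw [Pi.smul_apply, smul_eq_mul, div_mul_eq_mul_div, div_eq_iff hd0]
    have h2 := congrFun hy' i
    rw [he] at h2
    unfold toK at h2 ⊢
    rw [map_mul] at h2
    rw [h2]
    ring

section
variable [Fintype F]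

lemma mem_PP' {k s P : ℕ} {a x : Fin s → F[X]} : x ∈ PP k a P ↔
    MaxDeg P x ∧ ∑ i, a i * x i ^ k = 0 ∧ Prim x := by
  rw [mem_PP]
  unfold MaxDeg
  constructor
  · rintro ⟨⟨⟨h1, h2⟩, h3⟩, h4⟩
    exact ⟨⟨fun i => mem_V_succ_iff.1 (h1 i), h2⟩, h3, h4⟩
  · rintro ⟨⟨h1, h2⟩, h3, h4⟩
    exact ⟨⟨⟨fun i => mem_V_succ_iff.2 (h1 i), h2⟩, h3⟩, h4⟩

/-- The points of height `q ^ P` on the hypersurface. -/
def Pts (k : ℕ) {s : ℕ} (a : Fin s → F[X]) (P : ℕ) : Set (Projectivization (RatFunc F) (Fin s → RatFunc F)) :=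
  {p | OnX k a p ∧ HasHeight P p}

/-- Points and primitive zeros. -/
lemma card_Pts (k : ℕ) {s : ℕ} (a : Fin s → F[X]) (P : ℕ) :
    Nat.card (Pts k a P) * (Fintype.card F - 1) = (PP k a P).card ∧ (Pts k a P).Finite := by
  have hex : ∀ p : Pts k a P, ∃ x : Fin s → F[X], x ∈ PP k a P ∧
      ∃ h : toK x ≠ 0, (p : Projectivization (RatFunc F) (Fin s → RatFunc F)) = Projectivization.mk _ (toK x) h := by
    rintro ⟨p, hp1, x, hx, hP, hne, hp⟩
    refine ⟨x, ?_, hne, hp⟩
    rw [mem_PP']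
    refine ⟨hP, ?_, hx⟩
    rw [hp, onX_mk] at hp1
    exact hp1
  choose x hx hne hp using hex
  let f : Pts k a P × Fˣ → PP k a P := fun z => ⟨fun i => C (z.2 : F) * x z.1 i, by
    have h1 := mem_PP'.1 (hx z.1)
    rw [mem_PP']
    refine ⟨maxDeg_C_mul h1.1 z.2.ne_zero, ?_, prim_C_mul h1.2.2 z.2.ne_zero⟩
    rw [form_scale, h1.2.1, mul_zero]⟩
  have hf : Function.Bijective f := by
    constructor
    · rintro ⟨p, c⟩ ⟨p', c'⟩ h
      have h1 : ∀ i, C (c : F) * x p i = C (c' : F) * x p' i := fun i =>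
        congrFun (congrArg Subtype.val h) i
      have h2 : p = p' := by
        apply Subtype.ext
        rw [hp p, hp p']
        apply mk_scale (hne p) (hne p') (c := (c : F)⁻¹ * c')
        intro i
        rw [C_mul, mul_assoc, ← h1 i, ← mul_assoc, ← C_mul, inv_mul_cancel₀ c.ne_zero, C_1,
          one_mul]
      subst h2
      have h3 := mem_PP'.1 (hx p)
      obtain ⟨i, hi⟩ := h3.1.2
      have h4 : (C (c : F) * x p i).coeff P = (C (c' : F) * x p i).coeff P := by rw [h1 i]
      rw [coeff_C_mul, coeff_C_mul] at h4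
      have h5 : (c : F) = c' := mul_right_cancel₀ hi h4
      rw [Units.ext h5]
    · rintro ⟨y, hy⟩
      have h1 := mem_PP'.1 hy
      have hy0 := toK_ne (maxDeg_ne h1.1)
      let p : Pts k a P := ⟨Projectivization.mk _ (toK y) hy0, by
        refine ⟨(onX_mk a y hy0).2 h1.2.1, y, h1.2.2, h1.1, hy0, rfl⟩⟩
      have h2 := mem_PP'.1 (hx p)
      obtain ⟨c, hc, he⟩ := mk_eq h1.2.2 h2.2.2 hy0 (hne p) (hp p)
      refine ⟨(p, Units.mk0 c hc), ?_⟩
      apply Subtype.ext
      funext i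
      exact (he i).symm
  have h1 : Nat.card (Pts k a P × Fˣ) = (PP k a P).card := by
    rw [Nat.card_eq_of_bijective f hf, Nat.card_eq_fintype_card, Fintype.card_coe]
  rw [Nat.card_prod, Nat.card_eq_fintype_card (α := Fˣ), Fintype.card_units] at h1
  refine ⟨h1, ?_⟩
  have h2 : Finite (Pts k a P × Fˣ) := Finite.of_injective f hf.1
  have h3 : Function.Injective (fun p : Pts k a P => (p, (1 : Fˣ))) := fun p p' h =>
    congrArg Prod.fst h
  have h4 : Finite (Pts k a P) := Finite.of_injective _ h3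
  exact Set.toFinite _

/-- The points of height at most `q ^ P` on the hypersurface. -/
def PtsLe (k : ℕ) {s : ℕ} (a : Fin s → F[X]) (P : ℕ) : Set (Projectivization (RatFunc F)
    (Fin s → RatFunc F)) :=
  {p | OnX k a p ∧ ∃ j, j ≤ P ∧ HasHeight j p}

lemma card_PtsLe (k : ℕ) {s : ℕ} (a : Fin s → F[X]) (P : ℕ) :
    (PtsLe k a P).Finite ∧
      (PtsLe k a P).ncard = ∑ j ∈ Finset.range (P + 1), (Pts k a j).ncard := by
  induction P with
  | zero =>
    have h1 : PtsLe k a 0 = Pts k a 0 := by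
      ext p
      constructor
      · rintro ⟨h1, j, hj, h2⟩
        have : j = 0 := by omega
        subst this
        exact ⟨h1, h2⟩
      · rintro ⟨h1, h2⟩
        exact ⟨h1, 0, le_rfl, h2⟩
    rw [h1, zero_add, Finset.sum_range_one]
    exact ⟨(card_Pts k a 0).2, rfl⟩
  | succ P ih =>
    have h1 : PtsLe k a (P + 1) = PtsLe k a P ∪ Pts k a (P + 1) := by
      ext p
      constructor
      · rintro ⟨h1, j, hj, h2⟩
        rcases Nat.lt_or_ge j (P + 1) with h | h
        · exact Or.inl ⟨h1, j, by omega, h2⟩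
        · have : j = P + 1 := by omega
          subst this
          exact Or.inr ⟨h1, h2⟩
      · rintro (⟨h1, j, hj, h2⟩ | ⟨h1, h2⟩)
        · exact ⟨h1, j, by omega, h2⟩
        · exact ⟨h1, P + 1, le_rfl, h2⟩
    have hfin := (card_Pts k a (P + 1)).2
    refine ⟨?_, ?_⟩
    · rw [h1]; exact ih.1.union hfin
    · rw [h1, Set.ncard_union_eq _ ih.1 hfin, ih.2, Finset.sum_range_succ _ (P + 1)]
      rw [Set.disjoint_left]
      rintro p ⟨-, j, hj, h2⟩ ⟨-, h3⟩
      have := height_uniq h2 h3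
      omega

omit [Field F] [Fintype F] in
/-- Summation of a sequence of geometric growth. -/
lemma tendsto_cumul {u : ℕ → ℝ} {l c : ℝ} (hl : 1 < l)
    (hu : Tendsto (fun P => u P / l ^ P) atTop (𝓝 c)) :
    Tendsto (fun P => (∑ j ∈ Finset.range (P + 1), u j) / l ^ P) atTop (𝓝 (c * (1 - l⁻¹)⁻¹)) := by
  have hl0 : 0 < l := by linarith
  have hli : l⁻¹ < 1 := inv_lt_one_of_one_lt₀ hl
  have h1l : 1 - l⁻¹ ≠ 0 := by linarith
  -- the error terms
  set L := c * (1 - l⁻¹)⁻¹ with hL
  have hLc : L = c + L * l⁻¹ := by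
    have hw : (1 - l⁻¹)⁻¹ * (1 - l⁻¹) = 1 := inv_mul_cancel₀ h1l
    rw [hL]
    linear_combination c * hw
  rw [Metric.tendsto_atTop] at hu
  have key : ∀ ε : ℝ, 0 < ε → ∃ N, ∀ P, N ≤ P →
      |(∑ j ∈ Finset.range (P + 1), u j) / l ^ P - L| < ε := by
    intro ε hε
    have hδ : 0 < ε / 2 * (1 - l⁻¹) := by
      have : 0 < 1 - l⁻¹ := by linarith
      positivity
    obtain ⟨N, hN⟩ := hu _ hδ
    set E : ℕ → ℝ := fun P => |(∑ j ∈ Finset.range (P + 1), u j) / l ^ P - L| with hE
    have hrec : ∀ P, N ≤ P → E (P + 1) ≤ ε / 2 * (1 - l⁻¹) + E P * l⁻¹ := by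
      intro P hP
      have h1 := hN (P + 1) (by omega)
      rw [Real.dist_eq] at h1
      have e : (∑ j ∈ Finset.range (P + 1 + 1), u j) / l ^ (P + 1) - L
          = (u (P + 1) / l ^ (P + 1) - c)
            + ((∑ j ∈ Finset.range (P + 1), u j) / l ^ P - L) * l⁻¹ := by
        conv_lhs => rw [hLc]
        rw [Finset.sum_range_succ _ (P + 1), pow_succ]
        have h2 : l ^ P ≠ 0 := by positivity
        field_simp
        ring
      simp only [hE]
      rw [e]
      refine le_trans (abs_add_le _ _) ?_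
      rw [abs_mul, abs_of_pos (inv_pos.2 hl0)]
      have := h1.le
      linarith
    have hbound : ∀ j, E (N + j) ≤ ε / 2 + E N * (l⁻¹) ^ j := by
      intro j
      induction j with
      | zero =>
        rw [pow_zero, mul_one, add_zero]
        linarith
      | succ j ih =>
        have h1 := hrec (N + j) (by omega)
        rw [← add_assoc]
        have h2 : E (N + j) * l⁻¹ ≤ (ε / 2 + E N * (l⁻¹) ^ j) * l⁻¹ :=
          mul_le_mul_of_nonneg_right ih (by positivity)
        rw [pow_succ]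
        nlinarith
    have h3 : Tendsto (fun j : ℕ => E N * (l⁻¹) ^ j) atTop (𝓝 0) := by
      have := (tendsto_pow_atTop_nhds_zero_of_lt_one (by positivity) hli).const_mul (E N)
      rwa [mul_zero] at this
    rw [Metric.tendsto_atTop] at h3
    obtain ⟨J, hJ⟩ := h3 (ε / 2) (by linarith)
    refine ⟨N + J, fun P hP => ?_⟩
    obtain ⟨j, rfl⟩ : ∃ j, P = N + j := ⟨P - N, by omega⟩
    have h4 := hJ j (by omega)
    rw [Real.dist_eq, sub_zero] at h4
    have h5 := hbound j
    have h6 := le_abs_self (E N * (l⁻¹) ^ j)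
    change E (N + j) < ε
    linarith
  rw [Metric.tendsto_atTop]
  intro ε hε
  obtain ⟨N, hN⟩ := key ε hε
  exact ⟨N, fun P hP => by rw [Real.dist_eq]; exact hN P hP⟩

end

end Pool.Agent.H598.AS
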