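import Pool.Agent.H598.AS.Series

/-!
# Positivity of the singular series
-/

namespace Pool.Agent.H598.AS

open Finset Polynomial Pool.Agent.H598.FQ
open Pool.Agent.H598.DG (GG GG_mul GG_sub dvd_sub_mod mod_eq_of_dvd)
open Pool.Agent.H598.TK (wp wp_monic wp_natDegree wp_inj exists_wp)
open scoped Classical

variable {F : Type*} [Field F]

/-- Two residues of small degree which are congruent are equal. -/
lemma eq_of_dvd_V {E : F[X]} (hE : E.Monic) {y y' : F[X]} (hy : y ∈ degreeLT F E.natDegree)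
    (hy' : y' ∈ degreeLT F E.natDegree) (h : E ∣ y - y') : y = y' := by
  have h1 : y - y' ∈ degreeLT F E.natDegree := Submodule.sub_mem _ hy hy'
  rw [mem_degreeLT, ← degree_eq_natDegree hE.ne_zero] at h1
  exact sub_eq_zero.1 (eq_zero_of_dvd_of_degree_lt h h1)

/-- The value of the form depends only on the residues. -/
lemma form_congr {k s : ℕ} (a : Fin s → F[X]) {x x' : Fin s → F[X]} {G : F[X]}
    (h : ∀ i, G ∣ x i - x' i) : G ∣ ∑ i, a i * x i ^ k - ∑ i, a i * x' i ^ k := by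
  rw [← Finset.sum_sub_distrib]
  apply Finset.dvd_sum
  intro i _
  rw [← mul_sub]
  exact Dvd.dvd.mul_left (dvd_trans (h i) (sub_dvd_pow_sub_pow _ _ _)) _

/-- Normalisation. -/
lemma exists_monic {f : F[X]} (hf : f ≠ 0) : ∃ g : F[X], g.Monic ∧ f ∣ g ∧ g ∣ f := by
  have hu : IsUnit (C f.leadingCoeff⁻¹) := by
    rw [isUnit_C]
    exact (inv_ne_zero (leadingCoeff_ne_zero.2 hf)).isUnit
  refine ⟨f * C f.leadingCoeff⁻¹, monic_mul_leadingCoeff_inv hf, Dvd.intro _ rfl, ?_⟩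
  exact (hu.mul_right_dvd).2 dvd_rfl

/-- Splitting off the part composed of the primes of `B`. -/
lemma exists_split {B : F[X]} : ∀ (n : ℕ) (G : F[X]), G.Monic → G.natDegree = n →
    ∃ G₁ G₂ : F[X], G₁.Monic ∧ G₂.Monic ∧ G = G₁ * G₂ ∧ IsCoprime G₂ B ∧ ∃ N : ℕ, G₁ ∣ B ^ N := by
  intro n
  induction n using Nat.strong_induction_on with
  | _ n ih =>
  intro G hG hn
  by_cases hcop : IsCoprime G B
  · exact ⟨1, G, monic_one, hG, (one_mul G).symm, hcop, 0, one_dvd _⟩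
  · obtain ⟨p, hpm, hp, hpG, hpB⟩ : ∃ p : F[X], p.Monic ∧ Irreducible p ∧ p ∣ G ∧ p ∣ B := by
      by_contra hcon
      push Not at hcon
      apply hcop
      apply isCoprime_of_irreducible_dvd (fun h => hG.ne_zero h.1)
      intro z hz hzG hzB
      obtain ⟨g, hg, hzg, hgz⟩ := exists_monic hz.ne_zero
      have hass : Associated z g := associated_of_dvd_dvd hzg hgz
      exact hcon g hg (hass.irreducible hz) (dvd_trans hgz hzG) (dvd_trans hgz hzB)
    obtain ⟨G', rfl⟩ := hpG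
    have hG' : G'.Monic := hpm.of_mul_monic_left hG
    have hd : G'.natDegree < n := by
      rw [← hn, hpm.natDegree_mul hG']
      have := hp.natDegree_pos
      omega
    obtain ⟨G₁, G₂, m1, m2, h1, h2, N, h3⟩ := ih _ hd G' hG' rfl
    refine ⟨p * G₁, G₂, hpm.mul m1, m2, by rw [h1]; ring, h2, N + 1, ?_⟩
    rw [pow_succ']
    exact mul_dvd_mul hpB h3

section
variable [Fintype F]

/-- The density modulo `G`. -/
noncomputable def dn (k : ℕ) {s : ℕ} (a : Fin s → F[X]) (m G : F[X]) : ℝ :=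
  (NG k a m G : ℝ) * (Fintype.card F : ℝ) ^ G.natDegree / ((Fintype.card F : ℝ) ^ G.natDegree) ^ s

lemma dn_nonneg (k : ℕ) {s : ℕ} (a : Fin s → F[X]) (m G : F[X]) : 0 ≤ dn k a m G := by
  unfold dn
  positivity

lemma dn_cast (k : ℕ) {s : ℕ} (a : Fin s → F[X]) (m G : F[X]) :
    ((dn k a m G : ℝ) : ℂ) = (NG k a m G : ℂ) * (Fintype.card F : ℂ) ^ G.natDegree
        / ((Fintype.card F : ℂ) ^ G.natDegree) ^ s := by
  unfold dn
  push_cast
  rfl

/-- Multiplicativity. -/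
lemma NG_mul (k : ℕ) {s : ℕ} (a : Fin s → F[X]) (m : F[X]) {G₁ G₂ : F[X]} (h₁ : G₁.Monic)
    (h₂ : G₂.Monic) (hc : IsCoprime G₁ G₂) :
    NG k a m G₁ * NG k a m G₂ ≤ NG k a m (G₁ * G₂) := by
  obtain ⟨u, v, huv⟩ := hc
  unfold NG
  rw [← Finset.card_product]
  have hM : (G₁ * G₂).Monic := h₁.mul h₂
  let f : F[X] → F[X] → F[X] := fun z₁ z₂ => (z₁ * (v * G₂) + z₂ * (u * G₁)) %ₘ (G₁ * G₂)
  have hf : ∀ z₁ z₂, f z₁ z₂ ∈ degreeLT F (G₁ * G₂).natDegree := fun z₁ z₂ => mod_mem hM rfl _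
  have hf1 : ∀ z₁ z₂, G₁ ∣ f z₁ z₂ - z₁ := by
    intro z₁ z₂
    obtain ⟨c, hc⟩ := dvd_sub_mod (G₁ * G₂) (z₁ * (v * G₂) + z₂ * (u * G₁))
    refine ⟨(z₂ - z₁) * u - G₂ * c, ?_⟩
    simp only [f]
    linear_combination (-1 : F[X]) * hc + z₁ * huv
  have hf2 : ∀ z₁ z₂, G₂ ∣ f z₁ z₂ - z₂ := by
    intro z₁ z₂
    obtain ⟨c, hc⟩ := dvd_sub_mod (G₁ * G₂) (z₁ * (v * G₂) + z₂ * (u * G₁))
    refine ⟨(z₁ - z₂) * v - G₁ * c, ?_⟩
    simp only [f]
    linear_combination (-1 : F[X]) * hc + z₂ * huv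
  apply Finset.card_le_card_of_injOn (fun z => fun i => ⟨f (z.1 i) (z.2 i), hf _ _⟩)
  · intro z hz
    rw [Finset.mem_coe, Finset.mem_product, Finset.mem_filter, Finset.mem_filter] at hz
    rw [Finset.mem_coe, Finset.mem_filter]
    refine ⟨Finset.mem_univ _, ?_⟩
    apply IsCoprime.mul_dvd ⟨u, v, huv⟩
    · have h3 := form_congr (k := k) a (fun i => hf1 (z.1 i : F[X]) (z.2 i : F[X]))
      have h4 := dvd_add h3 hz.1.2
      rwa [sub_add_sub_cancel] at h4
    · have h3 := form_congr (k := k) a (fun i => hf2 (z.1 i : F[X]) (z.2 i : F[X]))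
      have h4 := dvd_add h3 hz.2.2
      rwa [sub_add_sub_cancel] at h4
  · intro z _ z' _ h
    have h3 : ∀ i, f (z.1 i) (z.2 i) = f (z'.1 i) (z'.2 i) := fun i =>
      congrArg Subtype.val (congrFun h i)
    apply Prod.ext
    · funext i
      apply Subtype.ext
      apply eq_of_dvd_V h₁ (z.1 i).2 (z'.1 i).2
      have h4 := hf1 (z.1 i : F[X]) (z.2 i : F[X])
      have h5 := hf1 (z'.1 i : F[X]) (z'.2 i : F[X])
      rw [← h3 i] at h5
      have h6 := dvd_sub h5 h4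
      have e : f (z.1 i) (z.2 i) - (z'.1 i : F[X]) - (f (z.1 i) (z.2 i) - (z.1 i : F[X]))
          = (z.1 i : F[X]) - (z'.1 i : F[X]) := by ring
      rwa [e] at h6
    · funext i
      apply Subtype.ext
      apply eq_of_dvd_V h₂ (z.2 i).2 (z'.2 i).2
      have h4 := hf2 (z.1 i : F[X]) (z.2 i : F[X])
      have h5 := hf2 (z'.1 i : F[X]) (z'.2 i : F[X])
      rw [← h3 i] at h5
      have h6 := dvd_sub h5 h4
      have e : f (z.1 i) (z.2 i) - (z'.2 i : F[X]) - (f (z.1 i) (z.2 i) - (z.2 i : F[X]))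
          = (z.2 i : F[X]) - (z'.2 i : F[X]) := by ring
      rwa [e] at h6

lemma dn_mul (k : ℕ) {s : ℕ} (a : Fin s → F[X]) (m : F[X]) {G₁ G₂ : F[X]} (h₁ : G₁.Monic)
    (h₂ : G₂.Monic) (hc : IsCoprime G₁ G₂) :
    dn k a m G₁ * dn k a m G₂ ≤ dn k a m (G₁ * G₂) := by
  unfold dn
  have hq0 : (0 : ℝ) < Fintype.card F := by exact_mod_cast Fintype.card_pos
  have h3 : (NG k a m G₁ : ℝ) * (NG k a m G₂ : ℝ) ≤ (NG k a m (G₁ * G₂) : ℝ) := by
    exact_mod_cast NG_mul k a m h₁ h₂ hc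
  rw [h₁.natDegree_mul h₂, pow_add, mul_pow, div_mul_div_comm]
  apply div_le_div_of_nonneg_right _ (by positivity)
  calc _ = ((NG k a m G₁ : ℝ) * (NG k a m G₂ : ℝ)) *
        ((Fintype.card F : ℝ) ^ G₁.natDegree * (Fintype.card F : ℝ) ^ G₂.natDegree) := by ring
    _ ≤ _ := mul_le_mul_of_nonneg_right h3 (by positivity)

omit [Fintype F] in
/-- The increment of one variable near a nonsingular solution. -/
lemma incr {k : ℕ} (a b w B : F[X]) (hw : w = (k : F[X]) * a * b ^ (k - 1)) (hwB : w * B ≠ 0) :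
    ∃ ρ : F[X] → F[X], (∀ y, a * (b + w * B * y) ^ k - a * b ^ k = w ^ 2 * B * ρ y) ∧
      ∀ y y', ∃ S, ρ y - ρ y' = (y - y') * (1 + B * S) := by
  have hw0 : w ≠ 0 := left_ne_zero_of_mul hwB
  -- the sum is congruent to the derivative
  have h1 : ∀ y y' : F[X], ∃ S, a * ∑ j ∈ Finset.range k,
      (b + w * B * y) ^ j * (b + w * B * y') ^ (k - 1 - j) = w * (1 + B * S) := by
    intro y y'
    have h2 : w * B ∣ ∑ j ∈ Finset.range k,
        ((b + w * B * y) ^ j * (b + w * B * y') ^ (k - 1 - j) - b ^ (k - 1)) := by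
      apply Finset.dvd_sum
      intro j hj
      have hj' := Finset.mem_range.1 hj
      have e1 : w * B ∣ (b + w * B * y) ^ j - b ^ j := by
        refine dvd_trans ?_ (sub_dvd_pow_sub_pow _ _ _)
        exact ⟨y, by ring⟩
      have e2 : w * B ∣ (b + w * B * y') ^ (k - 1 - j) - b ^ (k - 1 - j) := by
        refine dvd_trans ?_ (sub_dvd_pow_sub_pow _ _ _)
        exact ⟨y', by ring⟩
      have e3 : b ^ (k - 1) = b ^ j * b ^ (k - 1 - j) := by
        rw [← pow_add]; congr 1; omega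
      have e4 : (b + w * B * y) ^ j * (b + w * B * y') ^ (k - 1 - j) - b ^ (k - 1)
          = ((b + w * B * y) ^ j - b ^ j) * (b + w * B * y') ^ (k - 1 - j)
            + b ^ j * ((b + w * B * y') ^ (k - 1 - j) - b ^ (k - 1 - j)) := by
        rw [e3]; ring
      rw [e4]
      exact dvd_add (Dvd.dvd.mul_right e1 _) (Dvd.dvd.mul_left e2 _)
    obtain ⟨S, hS⟩ := h2
    rw [Finset.sum_sub_distrib, Finset.sum_const, Finset.card_range, nsmul_eq_mul] at hS
    refine ⟨a * S, ?_⟩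
    have e5 : ∑ j ∈ Finset.range k, (b + w * B * y) ^ j * (b + w * B * y') ^ (k - 1 - j)
        = (k : F[X]) * b ^ (k - 1) + w * B * S := by rw [← hS]; ring
    rw [e5]
    linear_combination (-1 : F[X]) * hw
  have h3 : ∀ y, w ∣ GG k a b (w * B) y := by
    intro y
    obtain ⟨S, hS⟩ := h1 y 0
    have h4 := GG_sub k a b hwB y 0
    have h5 : GG k a b (w * B) 0 = 0 := by unfold GG; ring
    rw [h5, sub_zero, sub_zero] at h4
    rw [h4]
    refine ⟨y * (1 + B * S), ?_⟩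
    linear_combination y * hS
  choose ρ hρ using h3
  refine ⟨ρ, ?_, ?_⟩
  · intro y
    have h4 := GG_mul k a b (w * B) y
    rw [hρ y] at h4
    linear_combination (-1 : F[X]) * h4
  · intro y y'
    obtain ⟨S, hS⟩ := h1 y y'
    refine ⟨S, ?_⟩
    have h4 := GG_sub k a b hwB y y'
    apply mul_left_cancel₀ hw0
    rw [hρ y, hρ y'] at h4
    linear_combination h4 + (y - y') * hS

/-- Solving for one variable. -/
lemma solve_one {B E : F[X]} (hE : E.Monic) {N : ℕ} (hEB : E ∣ B ^ N) {ρ : F[X] → F[X]}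
    (hρ : ∀ y y', ∃ S, ρ y - ρ y' = (y - y') * (1 + B * S)) (c : F[X]) :
    ∃ y ∈ degreeLT F E.natDegree, E ∣ c + ρ y := by
  let φ : degreeLT F E.natDegree → degreeLT F E.natDegree := fun y =>
    ⟨ρ (y : F[X]) %ₘ E, mod_mem hE rfl _⟩
  have hinj : Function.Injective φ := by
    intro y y' h
    have h1 : ρ (y : F[X]) %ₘ E = ρ (y' : F[X]) %ₘ E := congrArg Subtype.val h
    have h2 : E ∣ ρ (y : F[X]) - ρ (y' : F[X]) := by
      have h3 := dvd_sub (dvd_sub_mod E (ρ (y : F[X]))) (dvd_sub_mod E (ρ (y' : F[X])))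
      rw [h1] at h3
      rwa [sub_sub_sub_cancel_right] at h3
    obtain ⟨S, hS⟩ := hρ y y'
    rw [hS] at h2
    have hcop : IsCoprime E (1 + B * S) := by
      have h4 : IsCoprime (B ^ N) (1 + B * S) := by
        apply IsCoprime.pow_left
        refine ⟨-S, 1, by ring⟩
      exact h4.of_isCoprime_of_dvd_left hEB
    apply Subtype.ext
    exact eq_of_dvd_V hE y.2 y'.2 (hcop.dvd_of_dvd_mul_right h2)
  obtain ⟨y, hy⟩ := (Finite.injective_iff_surjective.1 hinj) ⟨(-c) %ₘ E, mod_mem hE rfl _⟩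
  refine ⟨y, y.2, ?_⟩
  have h1 : ρ (y : F[X]) %ₘ E = (-c) %ₘ E := congrArg Subtype.val hy
  have h3 := dvd_sub (dvd_sub_mod E (ρ (y : F[X]))) (dvd_sub_mod E (-c))
  rw [h1, sub_sub_sub_cancel_right, sub_neg_eq_add, add_comm] at h3
  exact h3

/-- Many solutions modulo `G` near a nonsingular solution. -/
lemma NG_hensel {k s : ℕ} (a : Fin s → F[X]) {m : F[X]} {z : Fin s → F[X]}
    (hz : ∑ i, a i * z i ^ k = m) {j : Fin s} {w B : F[X]}
    (hw : w = (k : F[X]) * a j * z j ^ (k - 1)) (hwB : w * B ≠ 0) {G E : F[X]} (hG : G.Monic)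
    (hE : E.Monic) (hGE : G ∣ w ^ 2 * B * E) (hEG : w ^ 2 * B * E ∣ G) {N : ℕ}
    (hEB : E ∣ B ^ N) :
    (Fintype.card F ^ E.natDegree) ^ s ≤ NG k a m G * Fintype.card F ^ E.natDegree := by
  obtain ⟨ρ, hρ1, hρ2⟩ := incr (k := k) (a j) (z j) w B hw hwB
  have hw0 : w ≠ 0 := left_ne_zero_of_mul hwB
  have hB0 : B ≠ 0 := right_ne_zero_of_mul hwB
  have hN0 : w ^ 2 * B ≠ 0 := mul_ne_zero (pow_ne_zero _ hw0) hB0
  -- the contribution of the other variables
  let c : (Fin s → degreeLT F E.natDegree) → F[X] := fun y =>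
    ∑ i ∈ Finset.univ.erase j, GG k (a i) (z i) (w ^ 2 * B) (y i : F[X])
  choose v hv hvE using fun y => solve_one hE hEB hρ2 (c y)
  let ζ : (Fin s → degreeLT F E.natDegree) → Fin s → F[X] := fun y i =>
    if i = j then z j + w * B * v y else z i + w ^ 2 * B * (y i : F[X])
  have hζj : ∀ y, ζ y j = z j + w * B * v y := by
    intro y; simp only [ζ, if_true]
  have hζi : ∀ y i, i ≠ j → ζ y i = z i + w ^ 2 * B * (y i : F[X]) := by
    intro y i hi
    simp only [ζ]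
    rw [if_neg hi]
  have hform : ∀ y, G ∣ ∑ i, a i * ζ y i ^ k - m := by
    intro y
    have h1 : ∑ i, a i * ζ y i ^ k - m = w ^ 2 * B * (c y + ρ (v y)) := by
      rw [← hz, ← Finset.sum_sub_distrib, ← Finset.sum_erase_add _ _ (Finset.mem_univ j), hζj,
        hρ1, mul_add]
      congr 1
      simp only [c]
      rw [Finset.mul_sum]
      apply Finset.sum_congr rfl
      intro i hi
      rw [hζi y i (Finset.ne_of_mem_erase hi), GG_mul]
      ring
    rw [h1]
    exact dvd_trans hGE (mul_dvd_mul_left _ (hvE y))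
  have hcard : (Fintype.card F ^ E.natDegree) ^ s
      = (Finset.univ : Finset (Fin s → degreeLT F E.natDegree)).card := by
    rw [Finset.card_univ, Fintype.card_fun, card_V, Fintype.card_fin]
  have hcard2 : Fintype.card F ^ E.natDegree
      = (Finset.univ : Finset (degreeLT F E.natDegree)).card := by
    rw [Finset.card_univ, card_V]
  rw [hcard]
  conv_rhs => rw [hcard2]
  unfold NG
  rw [← Finset.card_product]
  apply Finset.card_le_card_of_injOn
    (fun y => ((fun i => ⟨ζ y i %ₘ G, mod_mem hG rfl _⟩ : Fin s → degreeLT F G.natDegree), y j))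
  · intro y _
    rw [Finset.mem_coe, Finset.mem_product]
    refine ⟨?_, Finset.mem_univ _⟩
    rw [Finset.mem_filter]
    refine ⟨Finset.mem_univ _, ?_⟩
    have h3 : G ∣ ∑ i, a i * (ζ y i %ₘ G) ^ k - ∑ i, a i * ζ y i ^ k := by
      apply form_congr
      intro i
      have := dvd_sub_mod G (ζ y i)
      rw [← dvd_neg, neg_sub] at this
      exact this
    have h4 := dvd_add h3 (hform y)
    rwa [sub_add_sub_cancel] at h4
  · intro y _ y' _ h
    have hj : y j = y' j := congrArg Prod.snd h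
    funext i
    by_cases hi : i = j
    · rw [hi]; exact hj
    have h1 : ζ y i %ₘ G = ζ y' i %ₘ G :=
      congrArg Subtype.val (congrFun (congrArg Prod.fst h) i)
    have h3 := dvd_sub (dvd_sub_mod G (ζ y i)) (dvd_sub_mod G (ζ y' i))
    rw [h1, sub_sub_sub_cancel_right, hζi y i hi, hζi y' i hi] at h3
    have e : z i + w ^ 2 * B * (y i : F[X]) - (z i + w ^ 2 * B * (y' i : F[X]))
        = w ^ 2 * B * ((y i : F[X]) - (y' i : F[X])) := by ring
    rw [e] at h3
    apply Subtype.ext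
    exact eq_of_dvd_V hE (y i).2 (y' i).2 ((mul_dvd_mul_iff_left hN0).1 (dvd_trans hEG h3))

lemma dn_hensel {k s : ℕ} (hs : 1 ≤ s) (a : Fin s → F[X]) {m : F[X]} {z : Fin s → F[X]}
    (hz : ∑ i, a i * z i ^ k = m) {j : Fin s} {w B : F[X]}
    (hw : w = (k : F[X]) * a j * z j ^ (k - 1)) (hwB : w * B ≠ 0) {G : F[X]} (hG : G.Monic)
    (hdvd : w ^ 2 * B ∣ G) {N : ℕ} (hGB : G ∣ B ^ N) :
    (((Fintype.card F : ℝ) ^ (w ^ 2 * B).natDegree) ^ (s - 1))⁻¹ ≤ dn k a m G := by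
  have hw0 : w ≠ 0 := left_ne_zero_of_mul hwB
  have hB0 : B ≠ 0 := right_ne_zero_of_mul hwB
  have hN0 : w ^ 2 * B ≠ 0 := mul_ne_zero (pow_ne_zero _ hw0) hB0
  obtain ⟨E', hE'⟩ := hdvd
  have hE'0 : E' ≠ 0 := by
    rintro rfl
    rw [mul_zero] at hE'
    exact hG.ne_zero hE'
  obtain ⟨E, hE, h1, h2⟩ := exists_monic hE'0
  have h3 := NG_hensel a hz hw hwB hG hE (by rw [hE']; exact mul_dvd_mul_left _ h1)
    (by rw [hE']; exact mul_dvd_mul_left _ h2) (dvd_trans h2 (dvd_trans (by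
      rw [hE']; exact Dvd.intro_left _ rfl) hGB))
  have hdeg : G.natDegree = (w ^ 2 * B).natDegree + E.natDegree := by
    rw [hE', natDegree_mul hN0 hE'0]
    congr 1
    exact le_antisymm (natDegree_le_of_dvd h1 hE.ne_zero) (natDegree_le_of_dvd h2 hE'0)
  have hq0 : (0 : ℝ) < Fintype.card F := by exact_mod_cast Fintype.card_pos
  set q : ℝ := (Fintype.card F : ℝ) with hq
  have h4 : (q ^ E.natDegree) ^ s ≤ (NG k a m G : ℝ) * q ^ E.natDegree := by
    rw [hq]; exact_mod_cast h3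
  unfold dn
  rw [← hq, hdeg, pow_add, mul_pow]
  set x := q ^ (w ^ 2 * B).natDegree with hx
  set y := q ^ E.natDegree with hy
  have hx0 : 0 < x := by positivity
  have hy0 : 0 < y := by positivity
  have e : x ^ s = x ^ (s - 1) * x := by
    rw [← pow_succ]; congr 1; omega
  rw [le_div_iff₀ (by positivity), e]
  calc (x ^ (s - 1))⁻¹ * (x ^ (s - 1) * x * y ^ s) = x * y ^ s := by
        field_simp
    _ ≤ x * ((NG k a m G : ℝ) * y) := mul_le_mul_of_nonneg_left h4 hx0.le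
    _ = _ := by ring

section
variable {ψ : AddChar F ℂ} (hψ : ψ ≠ 1) {k : ℕ} (hk : 2 ≤ k)
  (hch : ∀ i : ℕ, 1 ≤ i → i ≤ k → ((i : ℕ) : F) ≠ 0) (hbig : Big (Fintype.card F) k)
  {s : ℕ} (hs : 2 * k + 1 ≤ s) {a : Fin s → F[X]} (ha : ∀ i, a i ≠ 0)

include hψ in
lemma Ad_zero (m : F[X]) : Ad ψ k a m 0 = 1 := by
  have h3 := dens_formula hψ k a m (monic_one (R := F))
  rw [natDegree_one, zero_add, Finset.sum_range_one] at h3
  unfold Ad
  have h4 : (Pm F 0).filter (fun p => wp p.1 ∣ (1 : F[X])) = Pm F 0 := by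
    apply Finset.filter_true_of_mem
    intro p _
    have h5 : wp p.1 = 1 := by
      have := wp_natDegree p.1
      exact (wp_monic p.1).natDegree_eq_zero.1 this
    rw [h5]
  rw [h4] at h3
  rw [← h3]
  have h6 : NG k a m 1 = 1 := by
    unfold NG
    rw [Finset.filter_true_of_mem (fun _ _ => one_dvd _), Finset.card_univ, Fintype.card_fun,
      card_V, natDegree_one]
    simp
  rw [h6]
  simp

include hψ hk hch hbig hs ha in
/-- The density of a modulus without small prime factors. -/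
lemma dn_coprime (m : F[X]) {D : ℕ} {G : F[X]} (hG : G.Monic)
    (hD : ∀ g : F[X], g.Monic → 1 ≤ g.natDegree → g.natDegree ≤ D → ¬ g ∣ G) :
    |dn k a m G - 1| ≤ Ca F a / (15 * 16 ^ D) := by
  have hn : |dn k a m G - 1| = ‖((dn k a m G : ℝ) : ℂ) - 1‖ := by
    rw [← Complex.ofReal_one, ← Complex.ofReal_sub, Complex.norm_real, Real.norm_eq_abs]
  rw [hn, dn_cast, dens_formula hψ k a m hG, Finset.sum_range_succ']
  have h0 : ∑ p ∈ (Pm F 0).filter (fun p => wp p.1 ∣ G), tau ψ k a m p = 1 := by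
    rw [← Ad_zero hψ (k := k) (a := a) m]
    unfold Ad
    rw [Finset.filter_true_of_mem]
    intro p _
    have h5 : wp p.1 = 1 := by
      have := wp_natDegree p.1
      exact (wp_monic p.1).natDegree_eq_zero.1 this
    rw [h5]
    exact one_dvd _
  rw [h0, add_sub_cancel_right]
  have hCa := Ca_nonneg a
  have h1 : ∀ d, ‖∑ p ∈ (Pm F (d + 1)).filter (fun p => wp p.1 ∣ G), tau ψ k a m p‖
      ≤ if d + 1 ≤ D then 0 else Ca F a / 16 ^ (d + 1) := by
    intro d
    split_ifs with hd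
    · rw [Finset.filter_false_of_mem, Finset.sum_empty, norm_zero]
      intro p _
      apply hD _ (wp_monic _)
      · rw [wp_natDegree]; omega
      · rw [wp_natDegree]; exact hd
    · refine le_trans (norm_sum_le _ _) ?_
      refine le_trans (Finset.sum_le_sum_of_subset_of_nonneg (Finset.filter_subset _ _)
        (fun _ _ _ => norm_nonneg _)) ?_
      exact tau_bound hψ hk hch hbig hs ha m _
  refine le_trans (norm_sum_le _ _) (le_trans (Finset.sum_le_sum (fun d _ => h1 d)) ?_)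
  have h2 : ∀ d, (0 : ℝ) ≤ if d + 1 ≤ D then 0 else Ca F a / 16 ^ (d + 1) := by
    intro d
    split_ifs
    · exact le_rfl
    · positivity
  refine le_trans (Finset.sum_le_sum_of_subset_of_nonneg
    (Finset.range_mono (show G.natDegree ≤ D + G.natDegree by omega)) (fun d _ _ => h2 d)) ?_
  rw [Finset.sum_range_add]
  have h3 : ∑ d ∈ Finset.range D, (if d + 1 ≤ D then (0 : ℝ) else Ca F a / 16 ^ (d + 1)) = 0 := by
    apply Finset.sum_eq_zero
    intro d hd
    rw [if_pos (by have := Finset.mem_range.1 hd; omega)]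
  rw [h3, zero_add]
  have h4 : ∀ e ∈ Finset.range G.natDegree,
      (if D + e + 1 ≤ D then (0 : ℝ) else Ca F a / 16 ^ (D + e + 1))
      = (Ca F a / 16 ^ D) * (1 / 16 ^ (e + 1)) := by
    intro e _
    rw [if_neg (by omega), show D + e + 1 = D + (e + 1) by ring, pow_add]
    field_simp
  rw [Finset.sum_congr rfl h4, ← Finset.mul_sum]
  calc (Ca F a / 16 ^ D) * ∑ e ∈ Finset.range G.natDegree, (1 : ℝ) / 16 ^ (e + 1)
      ≤ (Ca F a / 16 ^ D) * (1 / 15) := by
        apply mul_le_mul_of_nonneg_left (DG.geo16 _) (by positivity)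
    _ = _ := by field_simp

include hψ hk hch hbig hs ha in
lemma dn_close (m : F[X]) {D : ℕ} {G : F[X]} (hG : G.Monic)
    (hdvd : ∀ g : F[X], g.Monic → g.natDegree ≤ D → g ∣ G) :
    |dn k a m G - (SSer ψ k a m).re| ≤ 2 * (Ca F a / (15 * 16 ^ D)) := by
  have h1 := dens_close hψ hk hch hbig hs ha m hG hdvd
  rw [← dn_cast] at h1
  have h2 := Complex.abs_re_le_norm (((dn k a m G : ℝ) : ℂ) - SSer ψ k a m)
  rw [Complex.sub_re, Complex.ofReal_re] at h2
  exact le_trans h2 h1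

omit [Fintype F] in
lemma exists_D {C ε : ℝ} (hε : 0 < ε) : ∃ D : ℕ, C / (15 * 16 ^ D) ≤ ε := by
  obtain ⟨R₁, h1⟩ := exists_nat_gt (C / ε)
  refine ⟨R₁, ?_⟩
  have h2 : (R₁ : ℝ) ≤ 16 ^ R₁ := by
    have : R₁ ≤ 16 ^ R₁ := (Nat.lt_pow_self (by norm_num)).le
    exact_mod_cast this
  rw [div_lt_iff₀ hε] at h1
  rw [div_le_iff₀ (by positivity)]
  have h4 : (R₁ : ℝ) * ε ≤ 16 ^ R₁ * ε := mul_le_mul_of_nonneg_right h2 hε.le
  nlinarith

include hψ hk hch hbig hs ha in
/-- **Positivity of the singular series** for a polynomial represented nontrivially. -/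
theorem SSer_pos {m : F[X]} {z : Fin s → F[X]} (hz : ∑ i, a i * z i ^ k = m) {j : Fin s}
    (hj : z j ≠ 0) : 0 < (SSer ψ k a m).re := by
  have hkF : (k : F[X]) ≠ 0 := by
    rw [← map_natCast (C : F →+* F[X])]
    exact C_ne_zero.2 (hch k (by omega) le_rfl)
  obtain ⟨D, hD⟩ := exists_D (C := Ca F a) (show (0 : ℝ) < 1 / 2 by norm_num)
  obtain ⟨H, hH, hHd⟩ := exists_modulus F D
  obtain ⟨w, hw⟩ : ∃ w : F[X], w = (k : F[X]) * a j * z j ^ (k - 1) := ⟨_, rfl⟩
  have hw0 : w ≠ 0 := by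
    rw [hw]; exact mul_ne_zero (mul_ne_zero hkF (ha j)) (pow_ne_zero _ hj)
  obtain ⟨B, hB⟩ : ∃ B : F[X], B = w * H := ⟨_, rfl⟩
  have hB0 : B ≠ 0 := by rw [hB]; exact mul_ne_zero hw0 hH.ne_zero
  have hwB : w * B ≠ 0 := mul_ne_zero hw0 hB0
  have hN0 : w ^ 2 * B ≠ 0 := mul_ne_zero (pow_ne_zero _ hw0) hB0
  have hq0 : (0 : ℝ) < Fintype.card F := by exact_mod_cast Fintype.card_pos
  set c : ℝ := (((Fintype.card F : ℝ) ^ (w ^ 2 * B).natDegree) ^ (s - 1))⁻¹ with hc
  have hc0 : 0 < c := by positivity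
  obtain ⟨D', hD'⟩ := exists_D (C := Ca F a) (show (0 : ℝ) < c / 8 by positivity)
  obtain ⟨H', hH', hHd'⟩ := exists_modulus F D'
  obtain ⟨G, hG, hG1, hG2⟩ := exists_monic (mul_ne_zero hN0 hH'.ne_zero)
  obtain ⟨G₁, G₂, m1, m2, hGG, hcop, N, hN⟩ := exists_split (B := B) _ G hG rfl
  have hwdB : w ∣ B := by rw [hB]; exact Dvd.intro _ rfl
  have hcop2 : IsCoprime (w ^ 2 * B) G₂ := by
    apply IsCoprime.mul_left
    · apply IsCoprime.pow_left
      exact (hcop.of_isCoprime_of_dvd_right hwdB).symm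
    · exact hcop.symm
  have hdvd1 : w ^ 2 * B ∣ G₁ := by
    apply hcop2.dvd_of_dvd_mul_right
    rw [← hGG]
    exact dvd_trans (Dvd.intro _ rfl) hG1
  have h1 : c ≤ dn k a m G₁ := dn_hensel (by omega) a hz hw hwB m1 hdvd1 hN
  have h2 : 1 / 2 ≤ dn k a m G₂ := by
    have h3 := dn_coprime hψ hk hch hbig hs ha m (D := D) m2 (by
      intro g hg hg1 hgD hgG
      have h4 : g ∣ B := by rw [hB]; exact Dvd.dvd.mul_left (hHd g hg hgD) _
      have h5 := hcop.isUnit_of_dvd' hgG h4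
      rw [isUnit_iff_degree_eq_zero, degree_eq_natDegree hg.ne_zero] at h5
      have : g.natDegree = 0 := by exact_mod_cast h5
      omega)
    have h4 := (abs_le.1 (le_trans h3 hD)).1
    linarith
  have h3 : c / 2 ≤ dn k a m G := by
    rw [hGG]
    refine le_trans ?_ (dn_mul k a m m1 m2 (by
      have : IsCoprime (B ^ N) G₂ := IsCoprime.pow_left hcop.symm
      exact this.of_isCoprime_of_dvd_left hN))
    have := mul_le_mul h1 h2 (by norm_num) (dn_nonneg k a m G₁)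
    linarith
  have h4 := dn_close hψ hk hch hbig hs ha m (D := D') hG (fun g hg hgD =>
    dvd_trans (hHd' g hg hgD) (dvd_trans (Dvd.intro_left _ rfl) hG1))
  have h5 := (abs_le.1 (le_trans h4 (mul_le_mul_of_nonneg_left hD' (by norm_num)))).2
  linarith

end

end

end Pool.Agent.H598.AS
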