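import Pool.Agent.H598.AS.Box
import Pool.Agent.H598.AS.Pos

/-!
# Primitive zeros
-/

namespace Pool.Agent.H598.AS

open Finset Polynomial Pool.Agent.H598.FQ
open Pool.Agent.H598.TK (wp wp_monic wp_natDegree wp_inj exists_wp)
open Filter Topology
open scoped Classical

variable {F : Type*} [Field F]

/-- The entries have no common factor. -/
def Prim {s : ℕ} (x : Fin s → F[X]) : Prop := ∀ g : F[X], (∀ i, g ∣ x i) → IsUnit g

/-- The generator of the ideal spanned by the entries. -/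
lemma exists_gen {s : ℕ} (x : Fin s → F[X]) :
    ∃ g : F[X], (∀ i, g ∣ x i) ∧ ∃ c : Fin s → F[X], ∑ i, c i * x i = g := by
  set I := Ideal.span (Set.range x) with hI
  refine ⟨Submodule.IsPrincipal.generator I, ?_, ?_⟩
  · intro i
    rw [← Submodule.IsPrincipal.mem_iff_generator_dvd]
    exact Ideal.subset_span ⟨i, rfl⟩
  · have h := Submodule.IsPrincipal.generator_mem I
    rw [hI, Ideal.mem_span_range_iff_exists_fun] at h
    exact h

lemma prim_bezout {s : ℕ} {x : Fin s → F[X]} (hx : Prim x) :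
    ∃ c : Fin s → F[X], ∑ i, c i * x i = 1 := by
  obtain ⟨g, hg, c, hc⟩ := exists_gen x
  obtain ⟨u, hu⟩ := hx g hg
  refine ⟨fun i => (↑u⁻¹ : F[X]) * c i, ?_⟩
  have : ∑ i, (↑u⁻¹ : F[X]) * c i * x i = ↑u⁻¹ * g := by
    rw [← hc, Finset.mul_sum]
    apply Finset.sum_congr rfl
    intro i _
    ring
  rw [this, ← hu]
  exact u.inv_mul

/-- The content. -/
lemma exists_content {s : ℕ} {x : Fin s → F[X]} (hx : x ≠ 0) :
    ∃ g : F[X], ∃ x' : Fin s → F[X], g.Monic ∧ Prim x' ∧ x = fun i => g * x' i := by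
  obtain ⟨g₀, hg₀, c, hc⟩ := exists_gen x
  have h0 : g₀ ≠ 0 := by
    rintro rfl
    apply hx
    funext i
    exact zero_dvd_iff.1 (hg₀ i)
  obtain ⟨g, hg, h1, h2⟩ := exists_monic h0
  choose x' hx' using fun i => dvd_trans h2 (hg₀ i)
  refine ⟨g, x', hg, ?_, funext hx'⟩
  intro h hh
  have h3 : g * h ∣ g₀ := by
    rw [← hc]
    apply Finset.dvd_sum
    intro i _
    rw [hx' i]
    exact Dvd.dvd.mul_left (mul_dvd_mul_left _ (hh i)) _
  have h4 := dvd_trans h3 h1
  have h5 : g * h ∣ g * 1 := by rwa [mul_one]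
  exact isUnit_of_dvd_one ((mul_dvd_mul_iff_left hg.ne_zero).1 h5)

lemma dvd_of_prim {s : ℕ} {x x' : Fin s → F[X]} (hx : Prim x) {g h : F[X]}
    (he : ∀ i, g * x i = h * x' i) : h ∣ g := by
  obtain ⟨c, hc⟩ := prim_bezout hx
  have : g = ∑ i, c i * (g * x i) := by
    have h1 : ∑ i, c i * (g * x i) = g * ∑ i, c i * x i := by
      rw [Finset.mul_sum]
      apply Finset.sum_congr rfl
      intro i _
      ring
    rw [h1, hc, mul_one]
  rw [this]
  apply Finset.dvd_sum
  intro i _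
  rw [he i]
  exact Dvd.dvd.mul_left (Dvd.intro _ rfl) _

lemma content_unique {s : ℕ} {x x' : Fin s → F[X]} (hx : Prim x) (hx' : Prim x') {g h : F[X]}
    (hg : g.Monic) (hh : h.Monic) (he : ∀ i, g * x i = h * x' i) : g = h ∧ x = x' := by
  have h1 : h ∣ g := dvd_of_prim hx he
  have h2 : g ∣ h := dvd_of_prim hx' (fun i => (he i).symm)
  have h3 : g = h := eq_of_monic_of_associated hg hh (associated_of_dvd_dvd h2 h1)
  refine ⟨h3, ?_⟩
  funext i
  have := he i
  rw [← h3] at this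
  exact mul_left_cancel₀ hg.ne_zero this

/-- Proportional primitive tuples differ by a constant. -/
lemma prim_scale {s : ℕ} {x x' : Fin s → F[X]} (hx : Prim x) (hx' : Prim x') {u v : F[X]}
    (hu : u ≠ 0) (he : ∀ i, v * x i = u * x' i) : ∃ c : F, c ≠ 0 ∧ ∀ i, x i = C c * x' i := by
  have h1 : u ∣ v := dvd_of_prim hx he
  have h2 : v ∣ u := dvd_of_prim hx' (fun i => (he i).symm)
  obtain ⟨w, hw⟩ := associated_of_dvd_dvd h2 h1
  have hv : v ≠ 0 := by
    rintro rfl
    rw [zero_mul] at hw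
    exact hu hw.symm
  obtain ⟨c, hc, hcw⟩ := Polynomial.isUnit_iff.1 w.isUnit
  refine ⟨c, hc.ne_zero, fun i => ?_⟩
  apply mul_left_cancel₀ hv
  rw [he i, ← hw, ← hcw]
  ring

section
variable [Fintype F]

/-- The primitive zeros of maximal degree exactly `P`. -/
noncomputable def PP (k : ℕ) {s : ℕ} (a : Fin s → F[X]) (P : ℕ) : Finset (Fin s → F[X]) :=
  (SP k a P).filter Prim

lemma mem_SP {k s P : ℕ} {a x : Fin s → F[X]} : x ∈ SP k a P ↔
    ((∀ i, x i ∈ degreeLT F (P + 1)) ∧ ∃ i, (x i).coeff P ≠ 0) ∧ ∑ i, a i * x i ^ k = 0 := by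
  unfold SP
  rw [Finset.mem_filter, mem_BP]

lemma mem_PP {k s P : ℕ} {a x : Fin s → F[X]} : x ∈ PP k a P ↔
    (((∀ i, x i ∈ degreeLT F (P + 1)) ∧ ∃ i, (x i).coeff P ≠ 0) ∧ ∑ i, a i * x i ^ k = 0)
      ∧ Prim x := by
  unfold PP
  rw [Finset.mem_filter, mem_SP]

/-- The monic polynomials of degree `j`. -/
noncomputable def Mo (F : Type*) [Field F] [Fintype F] (j : ℕ) : Finset F[X] :=
  Finset.univ.image (fun r : degreeLT F j => wp r)

lemma mem_Mo {j : ℕ} {g : F[X]} : g ∈ Mo F j ↔ g.Monic ∧ g.natDegree = j := by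
  unfold Mo
  rw [Finset.mem_image]
  constructor
  · rintro ⟨r, -, rfl⟩; exact ⟨wp_monic r, wp_natDegree r⟩
  · rintro ⟨h1, h2⟩
    obtain ⟨r, hr⟩ := exists_wp h1 h2
    exact ⟨r, Finset.mem_univ _, hr⟩

lemma card_Mo (j : ℕ) : (Mo F j).card = Fintype.card F ^ j := by
  unfold Mo
  rw [Finset.card_image_of_injective _ (fun _ _ h => wp_inj h), Finset.card_univ, card_V]

omit [Fintype F] in
lemma form_scale {k s : ℕ} (a x : Fin s → F[X]) (g : F[X]) :
    ∑ i, a i * (g * x i) ^ k = g ^ k * ∑ i, a i * x i ^ k := by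
  rw [Finset.mul_sum]
  apply Finset.sum_congr rfl
  intro i _
  rw [mul_pow]; ring

/-- The decomposition by the content. -/
lemma card_SP_sum {k s : ℕ} (a : Fin s → F[X]) (P : ℕ) :
    (SP k a P).card = ∑ j ∈ Finset.range (P + 1), Fintype.card F ^ j * (PP k a (P - j)).card := by
  have h1 : ∑ j ∈ Finset.range (P + 1), Fintype.card F ^ j * (PP k a (P - j)).card
      = ((Finset.range (P + 1)).sigma (fun j => Mo F j ×ˢ PP k a (P - j))).card := by
    rw [Finset.card_sigma]
    apply Finset.sum_congr rfl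
    intro j _
    rw [Finset.card_product, card_Mo]
  rw [h1]
  symm
  refine Finset.card_bij (fun z _ => fun i => z.2.1 * z.2.2 i) ?_ ?_ ?_
  · rintro ⟨j, g, x⟩ hz
    rw [Finset.mem_sigma, Finset.mem_product, mem_Mo, mem_PP, Finset.mem_range] at hz
    obtain ⟨hj, ⟨hg, hgj⟩, ⟨⟨hx1, i, hi⟩, hx2⟩, hx3⟩ := hz
    simp only at hj hgj hx1 hi hx2 hx3 hg ⊢
    rw [mem_SP]
    refine ⟨⟨fun l => ?_, i, ?_⟩, ?_⟩
    · rw [mem_V_succ_iff]
      refine le_trans natDegree_mul_le ?_
      have := mem_V_succ_iff.1 (hx1 l)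
      omega
    · have e : P = j + (P - j) := by omega
      conv_lhs => rw [e]
      rw [coeff_mul_add_eq_of_natDegree_le (le_of_eq hgj) (mem_V_succ_iff.1 (hx1 i)), ← hgj,
        hg.coeff_natDegree, one_mul, hgj]
      exact hi
    · rw [form_scale, hx2, mul_zero]
  · rintro ⟨j, g, x⟩ hz ⟨j', g', x'⟩ hz' h
    rw [Finset.mem_sigma, Finset.mem_product, mem_Mo, mem_PP, Finset.mem_range] at hz hz'
    obtain ⟨-, ⟨hg, hgj⟩, -, hx3⟩ := hz
    obtain ⟨-, ⟨hg', hgj'⟩, -, hx3'⟩ := hz'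
    simp only at hgj hgj' hg hg' hx3 hx3' h
    obtain ⟨h2, h3⟩ := content_unique hx3 hx3' hg hg' (fun i => congrFun h i)
    subst h2
    subst h3
    subst hgj
    subst hgj'
    rfl
  · intro x hx
    rw [mem_SP] at hx
    obtain ⟨⟨hx1, i, hi⟩, hx2⟩ := hx
    have hx0 : x ≠ 0 := by
      rintro rfl
      apply hi
      rw [Pi.zero_apply, coeff_zero]
    obtain ⟨g, x', hg, hx', he⟩ := exists_content hx0
    have hd : ∀ l, x' l ≠ 0 → (x l).natDegree = g.natDegree + (x' l).natDegree := by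
      intro l hl
      rw [he, hg.natDegree_mul' hl]
    have hi' : x' i ≠ 0 := by
      intro h0
      apply hi
      rw [he]
      simp only
      rw [h0, mul_zero, coeff_zero]
    have hP : (x i).natDegree = P :=
      le_antisymm (mem_V_succ_iff.1 (hx1 i)) (le_natDegree_of_ne_zero hi)
    have hdi := hd i hi'
    refine ⟨⟨g.natDegree, g, x'⟩, ?_, he.symm⟩
    rw [Finset.mem_sigma, Finset.mem_product, mem_Mo, mem_PP, Finset.mem_range]
    refine ⟨by simp only; omega, ⟨hg, rfl⟩, ⟨⟨?_, i, ?_⟩, ?_⟩, hx'⟩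
    · intro l
      rw [mem_V_succ_iff]
      by_cases hl : x' l = 0
      · simp only [hl, natDegree_zero]
        exact Nat.zero_le _
      · have h2 := hd l hl
        have h3 := mem_V_succ_iff.1 (hx1 l)
        simp only
        omega
    · have e : P - g.natDegree = (x' i).natDegree := by omega
      simp only [e]
      exact leadingCoeff_ne_zero.2 hi'
    · rw [he, form_scale] at hx2
      exact (mul_eq_zero.1 hx2).resolve_left (pow_ne_zero _ hg.ne_zero)

/-- The recursion. -/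
lemma card_SP_succ {k s : ℕ} (a : Fin s → F[X]) (P : ℕ) :
    (SP k a (P + 1)).card = (PP k a (P + 1)).card + Fintype.card F * (SP k a P).card := by
  rw [card_SP_sum a (P + 1), card_SP_sum a P, Finset.sum_range_succ', add_comm, pow_zero, one_mul,
    Nat.sub_zero, Finset.mul_sum]
  congr 1
  apply Finset.sum_congr rfl
  intro j _
  rw [pow_succ, Nat.add_sub_add_right]
  ring

/-- The number of primitive zeros. -/
lemma tendsto_PP {k s : ℕ} {a : Fin s → F[X]} {c : ℝ} {e : ℕ}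
    (h : Tendsto (fun P => ((SP k a P).card : ℝ) / (Fintype.card F : ℝ) ^ (e * P)) atTop (𝓝 c)) :
    Tendsto (fun P => ((PP k a P).card : ℝ) / (Fintype.card F : ℝ) ^ (e * P)) atTop
      (𝓝 (c * (1 - (Fintype.card F : ℝ) / (Fintype.card F : ℝ) ^ e))) := by
  set q : ℝ := (Fintype.card F : ℝ) with hq
  have hq0 : 0 < q := by rw [hq]; exact_mod_cast Fintype.card_pos
  rw [← tendsto_add_atTop_iff_nat 1]
  have h1 : ∀ P, ((PP k a (P + 1)).card : ℝ) / q ^ (e * (P + 1))
      = ((SP k a (P + 1)).card : ℝ) / q ^ (e * (P + 1))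
        - (q / q ^ e) * (((SP k a P).card : ℝ) / q ^ (e * P)) := by
    intro P
    rw [card_SP_succ]
    push_cast
    rw [← hq, mul_add e P 1, mul_one, pow_add]
    have h2 : q ^ (e * P) ≠ 0 := by positivity
    have h3 : q ^ e ≠ 0 := by positivity
    field_simp
    ring
  simp only [h1]
  have h2 := (tendsto_add_atTop_iff_nat 1).2 h
  have h3 := h2.sub (h.const_mul (q / q ^ e))
  have e2 : c - q / q ^ e * c = c * (1 - q / q ^ e) := by ring
  rw [e2] at h3
  exact h3

end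

end Pool.Agent.H598.AS
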