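import Pool.Agent.H598.AS.Dens

/-!
# Convergence of the singular series
-/

namespace Pool.Agent.H598.AS

open Finset Polynomial Pool.Agent.H598.FQ
open Pool.Agent.H598.DG (amgm)
open Pool.Agent.H598.TK (wp wp_monic wp_natDegree wp_inj exists_wp)
open scoped Classical

variable {F : Type*} [Field F] [Fintype F]

/-- The constant in the bound for the singular series. -/
noncomputable def Ca (F : Type*) [Field F] [Fintype F] {s : ℕ} (a : Fin s → F[X]) : ℝ :=
  (∑ i, CA (Fintype.card F) (a i).natDegree) / s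

lemma Ca_nonneg {s : ℕ} (a : Fin s → F[X]) : 0 ≤ Ca F a := by
  unfold Ca
  have : 0 ≤ ∑ i, CA (Fintype.card F) (a i).natDegree :=
    Finset.sum_nonneg (fun _ _ => CA_nonneg _ _)
  positivity

lemma Ca_const {s : ℕ} (hs : 0 < s) {a : Fin s → F[X]} (ha : ∀ i, (a i).natDegree = 0) :
    Ca F a = 1 := by
  unfold Ca
  have h : ∀ i : Fin s, CA (Fintype.card F) (a i).natDegree = 1 := by
    intro i; rw [ha i, CA_zero]
  rw [Finset.sum_congr rfl (fun i _ => h i), Finset.sum_const, Finset.card_univ,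
    Fintype.card_fin, nsmul_eq_mul, mul_one]
  have : (s : ℝ) ≠ 0 := by exact_mod_cast hs.ne'
  exact div_self this

section
variable {ψ : AddChar F ℂ} (hψ : ψ ≠ 1) {k : ℕ} (hk : 2 ≤ k)
  (hch : ∀ i : ℕ, 1 ≤ i → i ≤ k → ((i : ℕ) : F) ≠ 0) (hbig : Big (Fintype.card F) k)
  {s : ℕ} (hs : 2 * k + 1 ≤ s) {a : Fin s → F[X]} (ha : ∀ i, a i ≠ 0)

include hψ hk hch hbig hs ha in
/-- Absolute convergence. -/
theorem tau_bound (m : F[X]) (d : ℕ) :
    ∑ p ∈ Pm F d, ‖tau ψ k a m p‖ ≤ Ca F a / 16 ^ d := by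
  have hs0 : 0 < s := by omega
  have h1 : ∀ p ∈ Pm F d, ‖tau ψ k a m p‖ ≤ (∑ i, sig ψ k (a i) p ^ (2 * k + 1)) / s := by
    intro p _
    rw [norm_tau]
    refine le_trans (amgm hs0 _ (fun i => sig_nonneg _ _ _ _)) ?_
    apply div_le_div_of_nonneg_right _ (Nat.cast_nonneg _)
    apply Finset.sum_le_sum
    intro i _
    exact pow_le_pow_of_le_one (sig_nonneg _ _ _ _) (sig_le_one _ _ _ _) hs
  refine le_trans (Finset.sum_le_sum h1) ?_
  rw [← Finset.sum_div, Finset.sum_comm]
  unfold Ca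
  rw [div_div, mul_comm (s : ℝ), ← div_div]
  apply div_le_div_of_nonneg_right _ (Nat.cast_nonneg _)
  rw [Finset.sum_div]
  apply Finset.sum_le_sum
  intro i _
  exact gen_bound hψ hk hch hbig (ha i) d

/-- The contribution of degree `d` to the singular series. -/
noncomputable def Ad (ψ : AddChar F ℂ) (k : ℕ) {s : ℕ} (a : Fin s → F[X]) (m : F[X]) (d : ℕ) : ℂ :=
  ∑ p ∈ Pm F d, tau ψ k a m p

include hψ hk hch hbig hs ha in
lemma norm_Ad (m : F[X]) (d : ℕ) : ‖Ad ψ k a m d‖ ≤ Ca F a / 16 ^ d :=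
  le_trans (norm_sum_le _ _) (tau_bound hψ hk hch hbig hs ha m d)

include hψ hk hch hbig hs ha in
lemma summable_Ad (m : F[X]) : Summable (fun d => Ad ψ k a m d) := by
  apply Summable.of_norm_bounded (g := fun d : ℕ => Ca F a * (1 / 16 : ℝ) ^ d)
  · exact (summable_geometric_of_lt_one (by norm_num) (by norm_num)).mul_left _
  · intro d
    refine le_trans (norm_Ad hψ hk hch hbig hs ha m d) (le_of_eq ?_)
    rw [one_div, inv_pow, div_eq_mul_inv]

/-- The singular series. -/
noncomputable def SSer (ψ : AddChar F ℂ) (k : ℕ) {s : ℕ} (a : Fin s → F[X]) (m : F[X]) : ℂ :=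
  ∑' d, Ad ψ k a m d

include hψ hk hch hbig hs ha in
/-- The tail of the singular series. -/
theorem tail_SSer (m : F[X]) (D : ℕ) :
    ‖SSer ψ k a m - ∑ d ∈ Finset.range (D + 1), Ad ψ k a m d‖ ≤ Ca F a / (15 * 16 ^ D) := by
  have hsum := summable_Ad hψ hk hch hbig hs ha m
  have h1 := hsum.sum_add_tsum_nat_add (D + 1)
  have h2 : SSer ψ k a m - ∑ d ∈ Finset.range (D + 1), Ad ψ k a m d
      = ∑' d, Ad ψ k a m (d + (D + 1)) := by
    unfold SSer
    rw [← h1]; ring
  rw [h2]
  have h3 : ∀ d, ‖Ad ψ k a m (d + (D + 1))‖ ≤ (Ca F a / 16 ^ (D + 1)) * (1 / 16 : ℝ) ^ d := by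
    intro d
    refine le_trans (norm_Ad hψ hk hch hbig hs ha m _) (le_of_eq ?_)
    rw [pow_add, one_div, inv_pow]
    field_simp
  have hg : HasSum (fun d : ℕ => (Ca F a / 16 ^ (D + 1)) * (1 / 16 : ℝ) ^ d)
      ((Ca F a / 16 ^ (D + 1)) * (1 - 1 / 16)⁻¹) :=
    (hasSum_geometric_of_lt_one (by norm_num) (by norm_num)).mul_left _
  refine le_trans (tsum_of_norm_bounded hg h3) (le_of_eq ?_)
  rw [pow_succ]
  field_simp
  norm_num

include hψ hk hch hbig hs ha in
/-- The local density of a modulus with many divisors is close to the singular series. -/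
theorem dens_close (m : F[X]) {D : ℕ} {G : F[X]} (hG : G.Monic)
    (hdvd : ∀ g : F[X], g.Monic → g.natDegree ≤ D → g ∣ G) :
    ‖(NG k a m G : ℂ) * (Fintype.card F : ℂ) ^ G.natDegree
        / ((Fintype.card F : ℂ) ^ G.natDegree) ^ s - SSer ψ k a m‖
      ≤ 2 * (Ca F a / (15 * 16 ^ D)) := by
  rw [dens_formula hψ k a m hG]
  have hDG : D ≤ G.natDegree := by
    have h1 := hdvd (X ^ D) (monic_X_pow D) (by rw [natDegree_X_pow])
    have h2 := natDegree_le_of_dvd h1 hG.ne_zero
    rwa [natDegree_X_pow] at h2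
  obtain ⟨e, he⟩ : ∃ e, G.natDegree = D + e := ⟨G.natDegree - D, by omega⟩
  have h1 : ∑ d ∈ Finset.range (G.natDegree + 1), ∑ p ∈ (Pm F d).filter (fun p => wp p.1 ∣ G),
      tau ψ k a m p
      = ∑ d ∈ Finset.range (D + 1), Ad ψ k a m d + ∑ d ∈ Finset.range e,
        ∑ p ∈ (Pm F (D + 1 + d)).filter (fun p => wp p.1 ∣ G), tau ψ k a m p := by
    rw [he, show D + e + 1 = (D + 1) + e by ring, Finset.sum_range_add]
    congr 1
    apply Finset.sum_congr rfl
    intro d hd
    unfold Ad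
    rw [Finset.filter_true_of_mem]
    intro p _
    apply hdvd _ (wp_monic _)
    rw [wp_natDegree]
    have := Finset.mem_range.1 hd
    omega
  rw [h1]
  have h2 : ‖∑ d ∈ Finset.range e,
        ∑ p ∈ (Pm F (D + 1 + d)).filter (fun p => wp p.1 ∣ G), tau ψ k a m p‖
      ≤ Ca F a / (15 * 16 ^ D) := by
    refine le_trans (norm_sum_le _ _) ?_
    have h3 : ∀ d ∈ Finset.range e,
        ‖∑ p ∈ (Pm F (D + 1 + d)).filter (fun p => wp p.1 ∣ G), tau ψ k a m p‖
        ≤ (Ca F a / 16 ^ D) * (1 / 16 ^ (d + 1)) := by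
      intro d _
      refine le_trans (norm_sum_le _ _) ?_
      refine le_trans (Finset.sum_le_sum_of_subset_of_nonneg (Finset.filter_subset _ _)
        (fun _ _ _ => norm_nonneg _)) ?_
      refine le_trans (tau_bound hψ hk hch hbig hs ha m _) (le_of_eq ?_)
      rw [show D + 1 + d = D + (d + 1) by ring, pow_add]
      field_simp
    refine le_trans (Finset.sum_le_sum h3) ?_
    rw [← Finset.mul_sum]
    calc (Ca F a / 16 ^ D) * ∑ d ∈ Finset.range e, (1 : ℝ) / 16 ^ (d + 1)
        ≤ (Ca F a / 16 ^ D) * (1 / 15) := by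
          apply mul_le_mul_of_nonneg_left (DG.geo16 e)
          have := Ca_nonneg a
          positivity
      _ = _ := by field_simp
  have h4 := tail_SSer hψ hk hch hbig hs ha m D
  set A1 := ∑ d ∈ Finset.range (D + 1), Ad ψ k a m d with hA1
  set B1 := ∑ d ∈ Finset.range e,
        ∑ p ∈ (Pm F (D + 1 + d)).filter (fun p => wp p.1 ∣ G), tau ψ k a m p with hB1
  have h5 : A1 + B1 - SSer ψ k a m = B1 - (SSer ψ k a m - A1) := by ring
  rw [h5]
  refine le_trans (norm_sub_le _ _) ?_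
  linarith

include hψ hk hch hbig hs ha in
/-- Lower bound for the singular series. -/
lemma SSer_one (m : F[X]) : ‖SSer ψ k a m - 1‖ ≤ Ca F a / 15 := by
  have h1 := tail_SSer hψ hk hch hbig hs ha m 0
  have h2 : ∑ d ∈ Finset.range (0 + 1), Ad ψ k a m d = 1 := by
    rw [zero_add, Finset.sum_range_one]
    have h3 := dens_formula hψ k a m (monic_one (R := F))
    rw [natDegree_one, zero_add, Finset.sum_range_one] at h3
    unfold Ad
    have h4 : (Pm F 0).filter (fun p => wp p.1 ∣ (1 : F[X])) = Pm F 0 := by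
      apply Finset.filter_true_of_mem
      intro p _
      have h5 : wp p.1 = 1 := by
        have := wp_natDegree p.1
        exact (wp_monic p.1).natDegree_eq_zero.1 this
      rw [h5]
    rw [h4] at h3
    rw [← h3]
    have h6 : NG k a m 1 = 1 := by
      unfold NG
      rw [Finset.filter_true_of_mem (fun _ _ => one_dvd _), Finset.card_univ, Fintype.card_fun,
        card_V, natDegree_one]
      simp
    rw [h6]
    simp
  rw [h2, pow_zero, mul_one] at h1
  exact h1

end

/-- There is a modulus divisible by all monic polynomials of bounded degree. -/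
lemma exists_modulus (F : Type*) [Field F] [Fintype F] (D : ℕ) :
    ∃ H : F[X], H.Monic ∧ ∀ g : F[X], g.Monic → g.natDegree ≤ D → g ∣ H := by
  refine ⟨∏ d ∈ Finset.range (D + 1), ∏ r : degreeLT F d, wp r, ?_, ?_⟩
  · apply monic_prod_of_monic
    intro d _
    apply monic_prod_of_monic
    intro r _
    exact wp_monic r
  · intro g hg hd
    obtain ⟨r, hr⟩ := exists_wp hg rfl
    have h1 : wp r ∣ ∏ r : degreeLT F g.natDegree, wp r :=
      Finset.dvd_prod_of_mem (fun r => wp r) (Finset.mem_univ r)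
    have h2 : (∏ r : degreeLT F g.natDegree, wp r) ∣
        ∏ d ∈ Finset.range (D + 1), ∏ r : degreeLT F d, wp r :=
      Finset.dvd_prod_of_mem (fun d => ∏ r : degreeLT F d, wp r)
        (Finset.mem_range.2 (Nat.lt_succ_of_le hd))
    exact dvd_trans (dvd_trans (dvd_of_eq hr.symm) h1) h2

end Pool.Agent.H598.AS
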